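import Mathlib
import Pool.Agent.N381.LH.Cons

/-!
N381/LB (helper381, MP_0430e4_lc): domination of Fourier coefficients in averages over linear
forms.
-/

set_option autoImplicit false
set_option linter.unusedSectionVars false

namespace Pool.Agent.N381.LB

open Finset Matrix Pool.Agent.N381.LH

variable {n s : ℕ}

/-- the function with given Fourier coefficients -/
noncomputable def syn (c : (Fin n → ZMod 2) → ℝ) (x : Fin n → ZMod 2) : ℝ :=
  ∑ v, c v * sg (x ⬝ᵥ v)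

lemma sg_form (a : Fin s → ZMod 2) (X : Matrix (Fin s) (Fin n) (ZMod 2)) (w : Fin n → ZMod 2) :
    sg ((a ᵥ* X) ⬝ᵥ w) = ch X (Matrix.vecMulVec a w) := by
  unfold ch pr
  congr 1
  simp only [Matrix.vecMul, dotProduct, Matrix.vecMulVec_apply, Finset.sum_mul]
  rw [Finset.sum_comm]
  refine Finset.sum_congr rfl fun i _ => Finset.sum_congr rfl fun j _ => ?_
  ring

lemma ch_sum {ι : Type*} (S : Finset ι) (X : Matrix (Fin s) (Fin n) (ZMod 2))
    (W : ι → Matrix (Fin s) (Fin n) (ZMod 2)) :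
    ch X (∑ i ∈ S, W i) = ∏ i ∈ S, ch X (W i) := by
  classical
  induction S using Finset.induction_on with
  | empty => simp
  | insert a S ha ih => rw [Finset.sum_insert ha, Finset.prod_insert ha, ch_add_right, ih]

variable {ι : Type*} [Fintype ι] [DecidableEq ι]

/-- **Domination.** -/
lemma dom (α : ι → Fin s → ZMod 2) (c C : ι → (Fin n → ZMod 2) → ℝ)
    (hc : ∀ i v, |c i v| ≤ C i v) (m : Matrix (Fin s) (Fin n) (ZMod 2)) :
    |∑ X : Matrix (Fin s) (Fin n) (ZMod 2), (∏ i, syn (c i) (α i ᵥ* X)) * ch X m| ≤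
      ∑ X : Matrix (Fin s) (Fin n) (ZMod 2), (∏ i, syn (C i) (α i ᵥ* X)) * ch X m := by
  have key : ∀ b : ι → (Fin n → ZMod 2) → ℝ,
      ∑ X : Matrix (Fin s) (Fin n) (ZMod 2), (∏ i, syn (b i) (α i ᵥ* X)) * ch X m =
      ∑ w : ι → (Fin n → ZMod 2), (∏ i, b i (w i)) *
        ∑ X : Matrix (Fin s) (Fin n) (ZMod 2), ch X (∑ i, Matrix.vecMulVec (α i) (w i) + m) := by
    intro b
    have h1 : ∀ X : Matrix (Fin s) (Fin n) (ZMod 2), (∏ i, syn (b i) (α i ᵥ* X)) * ch X m =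
        ∑ w : ι → (Fin n → ZMod 2), (∏ i, b i (w i)) *
          ch X (∑ i, Matrix.vecMulVec (α i) (w i) + m) := by
      intro X
      unfold syn
      rw [Finset.prod_univ_sum, Fintype.piFinset_univ, Finset.sum_mul]
      refine Finset.sum_congr rfl fun w _ => ?_
      rw [ch_add_right, ch_sum, Finset.prod_mul_distrib]
      simp only [sg_form]
      ring
    rw [Finset.sum_congr rfl fun X _ => h1 X, Finset.sum_comm]
    refine Finset.sum_congr rfl fun w _ => ?_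
    rw [Finset.mul_sum]
  rw [key c, key C]
  refine (Finset.abs_sum_le_sum_abs _ _).trans (Finset.sum_le_sum fun w _ => ?_)
  have h0 : 0 ≤ ∑ X : Matrix (Fin s) (Fin n) (ZMod 2),
      ch X (∑ i, Matrix.vecMulVec (α i) (w i) + m) := by
    rw [sum_ch]
    split_ifs <;> positivity
  rw [abs_mul, abs_of_nonneg h0, Finset.abs_prod]
  refine mul_le_mul_of_nonneg_right ?_ h0
  exact Finset.prod_le_prod (fun _ _ => abs_nonneg _) fun i _ => hc i (w i)

/-- product functions -/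
lemma syn_pow (γ ρ : ℝ) (x : Fin n → ZMod 2) :
    syn (fun v => γ * ρ ^ hammingNorm v) x = γ * ∏ j, (1 + ρ * sg (x j)) := by
  unfold syn
  have h1 : ∀ v : Fin n → ZMod 2, γ * ρ ^ hammingNorm v * sg (x ⬝ᵥ v) =
      γ * ∏ j, ((if v j ≠ 0 then ρ else 1) * sg (x j * v j)) := by
    intro v
    rw [Finset.prod_mul_distrib, ← pow_wt, ← sg_sum, mul_assoc]
    rfl
  rw [Finset.sum_congr rfl fun v _ => h1 v, ← Finset.mul_sum]
  rw [sum_prod_cube fun j a => (if a ≠ 0 then ρ else 1) * sg (x j * a)]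
  congr 1
  refine Finset.prod_congr rfl fun j _ => ?_
  simp [zmod2_one_ne]

/-- sums over matrices factor over the columns -/
lemma sum_cols (F : Fin n → (Fin s → ZMod 2) → ℝ) :
    ∑ X : Matrix (Fin s) (Fin n) (ZMod 2), ∏ j, F j (fun i => X i j) =
      ∏ j, ∑ ξ : Fin s → ZMod 2, F j ξ := by
  rw [Finset.prod_univ_sum, Fintype.piFinset_univ]
  let e : Matrix (Fin s) (Fin n) (ZMod 2) ≃ (Fin n → Fin s → ZMod 2) :=
    { toFun := fun X j i => X i j
      invFun := fun Y => Matrix.of fun i j => Y j i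
      left_inv := fun X => rfl
      right_inv := fun Y => rfl }
  exact Fintype.sum_equiv e _ _ fun X => rfl

lemma prod_form (α : ι → Fin s → ZMod 2) (γ ρ : ι → ℝ) (m : Matrix (Fin s) (Fin n) (ZMod 2)) :
    ∑ X : Matrix (Fin s) (Fin n) (ZMod 2),
      (∏ i, syn (fun v => γ i * ρ i ^ hammingNorm v) (α i ᵥ* X)) * ch X m =
      (∏ i, γ i) * ∏ j, ∑ ξ : Fin s → ZMod 2,
        (∏ i, (1 + ρ i * sg (α i ⬝ᵥ ξ))) * sg (ξ ⬝ᵥ fun i => m i j) := by
  rw [← sum_cols, Finset.mul_sum]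
  refine Finset.sum_congr rfl fun X _ => ?_
  simp only [syn_pow]
  rw [Finset.prod_mul_distrib, Finset.prod_comm, Finset.prod_mul_distrib (f := fun j =>
    ∏ i, (1 + ρ i * sg (α i ⬝ᵥ fun i => X i j)))]
  have h1 : ch X m = ∏ j, sg ((fun i => X i j) ⬝ᵥ fun i => m i j) := by
    unfold ch pr
    rw [← sg_sum, Finset.sum_comm]
    rfl
  rw [h1, mul_assoc]
  rfl

/-- one column -/
lemma col_bound (A : Finset (Fin s → ZMod 2)) (h0 : 0 ∉ A) (ρ : A → ℝ)
    (hρ0 : ∀ a, 0 ≤ ρ a) (hρ1 : ∀ a, ρ a ≤ ((2 : ℝ) ^ A.card)⁻¹) (y : Fin s → ZMod 2) :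
    0 ≤ ∑ ξ : Fin s → ZMod 2, (∏ a : A, (1 + ρ a * sg ((a : Fin s → ZMod 2) ⬝ᵥ ξ))) * sg (ξ ⬝ᵥ y) ∧
    ∑ ξ : Fin s → ZMod 2, (∏ a : A, (1 + ρ a * sg ((a : Fin s → ZMod 2) ⬝ᵥ ξ))) * sg (ξ ⬝ᵥ y) ≤
      2 ^ s * (1 + 2 ^ A.card * ∑ a : A, ρ a ^ 3) := by
  classical
  have hc1 : ((2 : ℝ) ^ A.card)⁻¹ ≤ 1 := inv_le_one_of_one_le₀ (one_le_pow₀ (by norm_num))
  have hsum0 : 0 ≤ ∑ a : A, ρ a ^ 3 := Finset.sum_nonneg fun a _ => by
    have := hρ0 a
    positivity
  have e1 : ∑ ξ : Fin s → ZMod 2, (∏ a : A, (1 + ρ a * sg ((a : Fin s → ZMod 2) ⬝ᵥ ξ))) *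
      sg (ξ ⬝ᵥ y) = ∑ Z : Finset A, (∏ a ∈ Z, ρ a) *
        (if (∑ a ∈ Z, (a : Fin s → ZMod 2)) + y = 0 then (2 : ℝ) ^ s else 0) := by
    have h1 : ∀ ξ : Fin s → ZMod 2, (∏ a : A, (1 + ρ a * sg ((a : Fin s → ZMod 2) ⬝ᵥ ξ))) *
        sg (ξ ⬝ᵥ y) = ∑ Z : Finset A, (∏ a ∈ Z, ρ a) *
          sg (ξ ⬝ᵥ ((∑ a ∈ Z, (a : Fin s → ZMod 2)) + y)) := by
      intro ξ
      rw [Finset.prod_one_add, Finset.sum_mul, Finset.powerset_univ]
      refine Finset.sum_congr rfl fun Z _ => ?_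
      rw [Finset.prod_mul_distrib, dotProduct_add, sg_add, dotProduct_sum, sg_sum, mul_assoc]
      congr 2
      exact Finset.prod_congr rfl fun a _ => by rw [dotProduct_comm]
    rw [Finset.sum_congr rfl fun ξ _ => h1 ξ, Finset.sum_comm]
    refine Finset.sum_congr rfl fun Z _ => ?_
    rw [← Finset.mul_sum, sgn_sum]
  rw [e1]
  have hZ : ∀ Z : Finset A, 0 ≤ ∏ a ∈ Z, ρ a := fun Z => Finset.prod_nonneg fun a _ => hρ0 a
  refine ⟨Finset.sum_nonneg fun Z _ => mul_nonneg (hZ Z) (by split_ifs <;> positivity), ?_⟩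
  have hcard : (Fintype.card (Finset A) : ℝ) = 2 ^ A.card := by
    rw [Fintype.card_finset, Fintype.card_coe]
    push_cast
    rfl
  have h2 : ∀ Z : Finset A, (∏ a ∈ Z, ρ a) *
      (if (∑ a ∈ Z, (a : Fin s → ZMod 2)) + y = 0 then (2 : ℝ) ^ s else 0) ≤
      2 ^ s * ((if y = 0 ∧ Z = ∅ then 1 else 0) + (if y = 0 then ∑ a : A, ρ a ^ 3 else
        ((2 : ℝ) ^ A.card)⁻¹)) := by
    intro Z
    by_cases hZy : (∑ a ∈ Z, (a : Fin s → ZMod 2)) + y = 0
    · rw [if_pos hZy, mul_comm]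
      refine mul_le_mul_of_nonneg_left ?_ (by positivity)
      by_cases hy : y = 0
      · rw [if_pos hy]
        by_cases hZe : Z = ∅
        · rw [if_pos ⟨hy, hZe⟩, hZe, Finset.prod_empty]
          linarith
        · rw [if_neg (fun h => hZe h.2), zero_add]
          rw [hy, add_zero] at hZy
          obtain ⟨a₀, ha₀, hmax⟩ := Finset.exists_max_image Z ρ
            (Finset.nonempty_iff_ne_empty.2 hZe)
          have h3 : 3 ≤ Z.card := by
            by_contra hlt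
            have hlt' : Z.card = 1 ∨ Z.card = 2 := by
              have := Finset.card_pos.2 ⟨a₀, ha₀⟩
              omega
            rcases hlt' with h | h
            · obtain ⟨a, rfl⟩ := Finset.card_eq_one.1 h
              rw [Finset.sum_singleton] at hZy
              exact h0 (hZy ▸ a.2)
            · obtain ⟨a, b, hab, rfl⟩ := Finset.card_eq_two.1 h
              rw [Finset.sum_pair hab] at hZy
              apply hab
              apply Subtype.ext
              calc (a : Fin s → ZMod 2) = a + (b + b) := by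
                    rw [show (b : Fin s → ZMod 2) + b = 0 from funext fun i =>
                      CharTwo.add_self_eq_zero _, add_zero]
                _ = (a + b) + b := by rw [add_assoc]
                _ = b := by rw [hZy, zero_add]
          have h4 : ∏ a ∈ Z, ρ a ≤ ρ a₀ ^ Z.card := by
            rw [← Finset.prod_const]
            exact Finset.prod_le_prod (fun a _ => hρ0 a) hmax
          refine h4.trans ((pow_le_pow_of_le_one (hρ0 a₀) ((hρ1 a₀).trans hc1) h3).trans ?_)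
          exact Finset.single_le_sum (f := fun a => ρ a ^ 3) (fun a _ => by
            have := hρ0 a
            positivity) (Finset.mem_univ a₀)
      · rw [if_neg (fun h => hy h.1), if_neg hy, zero_add]
        have hZe : Z.Nonempty := by
          rw [Finset.nonempty_iff_ne_empty]
          rintro rfl
          rw [Finset.sum_empty, zero_add] at hZy
          exact hy hZy
        obtain ⟨a₀, ha₀⟩ := hZe
        rw [← Finset.mul_prod_erase Z _ ha₀]
        calc ρ a₀ * ∏ a ∈ Z.erase a₀, ρ a ≤ ((2 : ℝ) ^ A.card)⁻¹ * 1 := by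
              refine mul_le_mul (hρ1 a₀) ?_ (Finset.prod_nonneg fun a _ => hρ0 a) (by positivity)
              exact Finset.prod_le_one (fun a _ => hρ0 a) fun a _ => (hρ1 a).trans hc1
          _ = _ := mul_one _
    · rw [if_neg hZy, mul_zero]
      refine mul_nonneg (by positivity) (add_nonneg (by split_ifs <;> norm_num) ?_)
      split_ifs
      · exact hsum0
      · positivity
  refine (Finset.sum_le_sum fun Z _ => h2 Z).trans ?_
  rw [← Finset.mul_sum]
  refine mul_le_mul_of_nonneg_left ?_ (by positivity)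
  rw [Finset.sum_add_distrib, Finset.sum_const, nsmul_eq_mul, Finset.card_univ, hcard]
  by_cases hy : y = 0
  · have : ∑ Z : Finset A, (if y = 0 ∧ Z = ∅ then (1 : ℝ) else 0) = 1 := by
      simp [hy]
    rw [this, if_pos hy]
  · have : ∑ Z : Finset A, (if y = 0 ∧ Z = ∅ then (1 : ℝ) else 0) = 0 := by
      simp [hy]
    rw [this, if_neg hy, mul_inv_cancel₀ (by positivity)]
    have : 0 ≤ (2 : ℝ) ^ A.card * ∑ a : A, ρ a ^ 3 := by positivity
    linarith

/-- **The bound for one tuple of degrees.** -/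
theorem form_bound (A : Finset (Fin s → ZMod 2)) (h0 : 0 ∉ A) (c : A → (Fin n → ZMod 2) → ℝ)
    (γ ρ : A → ℝ) (hγ0 : ∀ a, 0 ≤ γ a) (hρ0 : ∀ a, 0 ≤ ρ a)
    (hρ1 : ∀ a, ρ a ≤ ((2 : ℝ) ^ A.card)⁻¹)
    (hc : ∀ a v, |c a v| ≤ γ a * ρ a ^ hammingNorm v) (m : Matrix (Fin s) (Fin n) (ZMod 2)) :
    |∑ X : Matrix (Fin s) (Fin n) (ZMod 2),
      (∏ a : A, syn (c a) ((a : Fin s → ZMod 2) ᵥ* X)) * ch X m| ≤
      ((2 : ℝ) ^ s) ^ n * ∏ a : A, (γ a * Real.exp (2 ^ A.card * (n * ρ a ^ 3))) := by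
  refine (dom (fun a : A => (a : Fin s → ZMod 2)) c (fun a v => γ a * ρ a ^ hammingNorm v) hc m).trans
    ?_
  rw [prod_form]
  have hnn : 0 ≤ ∏ a : A, γ a := Finset.prod_nonneg fun a _ => hγ0 a
  have h1 : ∀ j : Fin n, ∑ ξ : Fin s → ZMod 2,
      (∏ a : A, (1 + ρ a * sg ((a : Fin s → ZMod 2) ⬝ᵥ ξ))) * sg (ξ ⬝ᵥ fun i => m i j) ≤
      2 ^ s * Real.exp (2 ^ A.card * ∑ a : A, ρ a ^ 3) := by
    intro j
    refine (col_bound A h0 ρ hρ0 hρ1 _).2.trans (mul_le_mul_of_nonneg_left ?_ (by positivity))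
    have := Real.add_one_le_exp (2 ^ A.card * ∑ a : A, ρ a ^ 3)
    linarith
  have h2 : ∏ j : Fin n, ∑ ξ : Fin s → ZMod 2,
      (∏ a : A, (1 + ρ a * sg ((a : Fin s → ZMod 2) ⬝ᵥ ξ))) * sg (ξ ⬝ᵥ fun i => m i j) ≤
      (2 ^ s * Real.exp (2 ^ A.card * ∑ a : A, ρ a ^ 3)) ^ n := by
    refine (Finset.prod_le_prod (fun j _ => (col_bound A h0 ρ hρ0 hρ1 _).1) fun j _ => h1 j).trans
      (le_of_eq ?_)
    rw [Finset.prod_const, Finset.card_univ, Fintype.card_fin]
  refine (mul_le_mul_of_nonneg_left h2 hnn).trans (le_of_eq ?_)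
  rw [Finset.prod_mul_distrib, ← Real.exp_sum, mul_pow, ← Real.exp_nat_mul]
  have : ∑ a : A, (2 : ℝ) ^ A.card * (n * ρ a ^ 3) = n * (2 ^ A.card * ∑ a : A, ρ a ^ 3) := by
    rw [Finset.mul_sum, Finset.mul_sum]
    exact Finset.sum_congr rfl fun a _ => by ring
  rw [this]
  ring

end Pool.Agent.N381.LB
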