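import Mathlib
import Pool.Agent.N381.LB.Dm

/-!
N381/LB (helper381, MP_0430e4_lc): Fourier analysis on the cube, radial functions.
-/

set_option autoImplicit false
set_option linter.unusedSectionVars false

namespace Pool.Agent.N381.LB

open Finset Matrix Pool.Agent.N381.LH Polynomial

variable {n s : ℕ}

/-- the average -/
noncomputable def av (f : (Fin n → ZMod 2) → ℝ) : ℝ := ((2 : ℝ) ^ n)⁻¹ * ∑ x, f x

lemma av_add (f g : (Fin n → ZMod 2) → ℝ) : av (fun x => f x + g x) = av f + av g := by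
  unfold av
  rw [Finset.sum_add_distrib, mul_add]

lemma av_sub (f g : (Fin n → ZMod 2) → ℝ) : av (fun x => f x - g x) = av f - av g := by
  unfold av
  rw [Finset.sum_sub_distrib, mul_sub]

lemma av_mul_left (a : ℝ) (f : (Fin n → ZMod 2) → ℝ) : av (fun x => a * f x) = a * av f := by
  unfold av
  rw [← Finset.mul_sum]
  ring

lemma av_sum {ι : Type*} (S : Finset ι) (f : ι → (Fin n → ZMod 2) → ℝ) :
    av (fun x => ∑ i ∈ S, f i x) = ∑ i ∈ S, av (f i) := by
  unfold av
  rw [Finset.sum_comm, Finset.mul_sum]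

lemma av_mono {f g : (Fin n → ZMod 2) → ℝ} (h : ∀ x, f x ≤ g x) : av f ≤ av g :=
  mul_le_mul_of_nonneg_left (Finset.sum_le_sum fun x _ => h x) (by positivity)

lemma av_nonneg {f : (Fin n → ZMod 2) → ℝ} (h : ∀ x, 0 ≤ f x) : 0 ≤ av f :=
  mul_nonneg (by positivity) (Finset.sum_nonneg fun x _ => h x)

lemma card_cube : (Fintype.card (Fin n → ZMod 2) : ℝ) = 2 ^ n := by
  rw [Fintype.card_fun, ZMod.card, Fintype.card_fin]
  push_cast
  rfl

lemma av_const (a : ℝ) : av (fun _ : Fin n → ZMod 2 => a) = a := by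
  unfold av
  rw [Finset.sum_const, Finset.card_univ, nsmul_eq_mul, card_cube]
  field_simp

lemma av_abs (f : (Fin n → ZMod 2) → ℝ) : |av f| ≤ av (fun x => |f x|) := by
  unfold av
  rw [abs_mul, abs_of_pos (by positivity : (0 : ℝ) < (2 ^ n)⁻¹)]
  exact mul_le_mul_of_nonneg_left (Finset.abs_sum_le_sum_abs _ _) (by positivity)

lemma av_cs (f g : (Fin n → ZMod 2) → ℝ) :
    av (fun x => f x * g x) ^ 2 ≤ av (fun x => f x ^ 2) * av (fun x => g x ^ 2) := by
  unfold av
  have h := Finset.sum_mul_sq_le_sq_mul_sq (univ : Finset (Fin n → ZMod 2)) f g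
  have h0 : (0 : ℝ) ≤ ((2 ^ n)⁻¹) ^ 2 := by positivity
  calc ((2 ^ n)⁻¹ * ∑ x, f x * g x) ^ 2 = ((2 : ℝ) ^ n)⁻¹ ^ 2 * (∑ x, f x * g x) ^ 2 := by ring
    _ ≤ ((2 : ℝ) ^ n)⁻¹ ^ 2 * ((∑ x, f x ^ 2) * ∑ x, g x ^ 2) := mul_le_mul_of_nonneg_left h h0
    _ = _ := by ring

/-- the Fourier coefficients -/
noncomputable def co (f : (Fin n → ZMod 2) → ℝ) (v : Fin n → ZMod 2) : ℝ :=
  av fun x => f x * sg (x ⬝ᵥ v)

lemma av_sg (y : Fin n → ZMod 2) : av (fun x => sg (x ⬝ᵥ y)) = if y = 0 then 1 else 0 := by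
  unfold av
  rw [sgn_sum]
  split_ifs
  · field_simp
  · ring

lemma cube_add_self (y : Fin n → ZMod 2) : y + y = 0 := funext fun i => CharTwo.add_self_eq_zero _

lemma add_eq_zero_iff_eq' (v w : Fin n → ZMod 2) : v + w = 0 ↔ v = w := by
  constructor
  · intro h
    calc v = v + (w + w) := by rw [cube_add_self, add_zero]
      _ = (v + w) + w := by rw [add_assoc]
      _ = w := by rw [h, zero_add]
  · rintro rfl
    exact cube_add_self v

/-- Parseval for synthesised functions. -/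
lemma av_syn_mul (c c' : (Fin n → ZMod 2) → ℝ) :
    av (fun x => syn c x * syn c' x) = ∑ v, c v * c' v := by
  have h1 : ∀ x : Fin n → ZMod 2, syn c x * syn c' x =
      ∑ v, ∑ w, c v * c' w * sg (x ⬝ᵥ (v + w)) := by
    intro x
    unfold syn
    rw [Finset.sum_mul_sum]
    refine Finset.sum_congr rfl fun v _ => Finset.sum_congr rfl fun w _ => ?_
    rw [dotProduct_add, sg_add]
    ring
  have h2 : av (fun x => syn c x * syn c' x) =
      ∑ v, ∑ w, c v * c' w * (if v + w = 0 then 1 else 0) := by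
    simp_rw [h1]
    rw [av_sum]
    refine Finset.sum_congr rfl fun v _ => ?_
    rw [av_sum]
    refine Finset.sum_congr rfl fun w _ => ?_
    rw [av_mul_left, av_sg]
  rw [h2]
  refine Finset.sum_congr rfl fun v _ => ?_
  have h3 : ∀ w : Fin n → ZMod 2, c v * c' w * (if v + w = 0 then (1 : ℝ) else 0) =
      if v = w then c v * c' w else 0 := by
    intro w
    simp only [add_eq_zero_iff_eq']
    split_ifs <;> ring
  rw [Finset.sum_congr rfl fun w _ => h3 w, Finset.sum_ite_eq, if_pos (Finset.mem_univ _)]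

lemma syn_single (v : Fin n → ZMod 2) (x : Fin n → ZMod 2) :
    syn (fun w => if w = v then 1 else 0) x = sg (x ⬝ᵥ v) := by
  unfold syn
  simp

lemma co_syn (c : (Fin n → ZMod 2) → ℝ) (v : Fin n → ZMod 2) : co (syn c) v = c v := by
  unfold co
  have h := av_syn_mul c (fun w => if w = v then 1 else 0)
  simp_rw [syn_single] at h
  rw [h]
  simp

lemma syn_co (f : (Fin n → ZMod 2) → ℝ) (x : Fin n → ZMod 2) : syn (co f) x = f x := by
  unfold syn co av
  have h1 : ∀ v : Fin n → ZMod 2, ((2 : ℝ) ^ n)⁻¹ * (∑ y, f y * sg (y ⬝ᵥ v)) * sg (x ⬝ᵥ v) =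
      ∑ y, ((2 : ℝ) ^ n)⁻¹ * f y * sg (v ⬝ᵥ (y + x)) := by
    intro v
    rw [Finset.mul_sum, Finset.sum_mul]
    refine Finset.sum_congr rfl fun y _ => ?_
    rw [dotProduct_add, sg_add, dotProduct_comm v y, dotProduct_comm v x]
    ring
  rw [Finset.sum_congr rfl fun v _ => h1 v, Finset.sum_comm]
  have h2 : ∀ y : Fin n → ZMod 2, ∑ v : Fin n → ZMod 2, ((2 : ℝ) ^ n)⁻¹ * f y * sg (v ⬝ᵥ (y + x)) =
      if x = y then f y else 0 := by
    intro y
    rw [← Finset.mul_sum, sgn_sum]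
    by_cases h : x = y
    · subst h
      rw [if_pos (cube_add_self x), if_pos rfl]
      field_simp
    · rw [if_neg h, if_neg (fun h' => h ((add_eq_zero_iff_eq' _ _).1 h').symm), mul_zero]
  rw [Finset.sum_congr rfl fun y _ => h2 y, Finset.sum_ite_eq, if_pos (Finset.mem_univ _)]

lemma parseval (f : (Fin n → ZMod 2) → ℝ) : ∑ v, co f v ^ 2 = av (fun x => f x ^ 2) := by
  have h := av_syn_mul (co f) (co f)
  simp_rw [syn_co] at h
  simp only [pow_two]
  exact h.symm

/-! ### Krawtchouk functions -/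

/-- the Krawtchouk function of degree `j` -/
noncomputable def Kr (j : ℕ) (x : Fin n → ZMod 2) : ℝ :=
  syn (fun v => if hammingNorm v = j then 1 else 0) x

lemma Kr_eq (j : ℕ) (x : Fin n → ZMod 2) : Kr j x = (wp x).coeff j := by
  rw [wp_coeff]
  unfold Kr syn
  rw [Finset.sum_filter]
  refine Finset.sum_congr rfl fun v _ => ?_
  rw [dotProduct_comm]
  by_cases h : hammingNorm v = j
  · simp [h]
  · simp [h]

/-- radial functions -/
def Rad (f : (Fin n → ZMod 2) → ℝ) : Prop := ∀ x y, hammingNorm x = hammingNorm y → f x = f y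

lemma wp_rad {x y : Fin n → ZMod 2} (h : hammingNorm x = hammingNorm y) : wp x = wp y := by
  rw [wp_eq, wp_eq, h]

lemma Kr_rad (j : ℕ) : Rad (Kr (n := n) j) := by
  intro x y h
  rw [Kr_eq, Kr_eq, wp_rad h]

lemma card_wt (j : ℕ) :
    ((univ.filter fun x : Fin n → ZMod 2 => hammingNorm x = j).card : ℝ) = (n.choose j : ℝ) := by
  have h := wp_coeff (0 : Fin n → ZMod 2) j
  rw [wp_eq, hammingNorm_zero, pow_zero, one_mul, Nat.sub_zero, Polynomial.coeff_one_add_X_pow] at h
  simp only [dotProduct_zero, sg_zero, Finset.sum_const, nsmul_eq_mul, mul_one] at h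
  exact h.symm

lemma Kr_orth (i j : ℕ) :
    av (fun x : Fin n → ZMod 2 => Kr i x * Kr j x) = if i = j then (n.choose j : ℝ) else 0 := by
  unfold Kr
  rw [av_syn_mul]
  by_cases h : i = j
  · subst h
    rw [if_pos rfl, ← card_wt, ← Finset.sum_boole]
    refine Finset.sum_congr rfl fun v _ => ?_
    split_ifs <;> norm_num
  · rw [if_neg h]
    refine Finset.sum_eq_zero fun v _ => ?_
    by_cases hv : hammingNorm v = i
    · rw [if_neg (fun h' => h (hv.symm.trans h')), mul_zero]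
    · rw [if_neg hv, zero_mul]

lemma rad_coeff {f : (Fin n → ZMod 2) → ℝ} (hf : Rad f) : Rad (co f) := by
  intro v w h
  obtain ⟨F, hF⟩ : ∃ F : ℕ → ℝ, ∀ x, f x = F (hammingNorm x) := by
    classical
    refine ⟨fun k => if h : ∃ x : Fin n → ZMod 2, hammingNorm x = k then f h.choose else 0, ?_⟩
    intro x
    have hx : ∃ y : Fin n → ZMod 2, hammingNorm y = hammingNorm x := ⟨x, rfl⟩
    simp only [dif_pos hx]
    exact hf _ _ hx.choose_spec.symm
  have key : ∀ u : Fin n → ZMod 2, ∑ x, f x * sg (x ⬝ᵥ u) =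
      ∑ k ∈ range (n + 1), F k * (wp u).coeff k := by
    intro u
    have h1 : ∀ k ∈ range (n + 1), F k * (wp u).coeff k =
        ∑ x ∈ univ.filter (fun x : Fin n → ZMod 2 => hammingNorm x = k), f x * sg (x ⬝ᵥ u) := by
      intro k _
      rw [wp_coeff, Finset.mul_sum]
      refine Finset.sum_congr rfl fun x hx => ?_
      rw [hF x, (Finset.mem_filter.1 hx).2]
    rw [Finset.sum_congr rfl h1]
    refine (Finset.sum_fiberwise_of_maps_to (g := fun x : Fin n → ZMod 2 => hammingNorm x) ?_ _).symm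
    intro x _
    exact Finset.mem_range.2 (Nat.lt_succ_of_le (wt_le x))
  unfold co av
  rw [key v, key w, wp_rad h]

/-- **Coefficients of radial functions are small.** -/
lemma rad_coeff_le {f : (Fin n → ZMod 2) → ℝ} (hf : Rad f) (v : Fin n → ZMod 2) :
    co f v ^ 2 * (n.choose (hammingNorm v) : ℝ) ≤ av (fun x => f x ^ 2) := by
  rw [← parseval, ← card_wt, mul_comm, ← nsmul_eq_mul, ← Finset.sum_const]
  refine le_trans (le_of_eq ?_) (Finset.sum_le_sum_of_subset_of_nonneg
    (Finset.filter_subset (fun x : Fin n → ZMod 2 => hammingNorm x = hammingNorm v) univ)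
    fun w _ _ => sq_nonneg (co f w))
  refine Finset.sum_congr rfl fun w hw => ?_
  rw [rad_coeff hf w v (Finset.mem_filter.1 hw).2]

lemma pow_le_choose_mul (n j : ℕ) (h : j ≤ n) : n ^ j ≤ n.choose j * j ^ j := by
  induction j generalizing n with
  | zero => simp
  | succ j ih =>
    obtain ⟨m, rfl⟩ : ∃ m, n = m + 1 := ⟨n - 1, by omega⟩
    have hj : j ≤ m := by omega
    have h1 := ih m hj
    have h2 := Nat.add_one_mul_choose_eq m j
    rcases Nat.eq_zero_or_pos j with rfl | hj0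
    · simp
    · have h3 : (m + 1) ^ j ≤ m.choose j * (j + 1) ^ j := by
        have h4 : (m + 1) ^ j * j ^ j ≤ m.choose j * (j + 1) ^ j * j ^ j := by
          calc (m + 1) ^ j * j ^ j = ((m + 1) * j) ^ j := by rw [mul_pow]
            _ ≤ (m * (j + 1)) ^ j := Nat.pow_le_pow_left (by nlinarith) j
            _ = m ^ j * (j + 1) ^ j := by rw [mul_pow]
            _ ≤ (m.choose j * j ^ j) * (j + 1) ^ j := Nat.mul_le_mul_right _ h1
            _ = _ := by ring
        exact Nat.le_of_mul_le_mul_right h4 (by positivity)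
      calc (m + 1) ^ (j + 1) = (m + 1) * (m + 1) ^ j := by ring
        _ ≤ (m + 1) * (m.choose j * (j + 1) ^ j) := Nat.mul_le_mul_left _ h3
        _ = ((m + 1) * m.choose j) * (j + 1) ^ j := by ring
        _ = ((m + 1).choose (j + 1) * (j + 1)) * (j + 1) ^ j := by rw [h2]
        _ = _ := by ring

/-- `choose n j ≥ exp (j log (n / j))` -/
lemma exp_le_choose (n j : ℕ) (h1 : 1 ≤ j) (h : j ≤ n) :
    Real.exp (j * Real.log (n / j)) ≤ (n.choose j : ℝ) := by
  have hj : (0 : ℝ) < j := by exact_mod_cast h1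
  have hn : (0 : ℝ) < n := by exact_mod_cast (lt_of_lt_of_le h1 h)
  rw [Real.exp_nat_mul, Real.exp_log (by positivity), div_pow, div_le_iff₀ (by positivity)]
  exact_mod_cast pow_le_choose_mul n j h

end Pool.Agent.N381.LB
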