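import Mathlib
import Pool.Agent.N381.LB.Ra

/-!
N381/LB (helper381, MP_0430e4_lc): bounds for Krawtchouk functions of small degree.
-/

set_option autoImplicit false
set_option linter.unusedSectionVars false

namespace Pool.Agent.N381.LB

open Finset Matrix Pool.Agent.N381.LH Polynomial

variable {n s : ℕ}

/-- the sum of the signs -/
noncomputable def ss (x : Fin n → ZMod 2) : ℝ := (n : ℝ) - 2 * hammingNorm x

lemma ss_eq (x : Fin n → ZMod 2) : ∑ i, sg (x i) = ss x := by
  have h1 : ∀ i, sg (x i) = 1 - 2 * (if x i ≠ 0 then (1 : ℝ) else 0) := by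
    intro i
    rcases zmod2_cases (x i) with h | h
    · rw [h]; simp
    · rw [h, sg_one, if_pos zmod2_one_ne]; norm_num
  rw [Finset.sum_congr rfl fun i _ => h1 i, Finset.sum_sub_distrib, ← Finset.mul_sum,
    Finset.sum_boole, Finset.sum_const, Finset.card_univ, Fintype.card_fin, nsmul_eq_mul, mul_one]
  rfl

lemma ss_rad {x y : Fin n → ZMod 2} (h : hammingNorm x = hammingNorm y) : ss x = ss y := by
  unfold ss
  rw [h]

lemma Dom.coeff_le {p q : ℝ[X]} (h : Dom p q) {z : ℝ} (hz : 0 ≤ z) (j : ℕ) :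
    |p.coeff j| * z ^ j ≤ q.eval z := by
  have hnn : ∀ w, 0 ≤ q.coeff w := fun w => (abs_nonneg _).trans (h w)
  refine (mul_le_mul_of_nonneg_right (h j) (by positivity)).trans ?_
  rw [eval_eq_sum_range' (lt_of_lt_of_le (Nat.lt_succ_self _) (le_max_left _ (j + 1)) :
    q.natDegree < max (q.natDegree + 1) (j + 1))]
  exact Finset.single_le_sum (f := fun i => q.coeff i * z ^ i)
    (fun i _ => mul_nonneg (hnn i) (by positivity))
    (Finset.mem_range.2 (lt_of_lt_of_le (Nat.lt_succ_self j) (le_max_right _ _)))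

/-- **The pointwise bound.** -/
lemma Kr_le {z : ℝ} (hz : 0 ≤ z) (j : ℕ) (x : Fin n → ZMod 2) :
    |Kr j x| * z ^ j ≤ Real.exp (z ^ 2 * n / 2 + z * |ss x|) := by
  have key : ∀ (h r : ℕ) (q : ℝ[X]), 2 * h + r = n → (r : ℝ) = |ss x| →
      Dom (wp x) ((1 + X ^ 2) ^ h * (1 + X) ^ r) →
      |Kr j x| * z ^ j ≤ Real.exp (z ^ 2 * n / 2 + z * |ss x|) := by
    intro h r q hn hr hdom
    rw [Kr_eq]
    refine (Dom.coeff_le hdom hz j).trans ?_
    rw [eval_mul, eval_pow, eval_pow, eval_add, eval_add, eval_one, eval_pow, eval_X]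
    have e1 : (1 + z ^ 2) ^ h ≤ Real.exp (z ^ 2 * h) := by
      rw [mul_comm, Real.exp_nat_mul]
      refine pow_le_pow_left₀ (by positivity) ?_ h
      have := Real.add_one_le_exp (z ^ 2)
      linarith
    have e2 : (1 + z) ^ r ≤ Real.exp (z * r) := by
      rw [mul_comm, Real.exp_nat_mul]
      refine pow_le_pow_left₀ (by positivity) ?_ r
      have := Real.add_one_le_exp z
      linarith
    refine (mul_le_mul e1 e2 (by positivity) (by positivity)).trans ?_
    rw [← Real.exp_add, ← hr]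
    refine Real.exp_le_exp.2 ?_
    have hn' : (2 : ℝ) * h + r = n := by exact_mod_cast hn
    have : z ^ 2 * (2 * h) ≤ z ^ 2 * n := by
      refine mul_le_mul_of_nonneg_left ?_ (by positivity)
      have : (0 : ℝ) ≤ r := Nat.cast_nonneg r
      linarith
    linarith
  have hw := wt_le x
  rcases le_total (2 * hammingNorm x) n with h | h
  · refine key (hammingNorm x) (n - 2 * hammingNorm x) 0 (by omega) ?_ ?_
    · unfold ss
      rw [Nat.cast_sub h, abs_of_nonneg]
      · push_cast
        ring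
      · have : (2 : ℝ) * hammingNorm x ≤ n := by exact_mod_cast h
        linarith
    · have e1 : wp x = ((1 - X) * (1 + X)) ^ hammingNorm x * (1 + X) ^ (n - 2 * hammingNorm x) := by
        rw [wp_eq, mul_pow, mul_assoc, ← pow_add]
        congr 2
        omega
      rw [e1]
      exact (dom_sq.pow _).mul (dom_plus.pow _)
  · refine key (n - hammingNorm x) (2 * hammingNorm x - n) 0 (by omega) ?_ ?_
    · unfold ss
      rw [Nat.cast_sub h, abs_of_nonpos]
      · push_cast
        ring
      · have : (n : ℝ) ≤ 2 * hammingNorm x := by exact_mod_cast h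
        linarith
    · have e1 : wp x = ((1 - X) * (1 + X)) ^ (n - hammingNorm x) *
          (1 - X) ^ (2 * hammingNorm x - n) := by
        rw [wp_eq, mul_pow, mul_right_comm, ← pow_add]
        congr 2
        omega
      rw [e1]
      exact (dom_sq.pow _).mul (dom_minus.pow _)

/-! ### exponential moments -/

lemma exp_ss (l : ℝ) (x : Fin n → ZMod 2) :
    Real.exp (l * ss x) = Real.cosh l ^ n * syn (fun v => Real.tanh l ^ hammingNorm v) x := by
  have h1 := syn_pow 1 (Real.tanh l) x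
  simp only [one_mul] at h1
  rw [h1, ← ss_eq, Finset.mul_sum, Real.exp_sum]
  have h2 : Real.cosh l ^ n = ∏ _j : Fin n, Real.cosh l := by
    rw [Finset.prod_const, Finset.card_univ, Fintype.card_fin]
  rw [h2, ← Finset.prod_mul_distrib]
  refine Finset.prod_congr rfl fun i _ => ?_
  have hc := Real.cosh_pos l
  rw [Real.tanh_eq_sinh_div_cosh, mul_add, mul_one, ← mul_assoc, mul_div_cancel₀ _ hc.ne']
  rcases zmod2_cases (x i) with h | h
  · rw [h, sg_zero, mul_one, mul_one, Real.cosh_add_sinh]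
  · rw [h, sg_one, mul_neg_one, mul_neg_one, ← sub_eq_add_neg, Real.cosh_sub_sinh]

lemma gen_two' (z τ : ℝ) (v : Fin n → ZMod 2) :
    ∑ x : Fin n → ZMod 2, z ^ hammingNorm x * τ ^ hammingNorm (v + x) =
      (z + τ) ^ hammingNorm v * (1 + z * τ) ^ (n - hammingNorm v) := by
  have h1 : ∀ x : Fin n → ZMod 2, z ^ hammingNorm x * τ ^ hammingNorm (v + x) =
      ∏ i, ((if x i ≠ 0 then z else 1) * (if v i + x i ≠ 0 then τ else 1)) := by
    intro x
    rw [pow_wt, pow_wt, ← Finset.prod_mul_distrib]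
    rfl
  rw [Finset.sum_congr rfl fun x _ => h1 x,
    sum_prod_cube fun i a => (if a ≠ 0 then z else 1) * (if v i + a ≠ 0 then τ else 1)]
  have h2 : ∀ i, ((if (0 : ZMod 2) ≠ 0 then z else 1) * (if v i + 0 ≠ 0 then τ else 1) +
      (if (1 : ZMod 2) ≠ 0 then z else 1) * (if v i + 1 ≠ 0 then τ else 1)) =
      if v i ≠ 0 then z + τ else 1 + z * τ := by
    intro i
    have h11 : (1 : ZMod 2) + 1 = 0 := by decide
    rcases zmod2_cases (v i) with h | h
    · rw [h]
      simp [zmod2_one_ne]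
    · rw [h]
      simp [zmod2_one_ne, h11]
      ring
  rw [Finset.prod_congr rfl fun i _ => h2 i, Finset.prod_ite, Finset.prod_const, Finset.prod_const]
  have h3 : (univ.filter fun i => v i ≠ 0).card = hammingNorm v := rfl
  have h4 : (univ.filter fun i => ¬ v i ≠ 0).card = n - hammingNorm v := by
    have := Finset.card_filter_add_card_filter_not (s := (univ : Finset (Fin n))) (fun i => v i ≠ 0)
    rw [h3, Finset.card_univ, Fintype.card_fin] at this
    omega
  rw [h3, h4]

lemma sinh_le_mul_cosh {y : ℝ} (hy : 0 ≤ y) : Real.sinh y ≤ y * Real.cosh y := by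
  have h := Convex.norm_image_sub_le_of_norm_hasDerivWithin_le (f := Real.sinh) (f' := Real.cosh)
    (s := Set.Icc 0 y) (C := Real.cosh y) (x := 0) (y := y)
    (fun x _ => (Real.hasDerivAt_sinh x).hasDerivWithinAt) (fun x hx => ?_) (convex_Icc 0 y)
    ⟨le_rfl, hy⟩ ⟨hy, le_rfl⟩
  · rw [Real.sinh_zero, sub_zero, sub_zero, Real.norm_eq_abs, Real.norm_eq_abs,
      abs_of_nonneg hy] at h
    calc Real.sinh y ≤ |Real.sinh y| := le_abs_self _
      _ ≤ Real.cosh y * y := h
      _ = _ := mul_comm _ _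
  · rw [Real.norm_eq_abs, abs_of_pos (Real.cosh_pos x)]
    refine Real.cosh_le_cosh.2 ?_
    rw [abs_of_nonneg hx.1, abs_of_nonneg hy]
    exact hx.2

/-- the weighted second moment -/
lemma av_exp_Kr (l : ℝ) (hl : l ≠ 0) (j : ℕ) :
    av (fun x : Fin n → ZMod 2 => Real.exp (l * ss x) * Kr j x ^ 2) ≤
      Real.cosh l ^ n * ((n.choose j : ℝ) * (9 ^ j * Real.exp (n * l ^ 2 / 8))) := by
  obtain ⟨τ, hτ⟩ : ∃ τ, τ = Real.tanh l := ⟨_, rfl⟩
  have hτ0 : τ ≠ 0 := by
    rw [hτ, Real.tanh_eq_sinh_div_cosh]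
    exact div_ne_zero (Real.sinh_ne_zero.2 hl) (Real.cosh_pos l).ne'
  have hτ1 : 0 < |τ| := abs_pos.2 hτ0
  have hτ2 : |τ| ≤ |l| := by
    rw [hτ]
    have key : ∀ y : ℝ, 0 ≤ y → 0 ≤ Real.tanh y ∧ Real.tanh y ≤ y := by
      intro y hy
      have hc := Real.cosh_pos y
      have hs := Real.sinh_nonneg_iff.2 hy
      rw [Real.tanh_eq_sinh_div_cosh]
      refine ⟨by positivity, ?_⟩
      rw [div_le_iff₀ hc]
      exact sinh_le_mul_cosh hy
    rcases le_total 0 l with h | h
    · rw [abs_of_nonneg (key l h).1, abs_of_nonneg h]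
      exact (key l h).2
    · have h2 := key (-l) (by linarith)
      rw [Real.tanh_neg] at h2
      rw [abs_of_nonpos (by linarith [h2.1]), abs_of_nonpos h]
      exact h2.2
  have e1 : ∀ x : Fin n → ZMod 2, Real.exp (l * ss x) * Kr j x ^ 2 =
      Real.cosh l ^ n * ∑ v ∈ univ.filter (fun v : Fin n → ZMod 2 => hammingNorm v = j),
        ∑ w ∈ univ.filter (fun v : Fin n → ZMod 2 => hammingNorm v = j),
          syn (fun v => τ ^ hammingNorm v) x * sg (x ⬝ᵥ (v + w)) := by
    intro x
    have e2 : Kr j x = ∑ v ∈ univ.filter (fun v : Fin n → ZMod 2 => hammingNorm v = j),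
        sg (x ⬝ᵥ v) := by
      unfold Kr syn
      rw [Finset.sum_filter]
      refine Finset.sum_congr rfl fun v _ => ?_
      by_cases h : hammingNorm v = j
      · simp [h]
      · simp [h]
    rw [exp_ss, ← hτ, pow_two, e2, Finset.sum_mul_sum, mul_assoc, Finset.mul_sum]
    congr 1
    refine Finset.sum_congr rfl fun v _ => ?_
    rw [Finset.mul_sum]
    refine Finset.sum_congr rfl fun w _ => ?_
    rw [dotProduct_add, sg_add]
  simp_rw [e1]
  rw [av_mul_left]
  refine mul_le_mul_of_nonneg_left ?_ (pow_nonneg (Real.cosh_pos l).le n)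
  rw [av_sum, ← card_wt, ← nsmul_eq_mul, ← Finset.sum_const]
  refine Finset.sum_le_sum fun v hv => ?_
  have hvj : hammingNorm v = j := (Finset.mem_filter.1 hv).2
  rw [av_sum]
  have e3 : ∀ w : Fin n → ZMod 2, av (fun x => syn (fun v => τ ^ hammingNorm v) x *
      sg (x ⬝ᵥ (v + w))) = τ ^ hammingNorm (v + w) := fun w => co_syn _ (v + w)
  rw [Finset.sum_congr rfl fun w _ => e3 w]
  obtain ⟨z, hz⟩ : ∃ z, z = |τ| / 8 := ⟨_, rfl⟩
  have hz0 : 0 < z := by rw [hz]; positivity
  have e4 : (∑ w ∈ univ.filter (fun v : Fin n → ZMod 2 => hammingNorm v = j),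
      |τ| ^ hammingNorm (v + w)) * z ^ j ≤ (z + |τ|) ^ j * (1 + z * |τ|) ^ (n - j) := by
    rw [← hvj, ← gen_two' z |τ| v, hvj, Finset.sum_mul]
    refine le_trans (le_of_eq ?_) (Finset.sum_le_sum_of_subset_of_nonneg
      (Finset.filter_subset (fun v : Fin n → ZMod 2 => hammingNorm v = j) univ)
      fun w _ _ => by positivity)
    refine Finset.sum_congr rfl fun w hw => ?_
    rw [(Finset.mem_filter.1 hw).2, mul_comm]
  have e5 : z + |τ| = 9 * z := by rw [hz]; ring
  rw [e5, mul_pow, mul_right_comm] at e4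
  have e6 := le_of_mul_le_mul_right e4 (pow_pos hz0 j)
  refine (Finset.sum_le_sum fun w _ => ?_).trans (e6.trans (mul_le_mul_of_nonneg_left ?_
    (by positivity)))
  · calc τ ^ hammingNorm (v + w) ≤ |τ ^ hammingNorm (v + w)| := le_abs_self _
      _ = _ := abs_pow _ _
  · have e7 : 1 + z * |τ| ≤ Real.exp (l ^ 2 / 8) := by
      have h3 : z * |τ| ≤ l ^ 2 / 8 := by
        rw [hz, ← sq_abs l]
        have := mul_le_mul hτ2 hτ2 (abs_nonneg _) (abs_nonneg _)
        nlinarith
      have := Real.add_one_le_exp (l ^ 2 / 8)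
      linarith
    calc (1 + z * |τ|) ^ (n - j) ≤ (1 + z * |τ|) ^ n :=
          pow_le_pow_right₀ (by have := mul_pos hz0 hτ1; linarith) (Nat.sub_le _ _)
      _ ≤ Real.exp (l ^ 2 / 8) ^ n := pow_le_pow_left₀ (by positivity) e7 n
      _ = _ := by
        rw [← Real.exp_nat_mul]
        congr 1
        ring

open Classical in
/-- **The mass of `K_j ^ 2` far from the middle.** -/
lemma tail_Kr {l : ℝ} (hl : 0 < l) (t : ℝ) (j : ℕ) :
    av (fun x : Fin n → ZMod 2 => if t < |ss x| then Kr j x ^ 2 else 0) ≤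
      (n.choose j : ℝ) * (2 * Real.exp (5 / 8 * (n * l ^ 2) - l * t) * 9 ^ j) := by
  have h1 : ∀ x : Fin n → ZMod 2, (if t < |ss x| then Kr j x ^ 2 else 0) ≤
      Real.exp (-(l * t)) * (Real.exp (l * ss x) * Kr j x ^ 2) +
        Real.exp (-(l * t)) * (Real.exp (-l * ss x) * Kr j x ^ 2) := by
    intro x
    have h2 : 0 ≤ Kr j x ^ 2 := sq_nonneg _
    split_ifs with h
    · rcases le_total 0 (ss x) with h0 | h0
      · rw [abs_of_nonneg h0] at h
        have h3 : 1 ≤ Real.exp (-(l * t)) * Real.exp (l * ss x) := by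
          rw [← Real.exp_add]
          refine Real.one_le_exp ?_
          nlinarith
        have h4 : 0 ≤ Real.exp (-(l * t)) * (Real.exp (-l * ss x) * Kr j x ^ 2) := by positivity
        nlinarith
      · rw [abs_of_nonpos h0] at h
        have h3 : 1 ≤ Real.exp (-(l * t)) * Real.exp (-l * ss x) := by
          rw [← Real.exp_add]
          refine Real.one_le_exp ?_
          nlinarith
        have h4 : 0 ≤ Real.exp (-(l * t)) * (Real.exp (l * ss x) * Kr j x ^ 2) := by positivity
        nlinarith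
    · positivity
  refine (av_mono h1).trans ?_
  rw [av_add, av_mul_left, av_mul_left]
  have h2 := av_exp_Kr (n := n) l hl.ne' j
  have h3 := av_exp_Kr (n := n) (-l) (neg_ne_zero.2 hl.ne') j
  rw [Real.cosh_neg, neg_sq] at h3
  have h4 : Real.cosh l ^ n ≤ Real.exp (n * (l ^ 2 / 2)) := by
    rw [Real.exp_nat_mul]
    exact pow_le_pow_left₀ (Real.cosh_pos l).le (Real.cosh_le_exp_half_sq l) n
  have h5 : Real.cosh l ^ n * ((n.choose j : ℝ) * (9 ^ j * Real.exp (n * l ^ 2 / 8))) ≤
      (n.choose j : ℝ) * (Real.exp (5 / 8 * (n * l ^ 2)) * 9 ^ j) := by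
    calc Real.cosh l ^ n * ((n.choose j : ℝ) * (9 ^ j * Real.exp (n * l ^ 2 / 8))) ≤
        Real.exp (n * (l ^ 2 / 2)) * ((n.choose j : ℝ) * (9 ^ j * Real.exp (n * l ^ 2 / 8))) :=
          mul_le_mul_of_nonneg_right h4 (by positivity)
      _ = (n.choose j : ℝ) * ((Real.exp (n * (l ^ 2 / 2)) * Real.exp (n * l ^ 2 / 8)) * 9 ^ j) := by
          ring
      _ = _ := by
          rw [← Real.exp_add]
          congr 3
          ring_nf
  have h6 : Real.exp (5 / 8 * (n * l ^ 2) - l * t) =
      Real.exp (-(l * t)) * Real.exp (5 / 8 * (n * l ^ 2)) := by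
    rw [← Real.exp_add]
    congr 1
    ring
  have h7 : 0 < Real.exp (-(l * t)) := Real.exp_pos _
  calc Real.exp (-(l * t)) * av (fun x : Fin n → ZMod 2 => Real.exp (l * ss x) * Kr j x ^ 2) +
        Real.exp (-(l * t)) * av (fun x : Fin n → ZMod 2 => Real.exp (-l * ss x) * Kr j x ^ 2) ≤
      Real.exp (-(l * t)) * ((n.choose j : ℝ) * (Real.exp (5 / 8 * (n * l ^ 2)) * 9 ^ j)) +
      Real.exp (-(l * t)) * ((n.choose j : ℝ) * (Real.exp (5 / 8 * (n * l ^ 2)) * 9 ^ j)) :=
        add_le_add (mul_le_mul_of_nonneg_left (h2.trans h5) h7.le)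
          (mul_le_mul_of_nonneg_left (h3.trans h5) h7.le)
    _ = _ := by
        rw [h6]
        ring

open Classical in
/-- Hoeffding's inequality. -/
lemma tail_one {l : ℝ} (hl : 0 < l) (t : ℝ) :
    av (fun x : Fin n → ZMod 2 => if t < |ss x| then (1 : ℝ) else 0) ≤
      2 * Real.exp (n * l ^ 2 / 2 - l * t) := by
  have hexp : ∀ l : ℝ, av (fun x : Fin n → ZMod 2 => Real.exp (l * ss x)) = Real.cosh l ^ n := by
    intro l
    simp_rw [exp_ss]
    rw [av_mul_left]
    have h := co_syn (fun v : Fin n → ZMod 2 => Real.tanh l ^ hammingNorm v) 0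
    unfold co at h
    simp only [dotProduct_zero, sg_zero, mul_one, hammingNorm_zero, pow_zero] at h
    have h' : av (fun x : Fin n → ZMod 2 => syn (fun v => Real.tanh l ^ hammingNorm v) x) = 1 := h
    rw [h', mul_one]
  have h1 : ∀ x : Fin n → ZMod 2, (if t < |ss x| then (1 : ℝ) else 0) ≤
      Real.exp (-(l * t)) * Real.exp (l * ss x) + Real.exp (-(l * t)) * Real.exp (-l * ss x) := by
    intro x
    split_ifs with h
    · rcases le_total 0 (ss x) with h0 | h0
      · rw [abs_of_nonneg h0] at h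
        have h3 : 1 ≤ Real.exp (-(l * t)) * Real.exp (l * ss x) := by
          rw [← Real.exp_add]
          refine Real.one_le_exp ?_
          nlinarith
        have h4 : 0 ≤ Real.exp (-(l * t)) * Real.exp (-l * ss x) := by positivity
        linarith
      · rw [abs_of_nonpos h0] at h
        have h3 : 1 ≤ Real.exp (-(l * t)) * Real.exp (-l * ss x) := by
          rw [← Real.exp_add]
          refine Real.one_le_exp ?_
          nlinarith
        have h4 : 0 ≤ Real.exp (-(l * t)) * Real.exp (l * ss x) := by positivity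
        linarith
    · positivity
  refine (av_mono h1).trans ?_
  rw [av_add, av_mul_left, av_mul_left, hexp, hexp, Real.cosh_neg]
  have h4 : Real.cosh l ^ n ≤ Real.exp (n * (l ^ 2 / 2)) := by
    rw [Real.exp_nat_mul]
    exact pow_le_pow_left₀ (Real.cosh_pos l).le (Real.cosh_le_exp_half_sq l) n
  calc Real.exp (-(l * t)) * Real.cosh l ^ n + Real.exp (-(l * t)) * Real.cosh l ^ n =
      2 * (Real.exp (-(l * t)) * Real.cosh l ^ n) := by ring
    _ ≤ 2 * (Real.exp (-(l * t)) * Real.exp (n * (l ^ 2 / 2))) := by gcongr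
    _ = _ := by
        rw [← Real.exp_add]
        congr 2
        ring

end Pool.Agent.N381.LB
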