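import Mathlib
import Pool.Agent.N381.LB.Kb

/-!
N381/LB (helper381, MP_0430e4_lc): the band-limited cutoff.
-/

set_option autoImplicit false
set_option linter.unusedSectionVars false

namespace Pool.Agent.N381.LB

open Finset Matrix Pool.Agent.N381.LH

variable {n s : ℕ}

/-- the sum of the signs, as an integer -/
def si (x : Fin n → ZMod 2) : ℤ := (n : ℤ) - 2 * (hammingNorm x : ℤ)

lemma si_cast (x : Fin n → ZMod 2) : ((si x : ℤ) : ℝ) = ss x := by
  unfold si ss
  push_cast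
  ring

/-- the kernel -/
noncomputable def KF (P k : ℕ) (a : ℤ) : ℝ := Real.cos (Real.pi * a / P) ^ (2 * k)

lemma KF_nonneg (P k : ℕ) (a : ℤ) : 0 ≤ KF P k a := by
  unfold KF
  rw [pow_mul]
  positivity

lemma KF_zero (P k : ℕ) : KF P k 0 = 1 := by
  unfold KF
  simp

lemma KF_neg (P k : ℕ) (a : ℤ) : KF P k (-a) = KF P k a := by
  unfold KF
  congr 1
  rw [← Real.cos_neg]
  congr 1
  push_cast
  ring

lemma KF_add {P : ℕ} (hP : 0 < P) (k : ℕ) (a : ℤ) : KF P k (a + P) = KF P k a := by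
  unfold KF
  have hP' : (P : ℝ) ≠ 0 := by exact_mod_cast hP.ne'
  have h1 : Real.pi * ((a + P : ℤ) : ℝ) / P = Real.pi * a / P + Real.pi := by
    push_cast
    field_simp
  rw [h1, Real.cos_add_pi, pow_mul, pow_mul, neg_sq]

/-- decay -/
lemma KF_decay {P : ℕ} (hP : 0 < P) (k : ℕ) {w : ℝ} (hw : 0 ≤ w) (a : ℤ) (h1 : w ≤ |(a : ℝ)|)
    (h2 : |(a : ℝ)| ≤ P - w) : KF P k a ≤ Real.exp (-(4 * k * w ^ 2 / P ^ 2)) := by
  have hP' : (0 : ℝ) < P := by exact_mod_cast hP
  have hpi := Real.pi_pos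
  have key : 2 * w / P ≤ |Real.sin (Real.pi * a / P)| := by
    have e1 : |Real.sin (Real.pi * a / P)| = |Real.sin (Real.pi * |(a : ℝ)| / P)| := by
      rcases abs_cases (a : ℝ) with ⟨h, _⟩ | ⟨h, _⟩
      · rw [h]
      · rw [h, mul_neg, neg_div, Real.sin_neg, abs_neg]
    rw [e1]
    refine le_trans ?_ (le_abs_self _)
    rcases le_total (|(a : ℝ)|) (P / 2) with h | h
    · have h3 := Real.mul_le_sin (x := Real.pi * |(a : ℝ)| / P) (by positivity) (by
        rw [div_le_iff₀ hP']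
        nlinarith)
      refine le_trans (le_of_eq_of_le ?_ ((div_le_div_of_nonneg_right
        (mul_le_mul_of_nonneg_left h1 (by norm_num : (0 : ℝ) ≤ 2)) hP'.le))) (le_trans (le_of_eq ?_) h3)
      · rfl
      · field_simp
    · have h4 : Real.sin (Real.pi * |(a : ℝ)| / P) = Real.sin (Real.pi * (P - |(a : ℝ)|) / P) := by
        rw [← Real.sin_pi_sub]
        congr 1
        field_simp
      rw [h4]
      have h3 := Real.mul_le_sin (x := Real.pi * (P - |(a : ℝ)|) / P) (by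
        have : 0 ≤ P - |(a : ℝ)| := by linarith
        positivity) (by
        rw [div_le_iff₀ hP']
        nlinarith)
      refine le_trans ?_ (le_trans (le_of_eq ?_) h3) (b := 2 * (P - |(a : ℝ)|) / P)
      · refine div_le_div_of_nonneg_right ?_ hP'.le
        linarith
      · field_simp
  have h3 : Real.cos (Real.pi * a / P) ^ 2 ≤ Real.exp (-(4 * w ^ 2 / P ^ 2)) := by
    have h4 := Real.sin_sq_add_cos_sq (Real.pi * a / P)
    have h5 : (2 * w / P) ^ 2 ≤ Real.sin (Real.pi * a / P) ^ 2 := by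
      rw [← sq_abs (Real.sin _)]
      exact pow_le_pow_left₀ (by positivity) key 2
    have h6 : (2 * w / P) ^ 2 = 4 * w ^ 2 / P ^ 2 := by
      rw [div_pow]
      ring
    have h7 := Real.add_one_le_exp (-(4 * w ^ 2 / P ^ 2))
    linarith
  unfold KF
  rw [pow_mul]
  refine (pow_le_pow_left₀ (sq_nonneg _) h3 k).trans (le_of_eq ?_)
  rw [← Real.exp_nat_mul]
  congr 1
  ring

/-- sums over a period -/
noncomputable def KZ (P k : ℕ) : ℝ := ∑ i ∈ range P, KF P k i

lemma KZ_shift {P : ℕ} (hP : 0 < P) (k : ℕ) (a : ℤ) :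
    ∑ i ∈ range P, KF P k (a + i) = KZ P k := by
  have h1 : ∀ a : ℤ, ∑ i ∈ range P, KF P k (a + 1 + i) = ∑ i ∈ range P, KF P k (a + i) := by
    intro a
    have h2 := Finset.sum_range_succ (fun i : ℕ => KF P k (a + i)) P
    have h3 := Finset.sum_range_succ' (fun i : ℕ => KF P k (a + i)) P
    rw [h3, KF_add hP, Nat.cast_zero, add_zero] at h2
    have h4 := add_right_cancel h2
    rw [← h4]
    refine Finset.sum_congr rfl fun i _ => ?_
    congr 1
    push_cast
    ring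
  have h2 : ∀ a : ℤ, ∑ i ∈ range P, KF P k (a + i) = ∑ i ∈ range P, KF P k (0 + i) := by
    intro a
    induction a using Int.induction_on with
    | zero => rfl
    | succ j ih => rw [h1, ih]
    | pred j ih =>
      rw [← ih, ← h1]
      refine Finset.sum_congr rfl fun i _ => ?_
      congr 1
      ring
  rw [h2]
  unfold KZ
  simp

lemma one_le_KZ {P : ℕ} (hP : 0 < P) (k : ℕ) : 1 ≤ KZ P k := by
  unfold KZ
  have h := Finset.single_le_sum (f := fun i : ℕ => KF P k i) (fun i _ => KF_nonneg P k i)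
    (Finset.mem_range.2 hP)
  simpa [KF_zero] using h

/-- the cutoff -/
noncomputable def ph (P k R : ℕ) (x : Fin n → ZMod 2) : ℝ :=
  (∑ i ∈ range (2 * R + 1), KF P k (si x - R + i)) / KZ P k

lemma ph_nonneg {P : ℕ} (hP : 0 < P) (k R : ℕ) (x : Fin n → ZMod 2) : 0 ≤ ph P k R x :=
  div_nonneg (Finset.sum_nonneg fun _ _ => KF_nonneg P k _)
    (zero_le_one.trans (one_le_KZ hP k))

lemma one_sub_ph {P : ℕ} (hP : 0 < P) (k : ℕ) {R : ℕ} (hR : 2 * R + 1 ≤ P)
    (x : Fin n → ZMod 2) :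
    1 - ph P k R x = (∑ i ∈ Ico (2 * R + 1) P, KF P k (si x - R + i)) / KZ P k := by
  have hZ : KZ P k ≠ 0 := (zero_lt_one.trans_le (one_le_KZ hP k)).ne'
  unfold ph
  rw [eq_div_iff hZ, sub_mul, one_mul, div_mul_cancel₀ _ hZ, ← KZ_shift hP k (si x - R),
    ← Finset.sum_range_add_sum_Ico _ hR]
  ring

lemma ph_le_one {P : ℕ} (hP : 0 < P) (k : ℕ) {R : ℕ} (hR : 2 * R + 1 ≤ P)
    (x : Fin n → ZMod 2) : ph P k R x ≤ 1 := by
  have h1 := one_sub_ph hP k hR x
  have h2 : 0 ≤ (∑ i ∈ Ico (2 * R + 1) P, KF P k (si x - R + i)) / KZ P k :=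
    div_nonneg (Finset.sum_nonneg fun _ _ => KF_nonneg P k _)
      (zero_le_one.trans (one_le_KZ hP k))
  linarith

lemma ph_near {P : ℕ} (hP : 0 < P) (k : ℕ) {R : ℕ} (hR : 2 * R + 1 ≤ P) {w : ℝ} (hw : 0 ≤ w)
    (x : Fin n → ZMod 2) (hx : |ss x| ≤ R - w) :
    1 - ph P k R x ≤ P * Real.exp (-(4 * k * w ^ 2 / P ^ 2)) := by
  rw [one_sub_ph hP k hR]
  have hZ := one_le_KZ hP k
  have h1 : ∀ i ∈ Ico (2 * R + 1) P, KF P k (si x - R + i) ≤
      Real.exp (-(4 * k * w ^ 2 / P ^ 2)) := by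
    intro i hi
    obtain ⟨hi1, hi2⟩ := Finset.mem_Ico.1 hi
    have a1 : (2 * R + 1 : ℝ) ≤ i := by exact_mod_cast hi1
    have a2 : (i : ℝ) + 1 ≤ P := by exact_mod_cast hi2
    obtain ⟨b1, b2⟩ := abs_le.1 hx
    have e : (((si x - R + i : ℤ)) : ℝ) = ss x - R + i := by
      push_cast
      rw [si_cast]
    refine KF_decay hP k hw _ ?_ ?_
    · rw [e]
      refine le_trans ?_ (le_abs_self _)
      linarith
    · rw [e, abs_le]
      constructor <;> linarith
  have h2 : (∑ i ∈ Ico (2 * R + 1) P, KF P k (si x - R + i)) ≤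
      P * Real.exp (-(4 * k * w ^ 2 / P ^ 2)) := by
    refine (Finset.sum_le_sum h1).trans ?_
    rw [Finset.sum_const, nsmul_eq_mul, Nat.card_Ico]
    refine mul_le_mul_of_nonneg_right ?_ (Real.exp_pos _).le
    exact_mod_cast Nat.sub_le _ _
  refine (div_le_self (Finset.sum_nonneg fun _ _ => KF_nonneg P k _) hZ).trans h2

lemma ph_far {P : ℕ} (hP : 0 < P) (k : ℕ) {R : ℕ} (hR : 2 * R + 1 ≤ P) {w : ℝ} (hw : 0 ≤ w)
    (x : Fin n → ZMod 2) (hx : R + w ≤ |ss x|) (hx2 : |ss x| ≤ P - R - w) :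
    ph P k R x ≤ P * Real.exp (-(4 * k * w ^ 2 / P ^ 2)) := by
  unfold ph
  have hZ := one_le_KZ hP k
  have h1 : ∀ i ∈ range (2 * R + 1), KF P k (si x - R + i) ≤
      Real.exp (-(4 * k * w ^ 2 / P ^ 2)) := by
    intro i hi
    have hi1 := Finset.mem_range.1 hi
    have a1 : (i : ℝ) ≤ 2 * R := by exact_mod_cast Nat.lt_succ_iff.1 hi1
    have a2 : (0 : ℝ) ≤ i := Nat.cast_nonneg i
    have e : (((si x - R + i : ℤ)) : ℝ) = ss x - R + i := by
      push_cast
      rw [si_cast]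
    refine KF_decay hP k hw _ ?_ ?_
    · rw [e]
      rcases abs_cases (ss x) with ⟨h, _⟩ | ⟨h, _⟩
      · rw [h] at hx
        refine le_trans ?_ (le_abs_self _)
        linarith
      · rw [h] at hx
        refine le_trans ?_ (neg_le_abs _)
        linarith
    · rw [e, abs_le]
      obtain ⟨b1, b2⟩ := abs_le.1 hx2
      constructor <;> linarith
  have h2 : (∑ i ∈ range (2 * R + 1), KF P k (si x - R + i)) ≤
      P * Real.exp (-(4 * k * w ^ 2 / P ^ 2)) := by
    refine (Finset.sum_le_sum h1).trans ?_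
    rw [Finset.sum_const, nsmul_eq_mul, Finset.card_range]
    refine mul_le_mul_of_nonneg_right ?_ (Real.exp_pos _).le
    exact_mod_cast hR
  refine (div_le_self (Finset.sum_nonneg fun _ _ => KF_nonneg P k _) hZ).trans h2

lemma ph_rad (P k R : ℕ) : Rad (ph (n := n) P k R) := by
  intro x y h
  unfold ph si
  rw [h]

/-! ### Fourier coefficients -/

open Complex in
lemma sum_exp_ss (θ : ℝ) (v : Fin n → ZMod 2) :
    ‖∑ x : Fin n → ZMod 2, Complex.exp (θ * ss x * I) * ((sg (x ⬝ᵥ v) : ℝ) : ℂ)‖ ≤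
      2 ^ n * |θ| ^ hammingNorm v := by
  have h1 : ∀ x : Fin n → ZMod 2, Complex.exp (θ * ss x * I) * ((sg (x ⬝ᵥ v) : ℝ) : ℂ) =
      ∏ i, (Complex.exp (θ * (sg (x i) : ℝ) * I) * ((sg (x i * v i) : ℝ) : ℂ)) := by
    intro x
    rw [Finset.prod_mul_distrib, ← Complex.exp_sum, ← Finset.sum_mul, ← Finset.mul_sum,
      ← Complex.ofReal_sum, ss_eq, ← Complex.ofReal_prod, ← sg_sum]
    rfl
  rw [Finset.sum_congr rfl fun x _ => h1 x,
    sum_prod_cube fun i a => Complex.exp (θ * (sg a : ℝ) * I) * ((sg (a * v i) : ℝ) : ℂ),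
    norm_prod]
  have h2 : ∀ i : Fin n, ‖Complex.exp (θ * (sg 0 : ℝ) * I) * ((sg (0 * v i) : ℝ) : ℂ) +
      Complex.exp (θ * (sg 1 : ℝ) * I) * ((sg (1 * v i) : ℝ) : ℂ)‖ ≤
      2 * (if v i ≠ 0 then |θ| else 1) := by
    intro i
    rw [zero_mul, one_mul, sg_zero, sg_one]
    push_cast
    rw [mul_one, mul_one, mul_neg_one]
    rcases zmod2_cases (v i) with h | h
    · rw [h, sg_zero, if_neg (by simp)]
      push_cast
      rw [mul_one, mul_one]
      refine (norm_add_le _ _).trans ?_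
      have e1 : ‖Complex.exp (θ * I)‖ = 1 := Complex.norm_exp_ofReal_mul_I θ
      have e2 : ‖Complex.exp (-θ * I)‖ = 1 := by
        have := Complex.norm_exp_ofReal_mul_I (-θ)
        push_cast at this
        exact this
      rw [e1, e2]
      norm_num
    · rw [h, sg_one, if_pos (by decide)]
      push_cast
      have e1 : Complex.exp (θ * I) + Complex.exp (-θ * I) * -1 = 2 * (Complex.sin θ * I) := by
        rw [Complex.sin]
        linear_combination (Complex.exp (θ * I) - Complex.exp (-θ * I)) * Complex.I_sq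
      rw [e1, norm_mul, norm_mul, Complex.norm_I, mul_one, Complex.norm_ofNat,
        ← Complex.ofReal_sin, Complex.norm_real, Real.norm_eq_abs]
      exact mul_le_mul_of_nonneg_left Real.abs_sin_le_abs (by norm_num)
  refine (Finset.prod_le_prod (fun i _ => norm_nonneg _) fun i _ => h2 i).trans (le_of_eq ?_)
  rw [Finset.prod_mul_distrib, Finset.prod_const, Finset.card_univ, Fintype.card_fin, ← pow_wt]

lemma cos_pow_expand (y : ℝ) (k : ℕ) :
    ((Real.cos y ^ (2 * k) : ℝ) : ℂ) = ∑ m ∈ range (2 * k + 1),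
      (((2 * k).choose m : ℝ) / 4 ^ k : ℝ) * Complex.exp (y * ((2 : ℝ) * m - 2 * k : ℝ) * Complex.I) := by
  push_cast
  rw [Complex.cos, div_pow, add_pow, Finset.sum_div]
  refine Finset.sum_congr rfl fun m hm => ?_
  have hm' : m ≤ 2 * k := Nat.lt_succ_iff.1 (Finset.mem_range.1 hm)
  rw [← Complex.exp_nat_mul, ← Complex.exp_nat_mul, ← Complex.exp_add]
  have e1 : (2 : ℂ) ^ (2 * k) = 4 ^ k := by
    rw [pow_mul]
    norm_num
  have e2 : (m : ℂ) * (y * Complex.I) + ((2 * k - m : ℕ) : ℂ) * (-y * Complex.I) =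
      y * (2 * m - 2 * k) * Complex.I := by
    rw [Nat.cast_sub hm']
    push_cast
    ring
  rw [e1, e2]
  ring

lemma co_KF {P : ℕ} (hP : 0 < P) (k : ℕ) (b : ℤ) (v : Fin n → ZMod 2) :
    |co (fun x => KF P k (si x - b)) v| ≤ (2 * Real.pi * k / P) ^ hammingNorm v := by
  have hP' : (0 : ℝ) < P := by exact_mod_cast hP
  have hpi := Real.pi_pos
  obtain ⟨θ, hθ⟩ : ∃ θ : ℕ → ℝ, θ = fun m : ℕ => Real.pi / P * (2 * m - 2 * k) := ⟨_, rfl⟩
  have hθ1 : ∀ m ∈ range (2 * k + 1), |θ m| ≤ 2 * Real.pi * k / P := by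
    intro m hm
    have hm' : m ≤ 2 * k := Nat.lt_succ_iff.1 (Finset.mem_range.1 hm)
    have hm2 : (m : ℝ) ≤ 2 * k := by exact_mod_cast hm'
    have hm0 : (0 : ℝ) ≤ m := Nat.cast_nonneg m
    rw [hθ]
    simp only
    rw [abs_mul, abs_of_pos (by positivity : 0 < Real.pi / P)]
    have h3 : |(2 : ℝ) * m - 2 * k| ≤ 2 * k := by
      rw [abs_le]
      constructor <;> linarith
    calc Real.pi / P * |(2 : ℝ) * m - 2 * k| ≤ Real.pi / P * (2 * k) :=
          mul_le_mul_of_nonneg_left h3 (by positivity)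
      _ = _ := by ring
  have h1 : ((co (fun x => KF P k (si x - b)) v : ℝ) : ℂ) = ((2 : ℂ) ^ n)⁻¹ *
      ∑ m ∈ range (2 * k + 1), ((((2 * k).choose m : ℝ) / 4 ^ k : ℝ) : ℂ) *
        Complex.exp (-(θ m * b) * Complex.I) *
        ∑ x : Fin n → ZMod 2, Complex.exp (θ m * ss x * Complex.I) * ((sg (x ⬝ᵥ v) : ℝ) : ℂ) := by
    unfold co av
    push_cast
    congr 1
    have h2 : ∀ x : Fin n → ZMod 2, ((KF P k (si x - b) : ℝ) : ℂ) * ((sg (x ⬝ᵥ v) : ℝ) : ℂ) =
        ∑ m ∈ range (2 * k + 1), ((((2 * k).choose m : ℝ) / 4 ^ k : ℝ) : ℂ) *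
          Complex.exp (-(θ m * b) * Complex.I) *
          (Complex.exp (θ m * ss x * Complex.I) * ((sg (x ⬝ᵥ v) : ℝ) : ℂ)) := by
      intro x
      unfold KF
      rw [cos_pow_expand, Finset.sum_mul]
      refine Finset.sum_congr rfl fun m _ => ?_
      rw [mul_assoc, mul_assoc (((((2 * k).choose m : ℝ) / 4 ^ k : ℝ) : ℂ)), ← mul_assoc
        (Complex.exp (-(θ m * b) * Complex.I)), ← Complex.exp_add]
      congr 3
      rw [hθ]
      push_cast
      rw [← si_cast]
      push_cast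
      ring
    rw [Finset.sum_congr rfl fun x _ => h2 x, Finset.sum_comm]
    refine Finset.sum_congr rfl fun m _ => ?_
    rw [← Finset.mul_sum]
    push_cast
    rfl
  have h3 : |co (fun x => KF P k (si x - b)) v| = ‖((co (fun x => KF P k (si x - b)) v : ℝ) : ℂ)‖ := by
    rw [Complex.norm_real, Real.norm_eq_abs]
  rw [h3, h1, norm_mul, norm_inv, norm_pow, Complex.norm_ofNat]
  have h4 : ‖∑ m ∈ range (2 * k + 1), ((((2 * k).choose m : ℝ) / 4 ^ k : ℝ) : ℂ) *
        Complex.exp (-(θ m * b) * Complex.I) *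
        ∑ x : Fin n → ZMod 2, Complex.exp (θ m * ss x * Complex.I) * ((sg (x ⬝ᵥ v) : ℝ) : ℂ)‖ ≤
      2 ^ n * (2 * Real.pi * k / P) ^ hammingNorm v := by
    refine (norm_sum_le _ _).trans ?_
    have h5 : ∀ m ∈ range (2 * k + 1), ‖((((2 * k).choose m : ℝ) / 4 ^ k : ℝ) : ℂ) *
        Complex.exp (-(θ m * b) * Complex.I) *
        ∑ x : Fin n → ZMod 2, Complex.exp (θ m * ss x * Complex.I) * ((sg (x ⬝ᵥ v) : ℝ) : ℂ)‖ ≤
        ((2 * k).choose m : ℝ) / 4 ^ k * (2 ^ n * (2 * Real.pi * k / P) ^ hammingNorm v) := by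
      intro m hm
      rw [norm_mul, norm_mul, Complex.norm_real, Real.norm_eq_abs, abs_of_nonneg (by positivity)]
      have e1 : ‖Complex.exp (-(θ m * b) * Complex.I)‖ = 1 := by
        have := Complex.norm_exp_ofReal_mul_I (-(θ m * b))
        push_cast at this
        exact this
      rw [e1, mul_one]
      refine mul_le_mul_of_nonneg_left ?_ (by positivity)
      refine (sum_exp_ss (θ m) v).trans (mul_le_mul_of_nonneg_left ?_ (by positivity))
      exact pow_le_pow_left₀ (abs_nonneg _) (hθ1 m hm) _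
    refine (Finset.sum_le_sum h5).trans (le_of_eq ?_)
    rw [← Finset.sum_mul, ← Finset.sum_div]
    have h6 : ∑ m ∈ range (2 * k + 1), ((2 * k).choose m : ℝ) = 4 ^ k := by
      have := Nat.sum_range_choose (2 * k)
      have h7 : ((∑ m ∈ range (2 * k + 1), (2 * k).choose m : ℕ) : ℝ) = ((2 ^ (2 * k) : ℕ) : ℝ) := by
        rw [this]
      push_cast at h7
      rw [h7, pow_mul]
      norm_num
    rw [h6, div_self (by positivity), one_mul]
  calc ((2 : ℝ) ^ n)⁻¹ * _ ≤ ((2 : ℝ) ^ n)⁻¹ * (2 ^ n * (2 * Real.pi * k / P) ^ hammingNorm v) :=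
        mul_le_mul_of_nonneg_left h4 (by positivity)
    _ = _ := by field_simp

lemma co_ph {P : ℕ} (hP : 0 < P) (k : ℕ) {R : ℕ} (hR : 2 * R + 1 ≤ P) (v : Fin n → ZMod 2) :
    |co (ph P k R) v| ≤ P * (2 * Real.pi * k / P) ^ hammingNorm v := by
  have hZ := one_le_KZ hP k
  have hZ0 : 0 < KZ P k := zero_lt_one.trans_le hZ
  have h1 : co (ph P k R) v = (KZ P k)⁻¹ * ∑ i ∈ range (2 * R + 1),
      co (fun x => KF P k (si x - ((R : ℤ) - i))) v := by
    have h2 : (fun x : Fin n → ZMod 2 => ph P k R x * sg (x ⬝ᵥ v)) = fun x => (KZ P k)⁻¹ *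
        ∑ i ∈ range (2 * R + 1), KF P k (si x - ((R : ℤ) - i)) * sg (x ⬝ᵥ v) := by
      funext x
      unfold ph
      rw [div_eq_inv_mul, mul_assoc, Finset.sum_mul]
      congr 1
      refine Finset.sum_congr rfl fun i _ => ?_
      congr 2
      ring
    unfold co
    rw [h2, av_mul_left, av_sum]
  have hP' : (0 : ℝ) < P := by exact_mod_cast hP
  have hpi := Real.pi_pos
  rw [h1, abs_mul, abs_of_pos (inv_pos.2 hZ0)]
  have h3 : |∑ i ∈ range (2 * R + 1), co (fun x => KF P k (si x - ((R : ℤ) - i))) v| ≤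
      P * (2 * Real.pi * k / P) ^ hammingNorm v := by
    refine (Finset.abs_sum_le_sum_abs _ _).trans ((Finset.sum_le_sum fun i _ =>
      co_KF hP k _ v).trans ?_)
    rw [Finset.sum_const, nsmul_eq_mul, Finset.card_range]
    refine mul_le_mul_of_nonneg_right ?_ (by positivity)
    exact_mod_cast hR
  calc (KZ P k)⁻¹ * _ ≤ 1 * (P * (2 * Real.pi * k / P) ^ hammingNorm v) :=
        mul_le_mul (inv_le_one_of_one_le₀ hZ) h3 (abs_nonneg _) zero_le_one
    _ = _ := one_mul _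

end Pool.Agent.N381.LB
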