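import Mathlib
import Pool.Agent.N381.LB.Ke

/-!
N381/LB (helper381, MP_0430e4_lc): truncation and the correction which removes the low degrees.
-/

set_option autoImplicit false
set_option linter.unusedSectionVars false

namespace Pool.Agent.N381.LB

open Finset Matrix Pool.Agent.N381.LH

variable {n s : ℕ}

lemma syn_eq_co (c : (Fin n → ZMod 2) → ℝ) (x : Fin n → ZMod 2) : syn c x = 2 ^ n * co c x := by
  unfold syn co av
  rw [← mul_assoc, mul_inv_cancel₀ (by positivity), one_mul]
  exact Finset.sum_congr rfl fun v _ => by rw [dotProduct_comm]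

lemma syn_rad {c : (Fin n → ZMod 2) → ℝ} (hc : Rad c) : Rad (syn c) := by
  intro x y h
  rw [syn_eq_co, syn_eq_co, rad_coeff hc x y h]

/-- truncation -/
noncomputable def tr (f : (Fin n → ZMod 2) → ℝ) (D : ℕ) : (Fin n → ZMod 2) → ℝ :=
  syn fun v => if hammingNorm v ≤ D then co f v else 0

lemma tr_rad {f : (Fin n → ZMod 2) → ℝ} (hf : Rad f) (D : ℕ) : Rad (tr f D) := by
  refine syn_rad ?_
  intro v w h
  simp only [h, rad_coeff hf v w h]

lemma tr_err {f : (Fin n → ZMod 2) → ℝ} {C μ : ℝ} (hC : 0 ≤ C) (hμ0 : 0 ≤ μ) (hμ1 : μ ≤ 1)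
    (hf : ∀ v, |co f v| ≤ C * (μ ^ 2) ^ hammingNorm v) (D : ℕ) (x : Fin n → ZMod 2) :
    |f x - tr f D x| ≤ C * (μ ^ D * (1 + μ) ^ n) := by
  have h1 : f x - tr f D x = ∑ v, (if hammingNorm v ≤ D then 0 else co f v) * sg (x ⬝ᵥ v) := by
    have e : f x = ∑ v, co f v * sg (x ⬝ᵥ v) := (syn_co f x).symm
    rw [e]
    unfold tr syn
    rw [← Finset.sum_sub_distrib]
    refine Finset.sum_congr rfl fun v _ => ?_
    dsimp only
    split_ifs <;> ring
  rw [h1]
  refine (Finset.abs_sum_le_sum_abs _ _).trans ?_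
  have h2 : ∀ v : Fin n → ZMod 2, |(if hammingNorm v ≤ D then 0 else co f v) * sg (x ⬝ᵥ v)| ≤
      C * μ ^ D * μ ^ hammingNorm v := by
    intro v
    rw [abs_mul, sg_abs, mul_one]
    split_ifs with h
    · rw [abs_zero]
      positivity
    · refine (hf v).trans ?_
      rw [← pow_mul, two_mul, pow_add, mul_assoc]
      refine mul_le_mul_of_nonneg_left ?_ hC
      exact mul_le_mul_of_nonneg_right (pow_le_pow_of_le_one hμ0 hμ1 (not_le.1 h).le)
        (by positivity)
  refine (Finset.sum_le_sum fun v _ => h2 v).trans (le_of_eq ?_)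
  rw [← Finset.mul_sum, gen_one]
  ring

/-- normalised Krawtchouk functions -/
noncomputable def kp (j : ℕ) (x : Fin n → ZMod 2) : ℝ := Kr j x / √(n.choose j)

lemma sqrt_choose_pos {j : ℕ} (h : j ≤ n) : 0 < √(n.choose j : ℝ) :=
  Real.sqrt_pos.2 (by exact_mod_cast Nat.choose_pos h)

lemma kp_orth {J : ℕ} (hJ : J ≤ n) (i j : Fin J) :
    av (fun x : Fin n → ZMod 2 => kp i x * kp j x) = if i = j then 1 else 0 := by
  have hi := sqrt_choose_pos (n := n) (j := i) (i.2.le.trans hJ)
  have hj := sqrt_choose_pos (n := n) (j := j) (j.2.le.trans hJ)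
  have h1 : ∀ x : Fin n → ZMod 2, kp i x * kp j x =
      (√(n.choose i : ℝ) * √(n.choose j : ℝ))⁻¹ * (Kr i x * Kr j x) := by
    intro x
    unfold kp
    field_simp
  simp_rw [h1]
  rw [av_mul_left, Kr_orth]
  by_cases h : i = j
  · subst h
    rw [if_pos rfl, if_pos rfl, Real.mul_self_sqrt (Nat.cast_nonneg _)]
    refine inv_mul_cancel₀ ?_
    exact_mod_cast (Nat.choose_pos (i.2.le.trans hJ)).ne'
  · rw [if_neg h, if_neg (fun h' => h (Fin.ext h')), mul_zero]

/-- combinations -/
noncomputable def qc {J : ℕ} (c : Fin J → ℝ) (x : Fin n → ZMod 2) : ℝ := ∑ j, c j * kp j x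

lemma qc_rad {J : ℕ} (c : Fin J → ℝ) : Rad (qc (n := n) c) := by
  intro x y h
  unfold qc kp
  refine Finset.sum_congr rfl fun j _ => ?_
  rw [Kr_rad j x y h]

lemma qc_sq {J : ℕ} (hJ : J ≤ n) (c : Fin J → ℝ) :
    av (fun x : Fin n → ZMod 2 => qc c x ^ 2) = ∑ j, c j ^ 2 := by
  have h1 : ∀ x : Fin n → ZMod 2, qc c x ^ 2 = ∑ i, ∑ j, c i * c j * (kp i x * kp j x) := by
    intro x
    unfold qc
    rw [pow_two, Finset.sum_mul_sum]
    refine Finset.sum_congr rfl fun i _ => Finset.sum_congr rfl fun j _ => ?_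
    ring
  simp_rw [h1]
  rw [av_sum]
  refine Finset.sum_congr rfl fun i _ => ?_
  rw [av_sum]
  have h2 : ∀ j, av (fun x : Fin n → ZMod 2 => c i * c j * (kp i x * kp j x)) =
      if i = j then c i * c j else 0 := by
    intro j
    rw [av_mul_left, kp_orth hJ]
    split_ifs <;> ring
  rw [Finset.sum_congr rfl fun j _ => h2 j, Finset.sum_ite_eq, if_pos (Finset.mem_univ _)]
  ring

lemma qc_le {J : ℕ} (c : Fin J → ℝ) (x : Fin n → ZMod 2) :
    qc c x ^ 2 ≤ (∑ j, c j ^ 2) * ∑ j : Fin J, kp j x ^ 2 :=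
  Finset.sum_mul_sq_le_sq_mul_sq _ _ _

/-- **The correction.** -/
theorem correction {J : ℕ} (hJ : J ≤ n) {φ : (Fin n → ZMod 2) → ℝ} {κ : ℝ} (hκ : κ ≤ 1 / 2)
    (hφ : ∀ c : Fin J → ℝ, av (fun x => (1 - φ x) * qc c x ^ 2) ≤ κ * ∑ j, c j ^ 2) :
    ∃ c : Fin J → ℝ, (∀ j : Fin J, av (fun x => φ x * (1 + qc c x) * kp j x) =
        av (fun x : Fin n → ZMod 2 => kp j x)) ∧
      ∑ j, c j ^ 2 ≤ 4 * av (fun x => (1 - φ x) ^ 2) := by
  have hpos : ∀ c : Fin J → ℝ, (1 / 2) * ∑ j, c j ^ 2 ≤ av (fun x => φ x * qc c x ^ 2) := by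
    intro c
    have h1 : av (fun x : Fin n → ZMod 2 => φ x * qc c x ^ 2) =
        av (fun x : Fin n → ZMod 2 => qc c x ^ 2) - av (fun x => (1 - φ x) * qc c x ^ 2) := by
      rw [← av_sub]
      congr 1
      funext x
      ring
    rw [h1, qc_sq hJ]
    have h2 := hφ c
    have h3 : 0 ≤ ∑ j, c j ^ 2 := Finset.sum_nonneg fun _ _ => sq_nonneg _
    nlinarith
  let L : (Fin J → ℝ) →ₗ[ℝ] (Fin J → ℝ) :=
    { toFun := fun c i => av (fun x => φ x * qc c x * kp i x)
      map_add' := by
        intro c c'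
        funext i
        rw [Pi.add_apply, ← av_add]
        congr 1
        funext x
        have : qc (c + c') x = qc c x + qc c' x := by
          unfold qc
          rw [← Finset.sum_add_distrib]
          exact Finset.sum_congr rfl fun j _ => by rw [Pi.add_apply]; ring
        rw [this]
        ring
      map_smul' := by
        intro a c
        funext i
        rw [Pi.smul_apply, smul_eq_mul, RingHom.id_apply, ← av_mul_left]
        congr 1
        funext x
        have : qc (a • c) x = a * qc c x := by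
          unfold qc
          rw [Finset.mul_sum]
          exact Finset.sum_congr rfl fun j _ => by rw [Pi.smul_apply, smul_eq_mul]; ring
        rw [this]
        ring }
  have hL : ∀ c i, L c i = av (fun x => φ x * qc c x * kp i x) := fun c i => rfl
  have hcL : ∀ c : Fin J → ℝ, ∑ i, c i * L c i = av (fun x => φ x * qc c x ^ 2) := by
    intro c
    have h1 : ∀ x : Fin n → ZMod 2, φ x * qc c x ^ 2 = ∑ i, c i * (φ x * qc c x * kp i x) := by
      intro x
      have : qc c x = ∑ i, c i * kp i x := rfl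
      rw [pow_two, ← mul_assoc]
      nth_rewrite 2 [this]
      rw [Finset.mul_sum]
      exact Finset.sum_congr rfl fun i _ => by ring
    simp_rw [h1]
    rw [av_sum]
    refine Finset.sum_congr rfl fun i _ => ?_
    rw [av_mul_left, hL]
  have hinj : Function.Injective L := by
    rw [injective_iff_map_eq_zero]
    intro c hc
    have h1 := hpos c
    rw [← hcL c, hc] at h1
    simp only [Pi.zero_apply, mul_zero, Finset.sum_const_zero] at h1
    have h3 : ∑ j, c j ^ 2 = 0 := le_antisymm (by linarith)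
      (Finset.sum_nonneg fun _ _ => sq_nonneg _)
    funext j
    have := (Finset.sum_eq_zero_iff_of_nonneg (fun j _ => sq_nonneg (c j))).1 h3 j
      (Finset.mem_univ j)
    exact pow_eq_zero_iff two_ne_zero |>.1 this
  obtain ⟨c, hc⟩ := (LinearMap.injective_iff_surjective.1 hinj)
    (fun i => av (fun x => (1 - φ x) * kp i x))
  have hc' : ∀ i : Fin J, av (fun x => φ x * qc c x * kp i x) =
      av (fun x => (1 - φ x) * kp i x) := fun i => congrFun hc i
  refine ⟨c, fun j => ?_, ?_⟩
  · have h1 : av (fun x : Fin n → ZMod 2 => φ x * (1 + qc c x) * kp j x) =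
        av (fun x => φ x * qc c x * kp j x) + av (fun x => φ x * kp j x) := by
      rw [← av_add]
      congr 1
      funext x
      ring
    rw [h1, hc' j, ← av_add]
    congr 1
    funext x
    ring
  · obtain ⟨N, hN⟩ : ∃ N, N = ∑ j, c j ^ 2 := ⟨_, rfl⟩
    obtain ⟨W, hW⟩ : ∃ W, W = av (fun x : Fin n → ZMod 2 => (1 - φ x) ^ 2) := ⟨_, rfl⟩
    have hN0 : 0 ≤ N := hN ▸ Finset.sum_nonneg fun _ _ => sq_nonneg _
    have hW0 : 0 ≤ W := hW ▸ av_nonneg fun _ => sq_nonneg _
    have h1 : ∑ i, c i * L c i = av (fun x : Fin n → ZMod 2 => (1 - φ x) * qc c x) := by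
      have h2 : ∀ x : Fin n → ZMod 2, (1 - φ x) * qc c x =
          ∑ i, c i * ((1 - φ x) * kp i x) := by
        intro x
        unfold qc
        rw [Finset.mul_sum]
        exact Finset.sum_congr rfl fun i _ => by ring
      simp_rw [h2]
      rw [av_sum]
      refine Finset.sum_congr rfl fun i _ => ?_
      rw [av_mul_left, hL, hc' i]
    have h3 := hpos c
    rw [← hcL c, h1, ← hN] at h3
    have h4 := av_cs (fun x : Fin n → ZMod 2 => 1 - φ x) (fun x => qc c x)
    rw [qc_sq hJ, ← hN, ← hW] at h4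
    have h5 : (1 / 2 * N) ^ 2 ≤ W * N :=
      (pow_le_pow_left₀ (by positivity) h3 2).trans h4
    rw [← hN, ← hW]
    rcases hN0.eq_or_lt with h | h
    · rw [← h]
      positivity
    · have h6 : N * N ≤ (4 * W) * N := by nlinarith
      exact le_of_mul_le_mul_right h6 h

/-- coefficients of a product -/
lemma co_mul (f g : (Fin n → ZMod 2) → ℝ) (v : Fin n → ZMod 2) :
    co (fun x => f x * g x) v = ∑ w, co f w * co g (v + w) := by
  have h1 : ∀ x : Fin n → ZMod 2, f x * g x * sg (x ⬝ᵥ v) =
      ∑ w, co f w * (g x * sg (x ⬝ᵥ (v + w))) := by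
    intro x
    have h2 : f x = ∑ w, co f w * sg (x ⬝ᵥ w) := (syn_co f x).symm
    rw [h2, Finset.sum_mul, Finset.sum_mul]
    refine Finset.sum_congr rfl fun w _ => ?_
    rw [dotProduct_add, sg_add]
    ring
  unfold co
  simp_rw [h1]
  rw [av_sum]
  refine Finset.sum_congr rfl fun w _ => ?_
  rw [av_mul_left]
  rfl

lemma co_Kr (j : ℕ) (v : Fin n → ZMod 2) : co (Kr j) v = if hammingNorm v = j then 1 else 0 :=
  co_syn _ v

lemma co_qc {J : ℕ} (c : Fin J → ℝ) (v : Fin n → ZMod 2) (hv : J ≤ hammingNorm v) :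
    co (qc c) v = 0 := by
  have h1 : ∀ x : Fin n → ZMod 2, qc c x * sg (x ⬝ᵥ v) =
      ∑ j : Fin J, (c j / √(n.choose j : ℝ)) * (Kr j x * sg (x ⬝ᵥ v)) := by
    intro x
    unfold qc kp
    rw [Finset.sum_mul]
    exact Finset.sum_congr rfl fun i _ => by ring
  unfold co
  simp_rw [h1]
  rw [av_sum]
  refine Finset.sum_eq_zero fun j _ => ?_
  rw [av_mul_left]
  have h2 := co_Kr (n := n) j v
  unfold co at h2
  rw [h2, if_neg (by have := j.2; omega), mul_zero]

lemma co_one (v : Fin n → ZMod 2) : co (fun _ => 1) v = if v = 0 then 1 else 0 := by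
  unfold co
  simp only [one_mul]
  exact av_sg v

lemma norm_add_ge (v w : Fin n → ZMod 2) : hammingNorm v ≤ hammingNorm w + hammingNorm (v + w) := by
  have h1 := hammingDist_triangle v w 0
  rw [hammingDist_zero_right, hammingDist_zero_right, hammingDist_eq_hammingNorm] at h1
  have h2 : -v = v := funext fun i => CharTwo.neg_eq _
  rw [h2] at h1
  omega

/-- radial functions: coefficients from Krawtchouk moments -/
lemma rad_coeff_zero {f : (Fin n → ZMod 2) → ℝ} (hf : Rad f) (v : Fin n → ZMod 2)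
    (h : av (fun x => f x * Kr (hammingNorm v) x) = 0) : co f v = 0 := by
  have h1 : av (fun x => f x * Kr (hammingNorm v) x) =
      ∑ w ∈ univ.filter (fun w : Fin n → ZMod 2 => hammingNorm w = hammingNorm v), co f w := by
    have h2 : ∀ x : Fin n → ZMod 2, f x * Kr (hammingNorm v) x =
        ∑ w ∈ univ.filter (fun w : Fin n → ZMod 2 => hammingNorm w = hammingNorm v),
          f x * sg (x ⬝ᵥ w) := by
      intro x
      unfold Kr syn
      rw [Finset.mul_sum, Finset.sum_filter]
      refine Finset.sum_congr rfl fun w _ => ?_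
      by_cases h : hammingNorm w = hammingNorm v
      · simp [h]
      · simp [h]
    simp_rw [h2]
    rw [av_sum]
    rfl
  rw [h1, Finset.sum_congr rfl fun w hw => rad_coeff hf w v (Finset.mem_filter.1 hw).2,
    Finset.sum_const, nsmul_eq_mul, card_wt] at h
  refine (mul_eq_zero.1 h).resolve_left ?_
  exact_mod_cast (Nat.choose_pos (wt_le v)).ne'

/-- **The spectrum of the corrected function.** -/
theorem spectrum {J D : ℕ} (hJ : J ≤ n) {φ : (Fin n → ZMod 2) → ℝ} (hrad : Rad φ)
    (hD : ∀ v, D < hammingNorm v → co φ v = 0) (c : Fin J → ℝ)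
    (hc : ∀ j : Fin J, av (fun x => φ x * (1 + qc c x) * kp j x) =
      av (fun x : Fin n → ZMod 2 => kp j x))
    (v : Fin n → ZMod 2) (hv : hammingNorm v < J ∨ D + J < hammingNorm v) :
    co (fun x => φ x * (1 + qc c x) - 1) v = 0 := by
  have hradu : Rad (fun x => φ x * (1 + qc c x) - 1) := by
    intro x y h
    simp only
    rw [hrad x y h, qc_rad c x y h]
  rcases hv with hv | hv
  · refine rad_coeff_zero hradu v ?_
    have h1 := hc ⟨hammingNorm v, hv⟩
    have h2 := sqrt_choose_pos (n := n) (j := hammingNorm v) (hv.le.trans hJ)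
    have h3 : av (fun x => (φ x * (1 + qc c x) - 1) * Kr (hammingNorm v) x) =
        √(n.choose (hammingNorm v) : ℝ) * (av (fun x => φ x * (1 + qc c x) * kp (hammingNorm v) x) -
          av (fun x : Fin n → ZMod 2 => kp (hammingNorm v) x)) := by
      rw [← av_sub, ← av_mul_left]
      congr 1
      funext x
      unfold kp
      field_simp
    rw [h3]
    have h4 : av (fun x => φ x * (1 + qc c x) * kp (hammingNorm v) x) =
      av (fun x : Fin n → ZMod 2 => kp (hammingNorm v) x) := h1
    rw [h4, sub_self, mul_zero]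
  · have hv0 : v ≠ 0 := by
      rintro rfl
      rw [hammingNorm_zero] at hv
      omega
    have h1 : co (fun x => φ x * (1 + qc c x) - 1) v =
        co (fun x => φ x * (1 + qc c x)) v - co (fun _ => 1) v := by
      unfold co
      rw [← av_sub]
      congr 1
      funext x
      ring
    rw [h1, co_one, if_neg hv0, sub_zero, co_mul φ (fun x => 1 + qc c x)]
    refine Finset.sum_eq_zero fun w _ => ?_
    rcases lt_or_ge D (hammingNorm w) with h | h
    · rw [hD w h, zero_mul]
    · have h2 := norm_add_ge v w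
      have h3 : J ≤ hammingNorm (v + w) := by omega
      have h4 : co (fun x : Fin n → ZMod 2 => 1 + qc c x) (v + w) = 0 := by
        have h5 : co (fun x : Fin n → ZMod 2 => 1 + qc c x) (v + w) =
            co (fun _ => 1) (v + w) + co (qc c) (v + w) := by
          unfold co
          rw [← av_add]
          congr 1
          funext x
          ring
        rw [h5, co_qc c _ h3, co_one, if_neg, add_zero]
        intro h6
        rw [h6, hammingNorm_zero] at h2
        omega
      rw [h4, mul_zero]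

end Pool.Agent.N381.LB
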