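import Mathlib
import Pool.Agent.N381.LB.Co

/-!
N381/LB (helper381, MP_0430e4_lc): bounds for the averages over linear forms.
-/

set_option autoImplicit false
set_option linter.unusedSectionVars false

namespace Pool.Agent.N381.LB

open Finset Matrix Pool.Agent.N381.LH

variable {n s : ℕ}

lemma prod_sub_le {ι : Type*} (A : Finset ι) (f g : ι → ℝ) {U : ℝ} (hU : 1 ≤ U)
    (hf : ∀ i ∈ A, |f i| ≤ U) (hg : ∀ i ∈ A, |g i| ≤ U) :
    |∏ i ∈ A, f i - ∏ i ∈ A, g i| ≤ U ^ A.card * ∑ i ∈ A, |f i - g i| := by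
  classical
  induction A using Finset.induction_on with
  | empty => simp
  | insert a A ha ih =>
    rw [Finset.prod_insert ha, Finset.prod_insert ha, Finset.sum_insert ha,
      Finset.card_insert_of_notMem ha]
    have h1 := ih (fun i hi => hf i (Finset.mem_insert_of_mem hi))
      (fun i hi => hg i (Finset.mem_insert_of_mem hi))
    have hU0 : 0 ≤ U := zero_le_one.trans hU
    have h2 : |∏ i ∈ A, f i| ≤ U ^ A.card := by
      rw [Finset.abs_prod, ← Finset.prod_const]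
      exact Finset.prod_le_prod (fun _ _ => abs_nonneg _) fun i hi =>
        hf i (Finset.mem_insert_of_mem hi)
    have h3 := hg a (Finset.mem_insert_self a A)
    have e : f a * ∏ i ∈ A, f i - g a * ∏ i ∈ A, g i =
        (f a - g a) * ∏ i ∈ A, f i + g a * (∏ i ∈ A, f i - ∏ i ∈ A, g i) := by ring
    have hs : 0 ≤ ∑ i ∈ A, |f i - g i| := Finset.sum_nonneg fun _ _ => abs_nonneg _
    calc |f a * ∏ i ∈ A, f i - g a * ∏ i ∈ A, g i| ≤
        |f a - g a| * |∏ i ∈ A, f i| + |g a| * |∏ i ∈ A, f i - ∏ i ∈ A, g i| := by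
          rw [e]
          refine (abs_add_le _ _).trans ?_
          rw [abs_mul, abs_mul]
      _ ≤ |f a - g a| * U ^ A.card + U * (U ^ A.card * ∑ i ∈ A, |f i - g i|) := by
          gcongr
      _ ≤ |f a - g a| * U ^ (A.card + 1) + U * (U ^ A.card * ∑ i ∈ A, |f i - g i|) := by
          have : U ^ A.card ≤ U ^ (A.card + 1) := pow_le_pow_right₀ hU (Nat.le_succ _)
          gcongr
      _ = _ := by ring

/-- linear forms are equidistributed -/
lemma sum_form (F : (Fin n → ZMod 2) → ℝ) (a : Fin s → ZMod 2) (ha : a ≠ 0) :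
    ∑ X : Matrix (Fin s) (Fin n) (ZMod 2), F (a ᵥ* X) = ((2 : ℝ) ^ n) ^ s * av F := by
  obtain ⟨i₀, hi₀⟩ : ∃ i, a i ≠ 0 := by
    by_contra h
    push Not at h
    exact ha (funext h)
  have hi₀' : a i₀ = 1 := (zmod2_cases _).resolve_left hi₀
  have hc : (Fintype.card (Fin n → ZMod 2) : ℝ) = 2 ^ n := card_cube
  have h1 := sum_update (G := Fin n → ZMod 2) i₀
    (fun X : Fin s → (Fin n → ZMod 2) => F (∑ i, a i • X i))
  have h2 : ∀ X : Fin s → (Fin n → ZMod 2), ∑ p, F (∑ i, a i • Function.update X i₀ p i) =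
      ∑ x, F x := by
    intro X
    have h3 : ∀ p : Fin n → ZMod 2, ∑ i, a i • Function.update X i₀ p i =
        p + ∑ i ∈ univ.erase i₀, a i • X i := by
      intro p
      rw [← Finset.add_sum_erase _ _ (Finset.mem_univ i₀), Function.update_self, hi₀', one_smul]
      congr 1
      refine Finset.sum_congr rfl fun i hi => ?_
      rw [Function.update_of_ne (Finset.ne_of_mem_erase hi)]
    rw [Finset.sum_congr rfl fun p _ => by rw [h3 p]]
    exact Equiv.sum_comp (Equiv.addRight (∑ i ∈ univ.erase i₀, a i • X i)) F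
  rw [Finset.sum_congr rfl fun X _ => h2 X, Finset.sum_const, nsmul_eq_mul, hc,
    Finset.card_univ, Fintype.card_fun, Fintype.card_fin] at h1
  push_cast at h1
  rw [hc] at h1
  have h4 : ∑ X : Matrix (Fin s) (Fin n) (ZMod 2), F (a ᵥ* X) =
      ∑ X : Fin s → (Fin n → ZMod 2), F (∑ i, a i • X i) := by
    refine Finset.sum_congr rfl fun X _ => ?_
    rw [Matrix.vecMul_eq_sum]
  rw [h4]
  unfold av
  have h5 : (2 : ℝ) ^ n ≠ 0 := by positivity
  rw [eq_comm, ← mul_right_inj' h5, ← h1]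
  field_simp

/-- **The bound for one type.** -/
theorem ft_bound (A : Finset (Fin s → ZMod 2)) (h0 : 0 ∉ A) {u u₁ : (Fin n → ZMod 2) → ℝ}
    {U δ : ℝ} (hU : 1 ≤ U) (hu : ∀ x, |u x| ≤ U) (hu₁ : ∀ x, |u₁ x| ≤ U)
    (hδ : av (fun x => |u x - u₁ x|) ≤ δ) {J D : ℕ}
    (hspec : ∀ v, hammingNorm v < J ∨ D < hammingNorm v → co u₁ v = 0) {γ ρ : ℕ → ℝ}
    (hγ0 : ∀ j, 0 ≤ γ j) (hρ0 : ∀ j, 0 ≤ ρ j) (hρ1 : ∀ j ∈ Icc J D, ρ j ≤ ((2 : ℝ) ^ A.card)⁻¹)
    (hco : ∀ v, J ≤ hammingNorm v → hammingNorm v ≤ D →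
      |co u₁ v| ≤ γ (hammingNorm v) * ρ (hammingNorm v) ^ hammingNorm v)
    (m : Matrix (Fin s) (Fin n) (ZMod 2)) :
    |ft (Ph u A) m| ≤ ((2 : ℝ) ^ n) ^ s *
      ((∑ j ∈ Icc J D, γ j * Real.exp (2 ^ A.card * (n * ρ j ^ 3))) ^ A.card +
        A.card * U ^ A.card * δ) := by
  have hN : ((2 : ℝ) ^ s) ^ n = ((2 : ℝ) ^ n) ^ s := by rw [← pow_mul, ← pow_mul, mul_comm]
  have hδ0 : 0 ≤ δ := (av_nonneg fun _ => abs_nonneg _).trans hδ
  -- the error
  have h1 : |ft (Ph u A) m - ft (Ph u₁ A) m| ≤ ((2 : ℝ) ^ n) ^ s * (A.card * U ^ A.card * δ) := by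
    unfold ft
    rw [← Finset.sum_sub_distrib]
    refine (Finset.abs_sum_le_sum_abs _ _).trans ?_
    have h2 : ∀ X : Matrix (Fin s) (Fin n) (ZMod 2), |Ph u A X * ch X m - Ph u₁ A X * ch X m| ≤
        U ^ A.card * ∑ a ∈ A, |u (a ᵥ* X) - u₁ (a ᵥ* X)| := by
      intro X
      rw [← sub_mul, abs_mul, ch_abs, mul_one]
      exact prod_sub_le A _ _ hU (fun a _ => hu _) fun a _ => hu₁ _
    refine (Finset.sum_le_sum fun X _ => h2 X).trans ?_
    rw [← Finset.mul_sum, Finset.sum_comm]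
    have h3 : ∀ a ∈ A, ∑ X : Matrix (Fin s) (Fin n) (ZMod 2), |u (a ᵥ* X) - u₁ (a ᵥ* X)| ≤
        ((2 : ℝ) ^ n) ^ s * δ := by
      intro a ha
      rw [sum_form (fun x => |u x - u₁ x|) a (fun h => h0 (h ▸ ha))]
      exact mul_le_mul_of_nonneg_left hδ (by positivity)
    refine (mul_le_mul_of_nonneg_left (Finset.sum_le_sum h3) (by positivity)).trans (le_of_eq ?_)
    rw [Finset.sum_const, nsmul_eq_mul]
    ring
  -- the main part
  have h2 : |ft (Ph u₁ A) m| ≤ ((2 : ℝ) ^ n) ^ s *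
      (∑ j ∈ Icc J D, γ j * Real.exp (2 ^ A.card * (n * ρ j ^ 3))) ^ A.card := by
    obtain ⟨cc, hcc⟩ : ∃ cc : ℕ → (Fin n → ZMod 2) → ℝ,
        cc = fun j v => if hammingNorm v = j then co u₁ v else 0 := ⟨_, rfl⟩
    have hdec : ∀ x, u₁ x = ∑ j ∈ Icc J D, syn (cc j) x := by
      intro x
      have e : u₁ x = ∑ v, co u₁ v * sg (x ⬝ᵥ v) := (syn_co u₁ x).symm
      rw [e]
      unfold syn
      rw [Finset.sum_comm]
      refine Finset.sum_congr rfl fun v _ => ?_
      rw [← Finset.sum_mul]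
      congr 1
      rw [hcc]
      simp only
      rw [Finset.sum_ite_eq]
      split_ifs with h
      · rfl
      · refine hspec v ?_
        rw [Finset.mem_Icc, not_and_or, not_le, not_le] at h
        exact h
    have h3 : ft (Ph u₁ A) m = ∑ t ∈ Fintype.piFinset (fun _ : A => Icc J D),
        ∑ X : Matrix (Fin s) (Fin n) (ZMod 2),
          (∏ a : A, syn (cc (t a)) ((a : Fin s → ZMod 2) ᵥ* X)) * ch X m := by
      unfold ft Ph
      rw [Finset.sum_comm]
      refine Finset.sum_congr rfl fun X _ => ?_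
      have h6 := Finset.prod_univ_sum (fun _ : A => Icc J D)
        (fun a j => syn (cc j) ((a : Fin s → ZMod 2) ᵥ* X))
      rw [← Finset.sum_mul, ← h6, ← Finset.prod_coe_sort A]
      congr 1
      exact Finset.prod_congr rfl fun a _ => hdec _
    rw [h3]
    refine (Finset.abs_sum_le_sum_abs _ _).trans ?_
    have h4 : ∀ t ∈ Fintype.piFinset (fun _ : A => Icc J D),
        |∑ X : Matrix (Fin s) (Fin n) (ZMod 2),
          (∏ a : A, syn (cc (t a)) ((a : Fin s → ZMod 2) ᵥ* X)) * ch X m| ≤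
        ((2 : ℝ) ^ s) ^ n *
          ∏ a : A, (γ (t a) * Real.exp (2 ^ A.card * (n * ρ (t a) ^ 3))) := by
      intro t ht
      rw [Fintype.mem_piFinset] at ht
      refine form_bound A h0 (fun a => cc (t a)) (fun a => γ (t a)) (fun a => ρ (t a))
        (fun a => hγ0 _) (fun a => hρ0 _) (fun a => hρ1 _ (ht a)) ?_ m
      intro a v
      rw [hcc]
      simp only
      split_ifs with h
      · obtain ⟨b1, b2⟩ := Finset.mem_Icc.1 (ht a)
        have := hco v (by omega) (by omega)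
        rw [h] at this
        rw [h]
        exact this
      · rw [abs_zero]
        exact mul_nonneg (hγ0 _) (pow_nonneg (hρ0 _) _)
    refine (Finset.sum_le_sum h4).trans (le_of_eq ?_)
    rw [← Finset.mul_sum, hN]
    congr 1
    have h5 := Finset.prod_univ_sum (fun _ : A => Icc J D)
      (fun _ j => γ j * Real.exp (2 ^ A.card * (n * ρ j ^ 3)))
    rw [← h5, Finset.prod_const, Finset.card_univ, Fintype.card_coe]
  have h3 : ft (Ph u A) m = (ft (Ph u A) m - ft (Ph u₁ A) m) + ft (Ph u₁ A) m := by ring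
  rw [h3]
  refine (abs_add_le _ _).trans ((add_le_add h1 h2).trans (le_of_eq ?_))
  ring

end Pool.Agent.N381.LB
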