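import Mathlib
import Pool.Agent.N381.LB.Mu

/-!
N381/LB (helper381, MP_0430e4_lc): the pseudo-code, with its support.
-/

set_option autoImplicit false
set_option linter.unusedSectionVars false

namespace Pool.Agent.N381.LB

open Finset Matrix Pool.Agent.N381.LH

variable {n k l s : ℕ}

open Classical in
/-- **The pseudo-code.** -/
theorem exists_code (u : (Fin n → ZMod 2) → ℝ) (T : ℕ → ℝ) (hu0 : u 0 = 0)
    (hu1 : ∀ x, 0 ≤ 1 + u x)
    (hT : ∀ s ∈ Icc 1 l, ∃ τ : Finset (Fin s → ZMod 2) → ℝ,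
      (∀ A, Cd A → ∀ m : Matrix (Fin s) (Fin n) (ZMod 2), |ft (Ph u A) m| ≤ τ A) ∧
      ∑ A, (if Cd A then τ A else 0) ≤ T s)
    (herr : ∑ s ∈ Icc 1 l, (2 ^ k * 2 ^ l / 2 ^ n : ℝ) ^ s * T s ≤ 1 / 2)
    (hnorm : ∑ s ∈ Icc 1 l, (2 ^ k * 2 ^ l / 2 ^ n : ℝ) ^ s ≤ 1) :
    ∃ a : Matrix (Fin l) (Fin n) (ZMod 2) → ℝ, a 0 = 1 ∧ (∀ X, 0 ≤ a X) ∧
      (∀ X, ∀ c : Fin l → ZMod 2, u (c ᵥ* X) = -1 → a X = 0) ∧
      (∀ Y, 0 ≤ ∑ X, a X * ch X Y) ∧ ((2 : ℝ) ^ k) ^ l / 4 ≤ ∑ X, a X := by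
  obtain ⟨F, hF⟩ : ∃ F, F = f0 k u (0 : Matrix (Fin l) (Fin n) (ZMod 2)) := ⟨_, rfl⟩
  have hNK : (0 : ℝ) < ((2 : ℝ) ^ n) ^ k := by positivity
  have hF1 : ((2 : ℝ) ^ n) ^ k ≤ F := hF ▸ f0_zero_ge hu1
  have hF0 : 0 < F := hNK.trans_le hF1
  have hF2 : F ≤ 2 * ((2 : ℝ) ^ n) ^ k := by
    rw [hF]
    refine (f0_zero_le hu0).trans ?_
    rw [mul_comm]
    refine mul_le_mul_of_nonneg_right ?_ hNK.le
    linarith
  have hm := fun Y => main (k := k) u T hT Y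
  have hge : ∀ Y : Matrix (Fin l) (Fin n) (ZMod 2),
      ((2 : ℝ) ^ n) ^ k * M k Y / 2 ≤ ∑ X, f0 k u X * ch X Y := by
    intro Y
    rw [f0_ft]
    have h1 := (abs_le.1 (hm Y)).1
    have h2 : ((2 : ℝ) ^ n) ^ k * M k Y * ∑ s ∈ Icc 1 l, (2 ^ k * 2 ^ l / 2 ^ n : ℝ) ^ s * T s ≤
        ((2 : ℝ) ^ n) ^ k * M k Y * (1 / 2) := mul_le_mul_of_nonneg_left herr (by positivity)
    linarith
  refine ⟨fun X => f0 k u X / F, ?_, fun X => ?_, fun X c h0 => ?_, fun Y => ?_, ?_⟩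
  · simp only
    rw [← hF, div_self hF0.ne']
  · refine div_nonneg (Finset.sum_nonneg fun G _ => Finset.sum_nonneg fun B _ => ?_) hF0.le
    split_ifs
    · exact wt_nonneg hu1 B G
    · exact le_rfl
  · have : f0 k u X = 0 := by
      refine Finset.sum_eq_zero fun G _ => Finset.sum_eq_zero fun B _ => ?_
      split_ifs with h
      · refine Finset.prod_eq_zero (i := c ᵥ* B) ?_ ?_
        · refine Finset.mem_erase.2 ⟨?_, mem_R.2 ⟨c, rfl⟩⟩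
          intro h2
          rw [← h, ← Matrix.vecMul_vecMul, h2, Matrix.zero_vecMul, hu0] at h0
          norm_num at h0
        · rw [Matrix.vecMul_vecMul, h, h0]
          norm_num
      · rfl
    simp only
    rw [this, zero_div]
  · have h2 : ∑ X, f0 k u X / F * ch X Y = (∑ X, f0 k u X * ch X Y) / F := by
      rw [Finset.sum_div]
      exact Finset.sum_congr rfl fun X _ => by ring
    simp only
    rw [h2]
    refine div_nonneg (le_trans (by positivity) (hge Y)) hF0.le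
  · have h0 := hge 0
    simp only [ch_zero_right, mul_one] at h0
    have hM : (M k (0 : Matrix (Fin l) (Fin n) (ZMod 2)) : ℝ) = ((2 : ℝ) ^ k) ^ l := by
      unfold M
      simp only [Matrix.mul_zero, Finset.filter_true, Finset.card_univ]
      exact card_mat l k
    rw [hM] at h0
    rw [← Finset.sum_div, le_div_iff₀ hF0]
    calc ((2 : ℝ) ^ k) ^ l / 4 * F ≤ ((2 : ℝ) ^ k) ^ l / 4 * (2 * ((2 : ℝ) ^ n) ^ k) := by gcongr
      _ = ((2 : ℝ) ^ n) ^ k * ((2 : ℝ) ^ k) ^ l / 2 := by ring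
      _ ≤ _ := h0

end Pool.Agent.N381.LB
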