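import Mathlib
import Pool.Agent.N381.LB.Va

/-!
N381/LB (helper381, MP_0430e4_lc): the weight function.
-/

set_option autoImplicit false
set_option linter.unusedSectionVars false

namespace Pool.Agent.N381.LB

open Finset Matrix Pool.Agent.N381.LH

variable {n s : ℕ}

lemma Kr_abs_le (j : ℕ) (x : Fin n → ZMod 2) : |Kr j x| ≤ n.choose j := by
  rw [← card_wt, ← Finset.sum_boole]
  unfold Kr syn
  refine (Finset.abs_sum_le_sum_abs _ _).trans (Finset.sum_le_sum fun v _ => ?_)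
  rw [abs_mul, sg_abs, mul_one]
  dsimp only
  by_cases h : hammingNorm v = j <;> simp [h]

lemma kp_sq (j : ℕ) (x : Fin n → ZMod 2) : kp j x ^ 2 = Kr j x ^ 2 / n.choose j := by
  unfold kp
  rw [div_pow, Real.sq_sqrt (Nat.cast_nonneg _)]

lemma kp_sq_le (j : ℕ) (hj : j ≤ n) (x : Fin n → ZMod 2) : kp j x ^ 2 ≤ n.choose j := by
  have hc : (0 : ℝ) < n.choose j := by exact_mod_cast Nat.choose_pos hj
  rw [kp_sq, div_le_iff₀ hc, ← sq_abs, pow_two]
  exact mul_le_mul (Kr_abs_le j x) (Kr_abs_le j x) (abs_nonneg _) hc.le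

lemma one_le_choose_mul {z : ℝ} (hz : 0 ≤ z) (j : ℕ) (hj : j ≤ n) (h : (j : ℝ) ≤ z ^ 2 * n) :
    1 ≤ (n.choose j : ℝ) * (z ^ j) ^ 2 := by
  rcases Nat.eq_zero_or_pos j with rfl | hj0
  · simp
  have hj1 : (0 : ℝ) < j := by exact_mod_cast hj0
  have h1 : ((n : ℝ)) ^ j ≤ (n.choose j : ℝ) * (j : ℝ) ^ j := by
    exact_mod_cast pow_le_choose_mul n j hj
  have h2 : (j : ℝ) ^ j ≤ (z ^ 2 * n) ^ j := pow_le_pow_left₀ hj1.le h j
  have h3 : (j : ℝ) ^ j * 1 ≤ (j : ℝ) ^ j * ((n.choose j : ℝ) * (z ^ j) ^ 2) := by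
    calc (j : ℝ) ^ j * 1 ≤ (z ^ 2 * n) ^ j := by rw [mul_one]; exact h2
      _ = (z ^ j) ^ 2 * (n : ℝ) ^ j := by rw [mul_pow, ← pow_mul, ← pow_mul, mul_comm 2 j]
      _ ≤ (z ^ j) ^ 2 * ((n.choose j : ℝ) * (j : ℝ) ^ j) :=
          mul_le_mul_of_nonneg_left h1 (by positivity)
      _ = _ := by ring
  exact le_of_mul_le_mul_left h3 (by positivity)

lemma kp_sq_le' {z T : ℝ} (hz : 0 ≤ z) (j : ℕ) (hj : j ≤ n) (h : (j : ℝ) ≤ z ^ 2 * n)
    (x : Fin n → ZMod 2) (hx : |ss x| ≤ T) : kp j x ^ 2 ≤ Real.exp (z ^ 2 * n + 2 * z * T) := by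
  have hc : (0 : ℝ) < n.choose j := by exact_mod_cast Nat.choose_pos hj
  have h1 := Kr_le hz j x
  have h2 : |Kr j x| * z ^ j ≤ Real.exp (z ^ 2 * n / 2 + z * T) :=
    h1.trans (Real.exp_le_exp.2 (by nlinarith))
  have h3 : (|Kr j x| * z ^ j) ^ 2 ≤ Real.exp (z ^ 2 * n / 2 + z * T) ^ 2 :=
    pow_le_pow_left₀ (by positivity) h2 2
  rw [← Real.exp_nat_mul, mul_pow, sq_abs] at h3
  have h4 := one_le_choose_mul hz j hj h
  rw [kp_sq, div_le_iff₀ hc]
  have h5 : Kr j x ^ 2 ≤ Kr j x ^ 2 * ((n.choose j : ℝ) * (z ^ j) ^ 2) :=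
    le_mul_of_one_le_right (sq_nonneg _) h4
  have h6 : (2 : ℕ) * (z ^ 2 * n / 2 + z * T) = z ^ 2 * n + 2 * z * T := by
    push_cast
    ring
  rw [h6] at h3
  calc Kr j x ^ 2 ≤ Kr j x ^ 2 * ((n.choose j : ℝ) * (z ^ j) ^ 2) := h5
    _ = (Kr j x ^ 2 * (z ^ j) ^ 2) * n.choose j := by ring
    _ ≤ _ := mul_le_mul_of_nonneg_right h3 hc.le

open Classical in
/-- the mass of a combination far from the middle -/
lemma qc_tail {J : ℕ} (hJ : J ≤ n) {ε : ℝ} (hε : 0 < ε) (c : Fin J → ℝ) :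
    av (fun x : Fin n → ZMod 2 => if ε * n < |ss x| then qc c x ^ 2 else 0) ≤
      (J * (2 * Real.exp (-(3 / 8 * (ε ^ 2 * n))) * 9 ^ J)) * ∑ j, c j ^ 2 := by
  have hS : 0 ≤ ∑ j, c j ^ 2 := Finset.sum_nonneg fun _ _ => sq_nonneg _
  have h1 : ∀ x : Fin n → ZMod 2, (if ε * n < |ss x| then qc c x ^ 2 else 0) ≤
      (∑ j, c j ^ 2) * ∑ j : Fin J, (if ε * n < |ss x| then kp j x ^ 2 else 0) := by
    intro x
    split_ifs with h
    · exact qc_le c x
    · simp
  refine (av_mono h1).trans ?_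
  rw [av_mul_left, av_sum, mul_comm]
  refine mul_le_mul_of_nonneg_right ?_ hS
  have h2 : ∀ j : Fin J, av (fun x : Fin n → ZMod 2 => if ε * n < |ss x| then kp j x ^ 2 else 0) ≤
      2 * Real.exp (-(3 / 8 * (ε ^ 2 * n))) * 9 ^ J := by
    intro j
    have hc : (0 : ℝ) < n.choose j := by exact_mod_cast Nat.choose_pos (j.2.le.trans hJ)
    have h3 : (fun x : Fin n → ZMod 2 => if ε * n < |ss x| then kp j x ^ 2 else 0) =
        fun x => ((n.choose j : ℝ))⁻¹ * (if ε * n < |ss x| then Kr j x ^ 2 else 0) := by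
      funext x
      rw [kp_sq]
      split_ifs
      · rw [div_eq_inv_mul]
      · rw [mul_zero]
    rw [h3, av_mul_left]
    have h4 := tail_Kr (n := n) hε (ε * n) j
    have h5 : 5 / 8 * (n * ε ^ 2) - ε * (ε * n) = -(3 / 8 * (ε ^ 2 * n)) := by ring
    rw [h5] at h4
    calc ((n.choose j : ℝ))⁻¹ * av (fun x => if ε * n < |ss x| then Kr j x ^ 2 else 0) ≤
        ((n.choose j : ℝ))⁻¹ * ((n.choose j : ℝ) *
          (2 * Real.exp (-(3 / 8 * (ε ^ 2 * n))) * 9 ^ (j : ℕ))) :=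
          mul_le_mul_of_nonneg_left h4 (by positivity)
      _ = 2 * Real.exp (-(3 / 8 * (ε ^ 2 * n))) * 9 ^ (j : ℕ) := by field_simp
      _ ≤ _ := mul_le_mul_of_nonneg_left (pow_le_pow_right₀ (by norm_num) j.2.le) (by positivity)
  refine (Finset.sum_le_sum fun j _ => h2 j).trans (le_of_eq ?_)
  rw [Finset.sum_const, Finset.card_univ, Fintype.card_fin, nsmul_eq_mul]

set_option maxHeartbeats 4000000 in
open Classical in
/-- **The weight function.** -/
theorem build {n J D P k R : ℕ} {ε w μ T3 τ η3 M : ℝ} (hn : 1 ≤ n) (hε0 : 0 < ε)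
    (hε1 : ε < 1 / 2) (hJn : J ≤ n) (hR : 2 * R + 1 ≤ P) (hw : 0 ≤ w) (h1 : ε * n ≤ R - w)
    (h2 : R + w ≤ 2 * ε * n) (h3 : T3 ≤ P - R - w) (hμ0 : 0 ≤ μ) (hμ1 : μ ≤ 1)
    (hμ : 2 * Real.pi * k / P ≤ μ ^ 2)
    (hτ : P * Real.exp (-(4 * k * w ^ 2 / P ^ 2)) + 2 * (P * (μ ^ D * (1 + μ) ^ n)) ≤ τ)
    (hτ1 : τ ≤ 1 / 4) (hJ : (J : ℝ) ≤ (ε / 10) ^ 2 * n)
    (hκ : τ + J * (2 * Real.exp (-(3 / 8 * (ε ^ 2 * n))) * 9 ^ J) ≤ 1 / 2)
    (hS0 : 4 * (τ ^ 2 + 2 * Real.exp (-(ε ^ 2 * n / 2))) ≤ 1)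
    (hS : 4 * (τ ^ 2 + 2 * Real.exp (-(ε ^ 2 * n / 2))) *
      (J * Real.exp (41 / 100 * (ε ^ 2 * n))) ≤ 1 / 4)
    (hη3 : av (fun x : Fin n → ZMod 2 => if T3 < |ss x| then (1 : ℝ) else 0) ≤ η3)
    (hM1 : 1 ≤ M) (hM : ∀ j < J, (n.choose j : ℝ) ≤ M ^ 2) :
    ∃ u u₁ : (Fin n → ZMod 2) → ℝ,
      (∀ v, hammingNorm v < J ∨ D + J < hammingNorm v → co u₁ v = 0) ∧
      (∀ v, co u₁ v ^ 2 * (n.choose (hammingNorm v) : ℝ) ≤ 36) ∧
      (∀ x, |u x| ≤ 5 * M) ∧ (∀ x, |u₁ x| ≤ 5 * M) ∧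
      av (fun x => |u x - u₁ x|) ≤ ((2 : ℝ) ^ n)⁻¹ + 3 * τ + 4 * M * η3 ∧
      u 0 = 0 ∧ (∀ x, 0 ≤ 1 + u x) ∧ ∀ x, x ≠ 0 → 2 * ε * n < |ss x| → u x = -1 := by
  have hP : 0 < P := by omega
  have hP' : (0 : ℝ) < P := by exact_mod_cast hP
  have hnR : (0 : ℝ) < n := by exact_mod_cast hn
  have hpi := Real.pi_pos
  obtain ⟨f, hf⟩ : ∃ f : (Fin n → ZMod 2) → ℝ, f = ph P k R := ⟨_, rfl⟩
  obtain ⟨e0, he0⟩ : ∃ e0 : ℝ, e0 = P * Real.exp (-(4 * k * w ^ 2 / P ^ 2)) := ⟨_, rfl⟩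
  obtain ⟨e1, he1⟩ : ∃ e1 : ℝ, e1 = P * (μ ^ D * (1 + μ) ^ n) := ⟨_, rfl⟩
  rw [← he0, ← he1] at hτ
  have he00 : 0 ≤ e0 := by rw [he0]; positivity
  have he10 : 0 ≤ e1 := by rw [he1]; positivity
  have hτ0 : 0 ≤ τ := by linarith
  have hf0 : ∀ x, 0 ≤ f x := fun x => hf ▸ ph_nonneg hP k R x
  have hf1 : ∀ x, f x ≤ 1 := fun x => hf ▸ ph_le_one hP k hR x
  have hcof : ∀ v, |co f v| ≤ P * (μ ^ 2) ^ hammingNorm v := by
    intro v
    rw [hf]
    refine (co_ph hP k hR v).trans (mul_le_mul_of_nonneg_left ?_ hP'.le)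
    exact pow_le_pow_left₀ (by positivity) hμ _
  have herr : ∀ x, |f x - tr f D x| ≤ e1 := by
    intro x
    rw [he1]
    exact tr_err hP'.le hμ0 hμ1 hcof D x
  obtain ⟨φ, hφ⟩ : ∃ φ : (Fin n → ZMod 2) → ℝ, φ = fun x => tr f D x + e1 := ⟨_, rfl⟩
  have hφf : ∀ x, f x ≤ φ x ∧ φ x ≤ f x + 2 * e1 := by
    intro x
    have := abs_le.1 (herr x)
    rw [hφ]
    constructor
    · simp only
      linarith [this.2]
    · simp only
      linarith [this.1]
  have hφ0 : ∀ x, 0 ≤ φ x := fun x => (hf0 x).trans (hφf x).1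
  have hφ54 : ∀ x, φ x ≤ 5 / 4 := fun x => by
    have := (hφf x).2
    have := hf1 x
    linarith
  have hradf : Rad f := hf ▸ ph_rad P k R
  have hradφ : Rad φ := by
    intro x y h
    rw [hφ]
    simp only
    rw [tr_rad hradf D x y h]
  have hcoφ : ∀ v, D < hammingNorm v → co φ v = 0 := by
    intro v hv
    have hv0 : v ≠ 0 := by
      rintro rfl
      rw [hammingNorm_zero] at hv
      omega
    have a1 : co φ v = co (tr f D) v + e1 * co (fun _ => 1) v := by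
      unfold co
      rw [← av_mul_left, ← av_add, hφ]
      congr 1
      funext x
      ring
    rw [a1, co_one, if_neg hv0, mul_zero, add_zero]
    unfold tr
    rw [co_syn, if_neg (not_le.2 hv)]
  have hnear : ∀ x : Fin n → ZMod 2, |ss x| ≤ ε * n → |1 - φ x| ≤ τ := by
    intro x hx
    have a1 := ph_near hP k hR hw x (hx.trans h1)
    rw [← hf, ← he0] at a1
    have a2 := hφf x
    have a3 := hf1 x
    rw [abs_le]
    constructor <;> linarith [a2.1, a2.2]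
  have hfar : ∀ x : Fin n → ZMod 2, 2 * ε * n < |ss x| → |ss x| ≤ T3 → φ x ≤ τ := by
    intro x hx hx3
    have a1 := ph_far hP k hR hw x (h2.trans hx.le) (hx3.trans h3)
    rw [← hf, ← he0] at a1
    have a2 := hφf x
    linarith [a2.2]
  have hone : ∀ x, |1 - φ x| ≤ 1 := by
    intro x
    have a1 := hφ0 x
    have a2 := hφ54 x
    rw [abs_le]
    constructor <;> linarith
  -- the correction
  have hcorr : ∀ c : Fin J → ℝ, av (fun x => (1 - φ x) * qc c x ^ 2) ≤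
      (τ + J * (2 * Real.exp (-(3 / 8 * (ε ^ 2 * n))) * 9 ^ J)) * ∑ j, c j ^ 2 := by
    intro c
    have a1 : ∀ x : Fin n → ZMod 2, (1 - φ x) * qc c x ^ 2 ≤
        τ * qc c x ^ 2 + (if ε * n < |ss x| then qc c x ^ 2 else 0) := by
      intro x
      have b1 := sq_nonneg (qc c x)
      split_ifs with h
      · have b2 := (abs_le.1 (hone x)).2
        nlinarith [mul_nonneg hτ0 b1]
      · have b2 := (abs_le.1 (hnear x (not_lt.1 h))).2
        nlinarith
    refine (av_mono a1).trans ?_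
    rw [av_add, av_mul_left, qc_sq hJn, add_mul]
    exact add_le_add le_rfl (qc_tail hJn hε0 c)
  obtain ⟨c, hc1, hc2⟩ := correction hJn hκ hcorr
  obtain ⟨S, hSdef⟩ : ∃ S, S = ∑ j, c j ^ 2 := ⟨_, rfl⟩
  have hSnn : 0 ≤ S := hSdef ▸ Finset.sum_nonneg fun _ _ => sq_nonneg _
  have hSle : S ≤ 4 * (τ ^ 2 + 2 * Real.exp (-(ε ^ 2 * n / 2))) := by
    rw [hSdef]
    refine hc2.trans (mul_le_mul_of_nonneg_left ?_ (by norm_num))
    have a1 : ∀ x : Fin n → ZMod 2, (1 - φ x) ^ 2 ≤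
        τ ^ 2 + (if ε * n < |ss x| then 1 else 0) := by
      intro x
      split_ifs with h
      · have b2 := pow_le_pow_left₀ (abs_nonneg _) (hone x) 2
        rw [sq_abs] at b2
        nlinarith [sq_nonneg τ]
      · have b2 := pow_le_pow_left₀ (abs_nonneg _) (hnear x (not_lt.1 h)) 2
        rw [sq_abs] at b2
        linarith
    refine (av_mono a1).trans ?_
    rw [av_add, av_const]
    have a2 := tail_one (n := n) hε0 (ε * n)
    have a3 : n * ε ^ 2 / 2 - ε * (ε * n) = -(ε ^ 2 * n / 2) := by ring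
    rw [a3] at a2
    linarith
  have hS1 : S ≤ 1 := hSle.trans hS0
  have hJ0 : (0 : ℝ) ≤ J := Nat.cast_nonneg J
  have hSJ : S * (J * Real.exp (41 / 100 * (ε ^ 2 * n))) ≤ 1 / 4 :=
    (mul_le_mul_of_nonneg_right hSle (by positivity)).trans hS
  have hSJ1 : S * J ≤ 1 / 4 := by
    refine le_trans ?_ hSJ
    refine mul_le_mul_of_nonneg_left ?_ hSnn
    refine le_mul_of_one_le_right hJ0 (Real.one_le_exp (by positivity))
  have hq_in : ∀ x : Fin n → ZMod 2, |ss x| ≤ 2 * ε * n → |qc c x| ≤ 1 / 2 := by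
    intro x hx
    have a1 := qc_le c x
    have a2 : ∑ j : Fin J, kp j x ^ 2 ≤ J * Real.exp (41 / 100 * (ε ^ 2 * n)) := by
      have a3 : ∀ j : Fin J, kp j x ^ 2 ≤ Real.exp (41 / 100 * (ε ^ 2 * n)) := by
        intro j
        have hjJ : (j : ℝ) ≤ J := by exact_mod_cast j.2.le
        have a4 := kp_sq_le' (z := ε / 10) (by positivity) j (j.2.le.trans hJn)
          (hjJ.trans hJ) x hx
        refine a4.trans (Real.exp_le_exp.2 (le_of_eq ?_))
        ring
      refine (Finset.sum_le_sum fun j _ => a3 j).trans (le_of_eq ?_)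
      rw [Finset.sum_const, Finset.card_univ, Fintype.card_fin, nsmul_eq_mul]
    rw [← hSdef] at a1
    have a3 : qc c x ^ 2 ≤ (1 / 2) ^ 2 := by
      calc qc c x ^ 2 ≤ S * ∑ j : Fin J, kp j x ^ 2 := a1
        _ ≤ S * (J * Real.exp (41 / 100 * (ε ^ 2 * n))) := mul_le_mul_of_nonneg_left a2 hSnn
        _ ≤ _ := hSJ.trans (by norm_num)
    exact abs_le_of_sq_le_sq a3 (by norm_num)
  have hM0 : 0 ≤ M := zero_le_one.trans hM1
  have hq_all : ∀ x : Fin n → ZMod 2, |qc c x| ≤ M := by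
    intro x
    have a1 := qc_le c x
    have a2 : ∑ j : Fin J, kp j x ^ 2 ≤ J * M ^ 2 := by
      have a3 : ∀ j : Fin J, kp j x ^ 2 ≤ M ^ 2 := fun j =>
        (kp_sq_le j (j.2.le.trans hJn) x).trans (hM j j.2)
      refine (Finset.sum_le_sum fun j _ => a3 j).trans (le_of_eq ?_)
      rw [Finset.sum_const, Finset.card_univ, Fintype.card_fin, nsmul_eq_mul]
    rw [← hSdef] at a1
    have a3 : qc c x ^ 2 ≤ M ^ 2 := by
      calc qc c x ^ 2 ≤ S * ∑ j : Fin J, kp j x ^ 2 := a1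
        _ ≤ S * (J * M ^ 2) := mul_le_mul_of_nonneg_left a2 hSnn
        _ = (S * J) * M ^ 2 := by ring
        _ ≤ 1 * M ^ 2 := mul_le_mul_of_nonneg_right (hSJ1.trans (by norm_num)) (sq_nonneg _)
        _ = _ := one_mul _
    exact abs_le_of_sq_le_sq a3 hM0
  obtain ⟨u₁, hu₁⟩ : ∃ u₁ : (Fin n → ZMod 2) → ℝ, u₁ = fun x => φ x * (1 + qc c x) - 1 := ⟨_, rfl⟩
  have hφq : ∀ x, |φ x * (1 + qc c x)| ≤ 5 / 2 * M := by
    intro x
    rw [abs_mul, abs_of_nonneg (hφ0 x)]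
    have a1 : |1 + qc c x| ≤ 2 * M := by
      have := abs_le.1 (hq_all x)
      rw [abs_le]
      constructor <;> linarith [this.1, this.2]
    calc φ x * |1 + qc c x| ≤ 5 / 4 * (2 * M) :=
          mul_le_mul (hφ54 x) a1 (abs_nonneg _) (by norm_num)
      _ = _ := by ring
  have hu₁M : ∀ x, |u₁ x| ≤ 5 * M := by
    intro x
    have a1 := abs_le.1 (hφq x)
    rw [hu₁]
    simp only
    rw [abs_le]
    constructor <;> linarith [a1.1, a1.2]
  have hradu : Rad u₁ := by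
    intro x y h
    rw [hu₁]
    simp only
    rw [hradφ x y h, qc_rad c x y h]
  have hL2 : av (fun x => u₁ x ^ 2) ≤ 36 := by
    have a1 : ∀ x, u₁ x ^ 2 ≤ 10 + 8 * qc c x ^ 2 := by
      intro x
      rw [hu₁]
      simp only
      have b1 := hφ0 x
      have b2 := hφ54 x
      have b3 : (φ x * (1 + qc c x)) ^ 2 ≤ (5 / 4) ^ 2 * (1 + qc c x) ^ 2 := by
        rw [mul_pow]
        exact mul_le_mul_of_nonneg_right (pow_le_pow_left₀ b1 b2 2) (sq_nonneg _)
      have b4 : (1 + qc c x) ^ 2 ≤ 2 + 2 * qc c x ^ 2 := by nlinarith [sq_nonneg (1 - qc c x)]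
      have b5 : (φ x * (1 + qc c x) - 1) ^ 2 ≤ 2 * (φ x * (1 + qc c x)) ^ 2 + 2 := by
        nlinarith [sq_nonneg (φ x * (1 + qc c x) + 1)]
      have b6 := sq_nonneg (qc c x)
      nlinarith
    refine (av_mono a1).trans ?_
    rw [av_add, av_const, av_mul_left, qc_sq hJn, ← hSdef]
    linarith
  obtain ⟨u, hu⟩ : ∃ u : (Fin n → ZMod 2) → ℝ, u = fun x =>
      if x = 0 then 0 else if |ss x| ≤ 2 * ε * n then u₁ x else -1 := ⟨_, rfl⟩
  refine ⟨u, u₁, ?_, ?_, ?_, hu₁M, ?_, ?_, ?_, ?_⟩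
  · intro v hv
    rw [hu₁]
    exact spectrum hJn hradφ hcoφ c hc1 v hv
  · intro v
    exact (rad_coeff_le hradu v).trans hL2
  · intro x
    rw [hu]
    simp only
    split_ifs
    · rw [abs_zero]
      positivity
    · exact hu₁M x
    · rw [abs_neg, abs_one]
      linarith
  · -- the distance
    have hq1 : ∀ x : Fin n → ZMod 2, 2 * ε * n < |ss x| → |φ x * (1 + qc c x)| ≤
        τ * |1 + qc c x| + 4 * M * (if T3 < |ss x| then 1 else 0) := by
      intro x hx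
      split_ifs with h
      · have := hφq x
        have : 0 ≤ τ * |1 + qc c x| := mul_nonneg hτ0 (abs_nonneg _)
        linarith
      · rw [abs_mul, abs_of_nonneg (hφ0 x), mul_zero, add_zero]
        exact mul_le_mul_of_nonneg_right (hfar x hx (not_lt.1 h)) (abs_nonneg _)
    have hss0 : 2 * ε * n < |ss (0 : Fin n → ZMod 2)| := by
      unfold ss
      rw [hammingNorm_zero, Nat.cast_zero, mul_zero, sub_zero, abs_of_pos hnR]
      nlinarith
    have a1 : ∀ x, |u x - u₁ x| ≤ (if x = 0 then 1 else 0) + (τ * |1 + qc c x| +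
        4 * M * (if T3 < |ss x| then 1 else 0)) := by
      intro x
      have hnn : 0 ≤ τ * |1 + qc c x| + 4 * M * (if T3 < |ss x| then 1 else 0) := by
        have : (0 : ℝ) ≤ if T3 < |ss x| then 1 else 0 := by split_ifs <;> norm_num
        have : 0 ≤ τ * |1 + qc c x| := mul_nonneg hτ0 (abs_nonneg _)
        positivity
      rw [hu, hu₁]
      simp only
      by_cases hx : x = 0
      · rw [if_pos hx, if_pos hx]
        have b1 := hq1 x (hx ▸ hss0)
        have b2 : |0 - (φ x * (1 + qc c x) - 1)| ≤ 1 + |φ x * (1 + qc c x)| := by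
          have := abs_sub (1 : ℝ) (φ x * (1 + qc c x))
          rw [abs_one] at this
          refine le_trans (le_of_eq ?_) this
          congr 1
          ring
        linarith
      · rw [if_neg hx, if_neg hx, zero_add]
        split_ifs with h
        · rw [sub_self, abs_zero]
          have h' := hnn
          split_ifs at h' <;> simpa using h'
        · rw [sub_self, abs_zero]
          have h' := hnn
          split_ifs at h' <;> simpa using h'
        · have b1 := hq1 x (not_le.1 h)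
          rw [if_pos (by assumption)] at b1
          have : -1 - (φ x * (1 + qc c x) - 1) = -(φ x * (1 + qc c x)) := by ring
          rw [this, abs_neg]
          exact b1
        · have b1 := hq1 x (not_le.1 h)
          rw [if_neg (by assumption)] at b1
          have : -1 - (φ x * (1 + qc c x) - 1) = -(φ x * (1 + qc c x)) := by ring
          rw [this, abs_neg]
          exact b1
    refine (av_mono a1).trans ?_
    rw [av_add, av_add, av_mul_left, av_mul_left]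
    have b1 : av (fun x : Fin n → ZMod 2 => if x = 0 then (1 : ℝ) else 0) = ((2 : ℝ) ^ n)⁻¹ := by
      unfold av
      simp
    have b2 : av (fun x : Fin n → ZMod 2 => |1 + qc c x|) ≤ 3 := by
      have c1 : ∀ x : Fin n → ZMod 2, |1 + qc c x| ≤ 2 + qc c x ^ 2 := by
        intro x
        have d1 : |1 + qc c x| ≤ 1 + |qc c x| := by
          have := abs_add_le 1 (qc c x)
          rwa [abs_one] at this
        have d2 : |qc c x| ≤ 1 + qc c x ^ 2 := by
          rw [← sq_abs]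
          nlinarith [sq_nonneg (|qc c x| - 1), abs_nonneg (qc c x)]
        linarith
      refine (av_mono c1).trans ?_
      rw [av_add, av_const, qc_sq hJn, ← hSdef]
      linarith
    have b3 := mul_le_mul_of_nonneg_left b2 hτ0
    have b4 := mul_le_mul_of_nonneg_left hη3 (by positivity : 0 ≤ 4 * M)
    rw [b1]
    linarith
  · rw [hu]
    simp
  · intro x
    rw [hu]
    simp only
    split_ifs with h h'
    · norm_num
    · rw [hu₁]
      simp only
      have b1 := (abs_le.1 (hq_in x h')).1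
      have b2 := mul_nonneg (hφ0 x) (by linarith : 0 ≤ 1 + qc c x)
      linarith
    · norm_num
  · intro x hx hx2
    rw [hu]
    simp only
    rw [if_neg hx, if_neg (not_le.2 hx2)]

end Pool.Agent.N381.LB
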