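import Mathlib
import Pool.Agent.N381.LB.Va
import Pool.Agent.N381.LB.Ra

/-!
N381/LB (helper381, MP_0430e4_lc): from the weight function to the pseudo-code.
-/

set_option autoImplicit false
set_option linter.unusedSectionVars false

namespace Pool.Agent.N381.LB

open Finset Matrix Pool.Agent.N381.LH

variable {n s : ℕ}

lemma mul_log_mono {n J j : ℕ} (hn : 1 ≤ n) (hJ : 1 ≤ J) (hj : J ≤ j)
    (h1 : 1 ≤ Real.log (n / j)) : J * Real.log (n / J) ≤ j * Real.log (n / j) := by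
  have hn0 : (0 : ℝ) < n := by exact_mod_cast hn
  have hJ0 : (0 : ℝ) < J := by exact_mod_cast hJ
  have hj0 : (0 : ℝ) < j := by exact_mod_cast lt_of_lt_of_le hJ hj
  have hjJ : (J : ℝ) ≤ j := by exact_mod_cast hj
  have e1 : Real.log (n / J) = Real.log (n / j) + Real.log (j / J) := by
    rw [← Real.log_mul (by positivity) (by positivity)]
    congr 1
    field_simp
  have h2 : Real.log (j / J) ≤ j / J - 1 := Real.log_le_sub_one_of_pos (by positivity)
  have h3 : (J : ℝ) * Real.log (j / J) ≤ j - J := by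
    calc (J : ℝ) * Real.log (j / J) ≤ J * (j / J - 1) := mul_le_mul_of_nonneg_left h2 hJ0.le
      _ = j - J := by field_simp
  rw [e1, mul_add]
  nlinarith

/-- the coefficients of one level are small -/
lemma level_bound {n J D' W : ℕ} (hn : 1 ≤ n) (hJ : 1 ≤ J)
    (hD : ∀ j ∈ Icc J D', 12 * (2 : ℝ) ^ W ≤ Real.log (n / j)) {a : ℕ} (ha : a ≤ W) :
    ∑ j ∈ Icc J D', 6 * Real.exp (-(j * Real.log (n / j) / 6)) *
        Real.exp (2 ^ a * (n * Real.exp (-(Real.log (n / j) / 3)) ^ 3)) ≤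
      6 * (D' + 1) * Real.exp (-(J * Real.log (n / J) / 12)) := by
  have hn0 : (0 : ℝ) < n := by exact_mod_cast hn
  have h1 : ∀ j ∈ Icc J D', 6 * Real.exp (-(j * Real.log (n / j) / 6)) *
        Real.exp (2 ^ a * (n * Real.exp (-(Real.log (n / j) / 3)) ^ 3)) ≤
      6 * Real.exp (-(J * Real.log (n / J) / 12)) := by
    intro j hj
    obtain ⟨hj1, hj2⟩ := Finset.mem_Icc.1 hj
    have hj0 : (0 : ℝ) < j := by exact_mod_cast lt_of_lt_of_le hJ hj1
    have h2 := hD j hj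
    have h3 : Real.exp (-(Real.log (n / j) / 3)) ^ 3 = j / n := by
      rw [← Real.exp_nat_mul]
      have : ((3 : ℕ) : ℝ) * -(Real.log (n / j) / 3) = -Real.log (n / j) := by
        push_cast
        ring
      rw [this, Real.exp_neg, Real.exp_log (by positivity), inv_div]
    rw [h3, mul_assoc, ← Real.exp_add]
    refine mul_le_mul_of_nonneg_left (Real.exp_le_exp.2 ?_) (by norm_num)
    have h4 : (n : ℝ) * (j / n) = j := by field_simp
    rw [h4]
    have h5 : (2 : ℝ) ^ a ≤ 2 ^ W := pow_le_pow_right₀ (by norm_num) ha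
    have h6 : (1 : ℝ) ≤ 2 ^ W := one_le_pow₀ (by norm_num)
    have h7 := mul_log_mono hn hJ hj1 (by linarith)
    nlinarith
  refine (Finset.sum_le_sum h1).trans ?_
  rw [Finset.sum_const, nsmul_eq_mul, Nat.card_Icc]
  have h2 : ((D' + 1 - J : ℕ) : ℝ) ≤ D' + 1 := by
    have : D' + 1 - J ≤ D' + 1 := Nat.sub_le _ _
    exact_mod_cast this
  calc ((D' + 1 - J : ℕ) : ℝ) * (6 * Real.exp (-(J * Real.log (n / J) / 12))) ≤
      (D' + 1) * (6 * Real.exp (-(J * Real.log (n / J) / 12))) :=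
        mul_le_mul_of_nonneg_right h2 (by positivity)
    _ = _ := by ring

lemma le_card_of_Cd {A : Finset (Fin s → ZMod 2)} (h : Cd A) : s ≤ A.card := by
  have h1 : (univ : Finset (Fin s)).card ≤ A.card := by
    refine Finset.card_le_card_of_injOn (fun i => Pi.single i (1 : ZMod 2)) (fun i _ => h.2 i) ?_
    intro i _ j _ hij
    exact single_inj hij
  simpa using h1

lemma card_le_two_pow (A : Finset (Fin s → ZMod 2)) : A.card ≤ 2 ^ s := by
  refine (Finset.card_le_univ A).trans (le_of_eq ?_)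
  simp

open Classical in
/-- **From the weight function to the pseudo-code.** -/
theorem finite (n J D' k l : ℕ) (u u₁ : (Fin n → ZMod 2) → ℝ) (U δ X : ℝ) (hn : 1 ≤ n)
    (hJ : 1 ≤ J) (hU : 1 ≤ U) (hu : ∀ x, |u x| ≤ U) (hu₁ : ∀ x, |u₁ x| ≤ U)
    (hDn : D' ≤ n)
    (hδ : av (fun x => |u x - u₁ x|) ≤ δ)
    (hspec : ∀ v, hammingNorm v < J ∨ D' < hammingNorm v → co u₁ v = 0)
    (hco : ∀ v, co u₁ v ^ 2 * (n.choose (hammingNorm v) : ℝ) ≤ 36)
    (hD : ∀ j ∈ Icc J D', 12 * (2 : ℝ) ^ (2 ^ l) ≤ Real.log (n / j))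
    (hu0 : u 0 = 0) (hu1 : ∀ x, 0 ≤ 1 + u x)
    (hX : 6 * (D' + 1) * Real.exp (-(J * Real.log (n / J) / 12)) ≤ X) (hX1 : X ≤ 1)
    (hc1 : l * 2 ^ l * 2 ^ (2 ^ l) * (2 ^ k * X) ≤ 1 / 4)
    (hc2 : l * 2 ^ l * 2 ^ (2 ^ l) * (2 ^ l) ^ l * (((2 : ℝ) ^ k) ^ l * U ^ (2 ^ l) * δ) ≤ 1 / 4)
    (hc3 : l * 2 ^ l * (2 : ℝ) ^ k ≤ 2 ^ n) :
    ∃ a : Matrix (Fin l) (Fin n) (ZMod 2) → ℝ, a 0 = 1 ∧ (∀ X, 0 ≤ a X) ∧
      (∀ X, ∀ c : Fin l → ZMod 2, u (c ᵥ* X) = -1 → a X = 0) ∧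
      (∀ Y, 0 ≤ ∑ X, a X * ch X Y) ∧ ((2 : ℝ) ^ k) ^ l / 4 ≤ ∑ X, a X := by
  have hδ0 : 0 ≤ δ := (av_nonneg fun _ => abs_nonneg _).trans hδ
  have hX0 : 0 ≤ X := le_trans (by positivity) hX
  have h2l : (1 : ℝ) ≤ 2 ^ l := one_le_pow₀ (by norm_num)
  have h2k : (1 : ℝ) ≤ 2 ^ k := one_le_pow₀ (by norm_num)
  have h22 : (1 : ℝ) ≤ 2 ^ (2 ^ l) := one_le_pow₀ (by norm_num)
  have hN : (0 : ℝ) < 2 ^ n := by positivity
  obtain ⟨E, hE⟩ : ∃ E, E = 2 ^ l * U ^ (2 ^ l) * δ := ⟨_, rfl⟩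
  have hE0 : 0 ≤ E := by rw [hE]; positivity
  refine exists_code (k := k) u (fun s => 2 ^ (2 ^ l) * (((2 : ℝ) ^ n) ^ s * (X ^ s + E)))
    hu0 hu1 ?_ ?_ ?_
  · intro s hs
    obtain ⟨hs1, hs2⟩ := Finset.mem_Icc.1 hs
    refine ⟨fun _ => ((2 : ℝ) ^ n) ^ s * (X ^ s + E), ?_, ?_⟩
    · intro A hA m
      have hA1 := le_card_of_Cd hA
      have hA2 : A.card ≤ 2 ^ l :=
        (card_le_two_pow A).trans (Nat.pow_le_pow_right (by norm_num) hs2)
      have h1 := ft_bound A hA.1 hU hu hu₁ hδ hspec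
        (γ := fun j => 6 * Real.exp (-(j * Real.log (n / j) / 6)))
        (ρ := fun j => Real.exp (-(Real.log (n / j) / 3)))
        (fun j => by positivity) (fun j => by positivity) ?_ ?_ m
      · refine h1.trans (mul_le_mul_of_nonneg_left (add_le_add ?_ ?_) (by positivity))
        · have h2 := (level_bound hn hJ hD hA2).trans hX
          refine (pow_le_pow_left₀ (Finset.sum_nonneg fun j _ => by positivity) h2 _).trans ?_
          exact pow_le_pow_of_le_one hX0 hX1 hA1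
        · rw [hE]
          have h2 : (A.card : ℝ) ≤ 2 ^ l := by exact_mod_cast hA2
          have h3 : U ^ A.card ≤ U ^ (2 ^ l) := pow_le_pow_right₀ hU hA2
          gcongr
      · intro j hj
        have h2 := hD j hj
        have h3 : (2 : ℝ) ^ (2 ^ l) ≥ 2 ^ A.card := pow_le_pow_right₀ (by norm_num) hA2
        have h4 : (A.card : ℝ) < 2 ^ A.card := by exact_mod_cast Nat.lt_two_pow_self
        have h5 : Real.exp (-(Real.log (n / j) / 3)) ≤ Real.exp (-(A.card : ℝ)) := by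
          refine Real.exp_le_exp.2 ?_
          have : (0 : ℝ) < 2 ^ A.card := by positivity
          linarith
        refine h5.trans ?_
        rw [← inv_pow, ← mul_one (A.card : ℝ), ← mul_neg, Real.exp_nat_mul]
        refine pow_le_pow_left₀ (Real.exp_nonneg _) ?_ _
        rw [Real.exp_neg]
        refine inv_anti₀ (by norm_num) ?_
        have := Real.add_one_le_exp (1 : ℝ)
        linarith
      · intro v hv1 hv2
        have h2 := hco v
        obtain ⟨j, hj⟩ : ∃ j, j = hammingNorm v := ⟨_, rfl⟩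
        rw [← hj] at h2 hv1 hv2 ⊢
        have h3 := exp_le_choose n j (hJ.trans hv1) (hv2.trans hDn)
        have h4 : (co u₁ v * Real.exp (j * Real.log (n / j) / 2)) ^ 2 ≤ 6 ^ 2 := by
          rw [mul_pow, ← Real.exp_nat_mul]
          have e : ((2 : ℕ) : ℝ) * (j * Real.log (n / j) / 2) = j * Real.log (n / j) := by
            push_cast
            ring
          rw [e]
          calc co u₁ v ^ 2 * Real.exp (j * Real.log (n / j)) ≤ co u₁ v ^ 2 * n.choose j :=
                mul_le_mul_of_nonneg_left h3 (sq_nonneg _)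
            _ ≤ 6 ^ 2 := h2.trans (by norm_num)
        have h5 := abs_le_of_sq_le_sq h4 (by norm_num)
        rw [abs_mul, abs_of_pos (Real.exp_pos _)] at h5
        have h6 : 6 * Real.exp (-(j * Real.log (n / j) / 6)) *
            Real.exp (-(Real.log (n / j) / 3)) ^ j =
            6 * Real.exp (-(j * Real.log (n / j) / 2)) := by
          rw [← Real.exp_nat_mul, mul_assoc, ← Real.exp_add]
          congr 2
          ring
        rw [h6, Real.exp_neg, ← div_eq_mul_inv, le_div_iff₀ (Real.exp_pos _)]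
        exact h5
    · have h1 : ∀ A : Finset (Fin s → ZMod 2),
          (if Cd A then ((2 : ℝ) ^ n) ^ s * (X ^ s + E) else 0) ≤
            ((2 : ℝ) ^ n) ^ s * (X ^ s + E) := by
        intro A
        split_ifs
        · exact le_rfl
        · positivity
      refine (Finset.sum_le_sum fun A _ => h1 A).trans ?_
      rw [Finset.sum_const, nsmul_eq_mul, Finset.card_univ, Fintype.card_finset, Fintype.card_fun,
        Fintype.card_fin, ZMod.card]
      refine mul_le_mul_of_nonneg_right ?_ (by positivity)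
      push_cast
      exact pow_le_pow_right₀ (by norm_num) (Nat.pow_le_pow_right (by norm_num) hs2)
  · have h1 : ∀ s ∈ Icc 1 l, (2 ^ k * 2 ^ l / 2 ^ n : ℝ) ^ s *
        (2 ^ (2 ^ l) * (((2 : ℝ) ^ n) ^ s * (X ^ s + E))) ≤
        2 ^ (2 ^ l) * (2 ^ l * (2 ^ k * X)) +
          2 ^ (2 ^ l) * ((2 ^ l) ^ l * ((2 : ℝ) ^ k) ^ l * E) := by
      intro s hs
      obtain ⟨hs1, hs2⟩ := Finset.mem_Icc.1 hs
      have e : (2 ^ k * 2 ^ l / 2 ^ n : ℝ) ^ s *
          (2 ^ (2 ^ l) * (((2 : ℝ) ^ n) ^ s * (X ^ s + E))) =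
          2 ^ (2 ^ l) * (2 ^ l * (2 ^ k * X)) ^ s + 2 ^ (2 ^ l) * ((2 ^ l * 2 ^ k) ^ s * E) := by
        rw [div_pow]
        field_simp
        ring
      rw [e]
      have h2 : 2 ^ l * (2 ^ k * X) ≤ 1 := by
        have h3 : (1 : ℝ) ≤ l := by exact_mod_cast hs1.trans hs2
        have h4 : 0 ≤ 2 ^ l * (2 ^ k * X) := by positivity
        have h5 : 2 ^ l * (2 ^ k * X) ≤ l * 2 ^ l * 2 ^ (2 ^ l) * (2 ^ k * X) := by
          have : (1 : ℝ) ≤ l * 2 ^ (2 ^ l) := by nlinarith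
          nlinarith
        linarith
      have h3 : (2 ^ l * (2 ^ k * X)) ^ s ≤ 2 ^ l * (2 ^ k * X) := by
        have := pow_le_pow_of_le_one (by positivity) h2 hs1
        simpa using this
      have h4 : ((2 : ℝ) ^ l * 2 ^ k) ^ s ≤ (2 ^ l) ^ l * ((2 : ℝ) ^ k) ^ l := by
        rw [← mul_pow]
        exact pow_le_pow_right₀ (by nlinarith) hs2
      exact add_le_add (mul_le_mul_of_nonneg_left h3 (by positivity))
        (mul_le_mul_of_nonneg_left (mul_le_mul_of_nonneg_right h4 hE0) (by positivity))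
    refine (Finset.sum_le_sum h1).trans ?_
    rw [Finset.sum_const, Nat.card_Icc, Nat.add_sub_cancel, nsmul_eq_mul]
    have e1 : (l : ℝ) * (2 ^ (2 ^ l) * (2 ^ l * (2 ^ k * X)) +
        2 ^ (2 ^ l) * ((2 ^ l) ^ l * ((2 : ℝ) ^ k) ^ l * E)) =
        l * 2 ^ l * 2 ^ (2 ^ l) * (2 ^ k * X) +
        l * 2 ^ l * 2 ^ (2 ^ l) * (2 ^ l) ^ l * (((2 : ℝ) ^ k) ^ l * U ^ (2 ^ l) * δ) := by
      rw [hE]
      ring
    rw [e1]
    linarith
  · have h1 : ∀ s ∈ Icc 1 l, (2 ^ k * 2 ^ l / 2 ^ n : ℝ) ^ s ≤ 2 ^ k * 2 ^ l / 2 ^ n := by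
      intro s hs
      obtain ⟨hs1, hs2⟩ := Finset.mem_Icc.1 hs
      have h3 : (1 : ℝ) ≤ l := by exact_mod_cast hs1.trans hs2
      have h2 : (2 ^ k * 2 ^ l / 2 ^ n : ℝ) ≤ 1 := by
        rw [div_le_one hN]
        nlinarith
      have := pow_le_pow_of_le_one (by positivity) h2 hs1
      simpa using this
    refine (Finset.sum_le_sum h1).trans ?_
    rw [Finset.sum_const, Nat.card_Icc, Nat.add_sub_cancel, nsmul_eq_mul, ← mul_div_assoc,
      div_le_one hN]
    linarith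

end Pool.Agent.N381.LB
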