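import Mathlib
import Pool.Agent.N381.LB.Bu
import Pool.Agent.N381.LB.Fi

/-!
N381/LB (helper381, MP_0430e4_lc): the choice of parameters.
-/

set_option autoImplicit false
set_option linter.unusedSectionVars false

namespace Pool.Agent.N381.LB

open Finset Matrix Filter Pool.Agent.N381.LH

lemma ev {a : ℝ} (ha : 0 < a) (K : ℝ) {η : ℝ} (hη : 0 < η) :
    ∀ᶠ n : ℕ in atTop, K * (n + 1) * Real.exp (-(a * n)) ≤ η := by
  filter_upwards [tendsto_natCast_atTop_atTop.eventually_ge_atTop (4 * |K| / (a ^ 2 * η)),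
    eventually_ge_atTop 1] with n h1 h2
  have hn : (1 : ℝ) ≤ n := by exact_mod_cast h2
  have h3 := Real.quadratic_le_exp_of_nonneg (by positivity : 0 ≤ a * n)
  have h4 : (a * n) ^ 2 / 2 ≤ Real.exp (a * n) := by
    have : 0 ≤ a * n := by positivity
    linarith
  rw [Real.exp_neg, ← div_eq_mul_inv, div_le_iff₀ (Real.exp_pos _)]
  rw [div_le_iff₀ (by positivity)] at h1
  calc K * (n + 1) ≤ |K| * (2 * n) :=
        mul_le_mul (le_abs_self K) (by linarith) (by positivity) (abs_nonneg _)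
    _ = (4 * |K|) * n / 2 := by ring
    _ ≤ (n * (a ^ 2 * η)) * n / 2 := by gcongr
    _ = η * ((a * n) ^ 2 / 2) := by ring
    _ ≤ η * Real.exp (a * n) := mul_le_mul_of_nonneg_left h4 hη.le

lemma choose_le_exp {n j : ℕ} {z : ℝ} (hz : 0 < z) (hj : j ≤ n) :
    (n.choose j : ℝ) * z ^ j ≤ Real.exp (z * n) := by
  have h1 : (n.choose j : ℝ) * z ^ j ≤ (z + 1) ^ n := by
    rw [add_pow]
    refine le_trans (le_of_eq ?_) (Finset.single_le_sum
      (f := fun m => z ^ m * 1 ^ (n - m) * (n.choose m : ℝ)) (fun i _ => by positivity)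
      (Finset.mem_range.2 (Nat.lt_succ_of_le hj)))
    ring
  refine h1.trans ?_
  rw [mul_comm z, Real.exp_nat_mul]
  exact pow_le_pow_left₀ (by positivity) (Real.add_one_le_exp z) n

/-- the parameters of the weight, for one length -/
structure Par (n : ℕ) (σ L Q x t : ℝ) (P R kk D J : ℕ) (w μ M τ : ℝ) : Prop where
  hσ0 : 0 < σ
  hσ : σ ≤ 1 / 8
  hL : Real.exp L = 1 / σ ^ 4
  hL1 : 1 ≤ L
  hQ4 : 4 ≤ Q
  hx0 : 0 < x
  e2 : 200 ≤ σ ^ 8 * n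
  ht : t = σ ^ 8 * L * n
  hP1 : (P : ℝ) ≤ σ ^ 2 * n
  hP2 : σ ^ 2 * n - 1 < P
  hR1 : (R : ℝ) ≤ 3 / 2 * (σ ^ 4 * n)
  hR2 : 3 / 2 * (σ ^ 4 * n) - 1 < R
  hkk1 : 4 * (Q + 1) * L * (σ ^ 4 * n) ≤ kk
  hkk2 : (kk : ℝ) < 4 * (Q + 1) * L * (σ ^ 4 * n) + 1
  hD2 : x * n - 1 < D
  hJ1 : (J : ℝ) ≤ σ ^ 8 * n / 100
  hw : w = σ ^ 4 * n / 4
  hμ : μ = Real.exp (-(3 / x))
  hM : M = Real.exp t
  hτ : τ = Real.exp (-(Q * t))
  hA4 : 16 * Real.pi * (Q + 1) * (L * σ ^ 2) ≤ μ ^ 2 / 2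
  hA5 : (Q + 1) * (σ ^ 4 * L) ≤ 1 / 32
  e16 : 4 * Real.pi ≤ μ ^ 2 / 2 * (σ ^ 2 * n)
  e4 : 1 * (n + 1) * Real.exp (-t) ≤ 1 / 2
  e5 : 4 * Real.exp (3 / x) * (n + 1) * Real.exp (-(1 * n)) ≤ 1
  e7 : 2 * (n + 1) * Real.exp (-(σ ^ 8 / 4 * n)) ≤ 1 / 4
  e9 : 12 * (n + 1) * Real.exp (-(σ ^ 8 * (9 / 100) * n)) ≤ 1 / 4

namespace Par

variable {n : ℕ} {σ L Q x t : ℝ} {P R kk D J : ℕ} {w μ M τ : ℝ}

lemma σ2 (h : Par n σ L Q x t P R kk D J w μ M τ) : σ ^ 2 ≤ 1 / 64 := by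
  have h1 := h.hσ
  have h2 := h.hσ0
  nlinarith

lemma σ4 (h : Par n σ L Q x t P R kk D J w μ M τ) : σ ^ 4 ≤ σ ^ 2 / 64 := by
  have h1 := h.σ2
  have h2 : σ ^ 4 = σ ^ 2 * σ ^ 2 := by ring
  have h3 : 0 ≤ σ ^ 2 := sq_nonneg _
  nlinarith

lemma σ8 (h : Par n σ L Q x t P R kk D J w μ M τ) : σ ^ 8 ≤ σ ^ 4 / 64 := by
  have h1 := h.σ4
  have h0 := h.σ2
  have h2 : σ ^ 8 = σ ^ 4 * σ ^ 4 := by ring
  have h3 : 0 ≤ σ ^ 4 := by positivity
  nlinarith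

lemma n0 (h : Par n σ L Q x t P R kk D J w μ M τ) : (0 : ℝ) < n := by
  by_contra hn
  push Not at hn
  have h1 := h.e2
  have h2 := h.hσ0
  have : 0 < σ ^ 8 := by positivity
  nlinarith

lemma n1 (h : Par n σ L Q x t P R kk D J w μ M τ) : 1 ≤ n := by
  have := h.n0
  exact_mod_cast this

lemma n8 (h : Par n σ L Q x t P R kk D J w μ M τ) : σ ^ 8 * n ≤ σ ^ 4 * n / 64 := by
  have h1 := mul_le_mul_of_nonneg_right h.σ8 h.n0.le
  linarith

lemma n4 (h : Par n σ L Q x t P R kk D J w μ M τ) : σ ^ 4 * n ≤ σ ^ 2 * n / 64 := by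
  have h1 := mul_le_mul_of_nonneg_right h.σ4 h.n0.le
  linarith

lemma n2 (h : Par n σ L Q x t P R kk D J w μ M τ) : σ ^ 2 * n ≤ n / 64 := by
  have h1 := mul_le_mul_of_nonneg_right h.σ2 h.n0.le
  linarith

lemma P0 (h : Par n σ L Q x t P R kk D J w μ M τ) : (0 : ℝ) < P := by
  have h1 := h.hP2
  have h2 := h.n8
  have h3 := h.n4
  have h4 := h.e2
  linarith

lemma Pn (h : Par n σ L Q x t P R kk D J w μ M τ) : (P : ℝ) ≤ n := by
  have h1 := h.hP1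
  have h2 := h.n2
  have h3 := h.n0
  linarith

lemma Jn' (h : Par n σ L Q x t P R kk D J w μ M τ) : (J : ℝ) ≤ n := by
  have h1 := h.hJ1
  have h2 := h.n2
  have h3 := h.n4
  have h4 := h.n8
  have h5 := h.n0
  linarith

lemma Jn (h : Par n σ L Q x t P R kk D J w μ M τ) : J ≤ n := by exact_mod_cast h.Jn'

lemma t1 (h : Par n σ L Q x t P R kk D J w μ M τ) : σ ^ 8 * n ≤ t := by
  have h1 := h.hL1
  have h2 : 0 ≤ σ ^ 8 * n := by linarith [h.e2]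
  rw [h.ht]
  nlinarith

lemma t0 (h : Par n σ L Q x t P R kk D J w μ M τ) : 0 < t := by linarith [h.t1, h.e2]

lemma A5 (h : Par n σ L Q x t P R kk D J w μ M τ) : (Q + 1) * t ≤ σ ^ 4 * n / 32 := by
  rw [h.ht]
  have h1 := h.n0
  calc (Q + 1) * (σ ^ 8 * L * n) = ((Q + 1) * (σ ^ 4 * L)) * (σ ^ 4 * n) := by ring
    _ ≤ 1 / 32 * (σ ^ 4 * n) := mul_le_mul_of_nonneg_right h.hA5 (by positivity)
    _ = _ := by ring

lemma tn (h : Par n σ L Q x t P R kk D J w μ M τ) : (Q + 1) * t ≤ n / 2 := by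
  linarith [h.A5, h.n4, h.n2, h.n0]

lemma M1 (h : Par n σ L Q x t P R kk D J w μ M τ) : 1 ≤ M := h.hM ▸ Real.one_le_exp h.t0.le

lemma τ0 (h : Par n σ L Q x t P R kk D J w μ M τ) : 0 < τ := h.hτ ▸ Real.exp_pos _

lemma τ4 (h : Par n σ L Q x t P R kk D J w μ M τ) : τ ≤ 1 / 4 := by
  have h1 : τ ≤ Real.exp (-t) := by
    rw [h.hτ]
    refine Real.exp_le_exp.2 ?_
    have h1 := h.hQ4
    have h2 := h.t0
    nlinarith
  have h2 : 2 * Real.exp (-t) ≤ (n + 1) * Real.exp (-t) :=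
    mul_le_mul_of_nonneg_right (by have : (1 : ℝ) ≤ n := by exact_mod_cast h.n1
                                   linarith) (Real.exp_nonneg _)
  have h3 := h.e4
  rw [one_mul] at h3
  linarith

lemma sum_le (h : Par n σ L Q x t P R kk D J w μ M τ) :
    4 * (τ ^ 2 + 2 * Real.exp (-((σ ^ 4) ^ 2 * n / 2))) ≤ 12 * Real.exp (-(σ ^ 8 * n / 2)) := by
  have h1 : (σ ^ 4) ^ 2 = σ ^ 8 := by ring
  have h2 : τ ^ 2 ≤ Real.exp (-(σ ^ 8 * n / 2)) := by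
    rw [h.hτ, ← Real.exp_nat_mul]
    refine Real.exp_le_exp.2 ?_
    push_cast
    have h3 := h.hQ4
    have h4 := h.t1
    have h5 := h.e2
    nlinarith
  rw [h1]
  linarith

lemma e_hμ (h : Par n σ L Q x t P R kk D J w μ M τ) : 2 * Real.pi * kk / P ≤ μ ^ 2 := by
  have hπ := Real.pi_pos
  have h0 : 200 ≤ σ ^ 2 * n := by linarith [h.n8, h.n4, h.e2, h.n0]
  rw [div_le_iff₀ h.P0]
  have h1 : σ ^ 2 * n / 2 ≤ P := by linarith [h.hP2]
  have h2 : μ ^ 2 * (σ ^ 2 * n / 2) ≤ μ ^ 2 * P := mul_le_mul_of_nonneg_left h1 (sq_nonneg _)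
  have h3 : 2 * Real.pi * kk ≤ 2 * Real.pi * (4 * (Q + 1) * L * (σ ^ 4 * n) + 1) :=
    mul_le_mul_of_nonneg_left h.hkk2.le (by positivity)
  have h4 : 16 * Real.pi * (Q + 1) * (L * σ ^ 2) * (σ ^ 2 * n) ≤
      μ ^ 2 / 2 * (σ ^ 2 * n) := mul_le_mul_of_nonneg_right h.hA4 (by linarith)
  have h5 : 2 * Real.pi * (4 * (Q + 1) * L * (σ ^ 4 * n) + 1) =
      (16 * Real.pi * (Q + 1) * (L * σ ^ 2) * (σ ^ 2 * n)) / 2 + 2 * Real.pi := by ring
  have h6 := h.e16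
  linarith

lemma e_hτ (h : Par n σ L Q x t P R kk D J w μ M τ) :
    P * Real.exp (-(4 * kk * w ^ 2 / P ^ 2)) + 2 * (P * (μ ^ D * (1 + μ) ^ n)) ≤ τ := by
  have hP0 := h.P0
  have ht0 := h.t0
  have hn0 := h.n0
  have hQ4 := h.hQ4
  have hτ0 := h.τ0
  have hx0 := h.hx0
  have hPn := h.Pn
  have hL1 := h.hL1
  have h1 : (P : ℝ) * Real.exp (-(4 * kk * w ^ 2 / P ^ 2)) ≤ τ / 2 := by
    have h2 : (Q + 1) * t ≤ 4 * kk * w ^ 2 / P ^ 2 := by
      rw [le_div_iff₀ (by positivity)]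
      have h3 : (P : ℝ) ^ 2 ≤ (σ ^ 2 * n) ^ 2 := pow_le_pow_left₀ hP0.le h.hP1 2
      calc (Q + 1) * t * P ^ 2 ≤ (Q + 1) * t * (σ ^ 2 * n) ^ 2 :=
            mul_le_mul_of_nonneg_left h3 (by positivity)
        _ = 4 * (4 * (Q + 1) * L * (σ ^ 4 * n)) * w ^ 2 := by rw [h.ht, h.hw]; ring
        _ ≤ 4 * kk * w ^ 2 :=
            mul_le_mul_of_nonneg_right (by linarith [h.hkk1]) (sq_nonneg _)
    have h3 : Real.exp (-(4 * kk * w ^ 2 / P ^ 2)) ≤ τ * Real.exp (-t) := by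
      rw [h.hτ, ← Real.exp_add]
      refine Real.exp_le_exp.2 ?_
      linarith
    calc (P : ℝ) * Real.exp (-(4 * kk * w ^ 2 / P ^ 2)) ≤ (n + 1) * (τ * Real.exp (-t)) :=
          mul_le_mul (by linarith) h3 (Real.exp_nonneg _) (by positivity)
      _ = τ * (1 * (n + 1) * Real.exp (-t)) := by ring
      _ ≤ τ * (1 / 2) := mul_le_mul_of_nonneg_left h.e4 hτ0.le
      _ = _ := by ring
  have hμ0 : 0 < μ := h.hμ ▸ Real.exp_pos _
  have hμ1 : μ ≤ 1 := by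
    rw [h.hμ]
    refine Real.exp_le_one_iff.2 ?_
    have : 0 < 3 / x := by positivity
    linarith
  have h2 : 2 * ((P : ℝ) * (μ ^ D * (1 + μ) ^ n)) ≤ τ / 2 := by
    have h3 : μ ^ D ≤ Real.exp (3 / x) * Real.exp (-(3 * n)) := by
      rw [h.hμ, ← Real.exp_nat_mul, ← Real.exp_add]
      refine Real.exp_le_exp.2 ?_
      have h5 : 3 / x * (x * n - 1) ≤ 3 / x * D :=
        mul_le_mul_of_nonneg_left h.hD2.le (by positivity)
      have h6 : 3 / x * (x * n - 1) = 3 * n - 3 / x := by field_simp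
      linarith
    have h4 : (1 + μ) ^ n ≤ Real.exp n := by
      have : Real.exp n = Real.exp 1 ^ n := by rw [← Real.exp_nat_mul, mul_one]
      rw [this]
      refine pow_le_pow_left₀ (by positivity) ?_ n
      have := Real.add_one_le_exp (1 : ℝ)
      linarith
    have h5 : Real.exp (-(1 * (n : ℝ))) ≤ τ := by
      rw [h.hτ]
      refine Real.exp_le_exp.2 ?_
      linarith [h.tn, h.t0]
    have h6 : μ ^ D * (1 + μ) ^ n ≤ Real.exp (3 / x) * Real.exp (-(1 * (n : ℝ))) *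
        Real.exp (-(1 * (n : ℝ))) := by
      calc μ ^ D * (1 + μ) ^ n ≤ (Real.exp (3 / x) * Real.exp (-(3 * n))) * Real.exp n :=
            mul_le_mul h3 h4 (by positivity) (by positivity)
        _ = _ := by
            rw [← Real.exp_add, ← Real.exp_add, ← Real.exp_add, ← Real.exp_add]
            congr 1
            ring
    calc 2 * ((P : ℝ) * (μ ^ D * (1 + μ) ^ n)) ≤ 2 * ((n + 1) * (Real.exp (3 / x) *
          Real.exp (-(1 * (n : ℝ))) * Real.exp (-(1 * (n : ℝ))))) := by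
          refine mul_le_mul_of_nonneg_left ?_ (by norm_num)
          exact mul_le_mul (by linarith) h6 (by positivity) (by positivity)
      _ = (4 * Real.exp (3 / x) * (n + 1) * Real.exp (-(1 * n))) / 2 *
          Real.exp (-(1 * (n : ℝ))) := by ring
      _ ≤ 1 / 2 * τ :=
          mul_le_mul (by linarith [h.e5]) h5 (Real.exp_nonneg _) (by norm_num)
      _ = τ / 2 := by ring
  linarith

lemma e_hκ (h : Par n σ L Q x t P R kk D J w μ M τ) :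
    τ + J * (2 * Real.exp (-(3 / 8 * ((σ ^ 4) ^ 2 * n))) * 9 ^ J) ≤ 1 / 2 := by
  have hJ1 := h.hJ1
  have hJn := h.Jn'
  have h0 := h.e2
  have h1 : (9 : ℝ) ^ J ≤ Real.exp (σ ^ 8 * n / 8) := by
    have h2 : (9 : ℝ) ≤ Real.exp 3 := by
      have h3 : Real.exp 3 = Real.exp 1 ^ 3 := by
        rw [← Real.exp_nat_mul]
        norm_num
      rw [h3]
      have h4 := Real.exp_one_gt_d9
      have h5 : (2.7 : ℝ) ^ 3 ≤ Real.exp 1 ^ 3 :=
        pow_le_pow_left₀ (by norm_num) (by linarith) 3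
      norm_num at h5
      linarith
    calc (9 : ℝ) ^ J ≤ Real.exp 3 ^ J := pow_le_pow_left₀ (by norm_num) h2 J
      _ = Real.exp (J * 3) := (Real.exp_nat_mul _ _).symm
      _ ≤ _ := Real.exp_le_exp.2 (by linarith)
  have h2 : (J : ℝ) * (2 * Real.exp (-(3 / 8 * ((σ ^ 4) ^ 2 * n))) * 9 ^ J) ≤ 1 / 4 := by
    calc (J : ℝ) * (2 * Real.exp (-(3 / 8 * ((σ ^ 4) ^ 2 * n))) * 9 ^ J) ≤
          (n + 1) * (2 * Real.exp (-(3 / 8 * ((σ ^ 4) ^ 2 * n))) *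
            Real.exp (σ ^ 8 * n / 8)) := by
          refine mul_le_mul (by linarith) ?_ (by positivity) (by positivity)
          exact mul_le_mul_of_nonneg_left h1 (by positivity)
      _ = 2 * (n + 1) * (Real.exp (-(3 / 8 * ((σ ^ 4) ^ 2 * n))) *
            Real.exp (σ ^ 8 * n / 8)) := by ring
      _ = 2 * (n + 1) * Real.exp (-(σ ^ 8 / 4 * n)) := by
          rw [← Real.exp_add]
          congr 2
          ring
      _ ≤ 1 / 4 := h.e7
  linarith [h.τ4]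

lemma e_hS0 (h : Par n σ L Q x t P R kk D J w μ M τ) :
    4 * (τ ^ 2 + 2 * Real.exp (-((σ ^ 4) ^ 2 * n / 2))) ≤ 1 := by
  refine h.sum_le.trans ?_
  have h0 := h.e2
  have h1 : Real.exp (-(σ ^ 8 * n / 2)) ≤ Real.exp (-(σ ^ 8 * (9 / 100) * n)) := by
    refine Real.exp_le_exp.2 ?_
    linarith
  have h2 : 1 * Real.exp (-(σ ^ 8 * (9 / 100) * n)) ≤
      (n + 1) * Real.exp (-(σ ^ 8 * (9 / 100) * n)) :=
    mul_le_mul_of_nonneg_right (by linarith [h.n0]) (Real.exp_nonneg _)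
  have h3 := h.e9
  linarith

lemma e_hS (h : Par n σ L Q x t P R kk D J w μ M τ) :
    4 * (τ ^ 2 + 2 * Real.exp (-((σ ^ 4) ^ 2 * n / 2))) *
      (J * Real.exp (41 / 100 * ((σ ^ 4) ^ 2 * n))) ≤ 1 / 4 := by
  have h1 : (σ ^ 4) ^ 2 * (n : ℝ) = σ ^ 8 * n := by ring
  have h2 := h.sum_le
  have hJn := h.Jn'
  have h3 := h.e9
  have hexp9 : (n : ℝ) * Real.exp (-(σ ^ 8 * n / 2)) * Real.exp (41 / 100 * (σ ^ 8 * n)) ≤
      (n + 1) * Real.exp (-(σ ^ 8 * (9 / 100) * n)) := by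
    rw [mul_assoc, ← Real.exp_add]
    refine mul_le_mul (by linarith) (le_of_eq ?_) (Real.exp_nonneg _) (by positivity)
    congr 1
    ring
  rw [h1] at h2 ⊢
  calc 4 * (τ ^ 2 + 2 * Real.exp (-(σ ^ 8 * n / 2))) *
        (J * Real.exp (41 / 100 * (σ ^ 8 * n))) ≤
        12 * Real.exp (-(σ ^ 8 * n / 2)) * (n * Real.exp (41 / 100 * (σ ^ 8 * n))) := by
        refine mul_le_mul h2 ?_ (by positivity) (by positivity)
        exact mul_le_mul_of_nonneg_right hJn (Real.exp_nonneg _)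
    _ = 12 * (n * Real.exp (-(σ ^ 8 * n / 2)) * Real.exp (41 / 100 * (σ ^ 8 * n))) := by ring
    _ ≤ 12 * ((n + 1) * Real.exp (-(σ ^ 8 * (9 / 100) * n))) :=
        mul_le_mul_of_nonneg_left hexp9 (by norm_num)
    _ ≤ 1 / 4 := by linarith

lemma e_hM (h : Par n σ L Q x t P R kk D J w μ M τ) (j : ℕ) (hj : j < J) :
    (n.choose j : ℝ) ≤ M ^ 2 := by
  have hσp8 : 0 < σ ^ 8 := by have := h.hσ0; positivity
  have hL0 : 0 < L := by linarith [h.hL1]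
  have hjJ : (j : ℝ) ≤ J := by exact_mod_cast hj.le
  have h1 := choose_le_exp (n := n) (j := j) hσp8 (hj.le.trans h.Jn)
  have h2 : σ ^ 8 = Real.exp (-(2 * L)) := by
    have h3 : Real.exp (-(2 * L)) = (Real.exp L ^ 2)⁻¹ := by
      rw [← Real.exp_nat_mul, Real.exp_neg]
      norm_num
    rw [h3, h.hL]
    field_simp
  have h4 : (σ ^ 8) ^ j = Real.exp (-(j * (2 * L))) := by
    rw [h2, ← Real.exp_nat_mul]
    congr 1
    ring
  rw [h4, Real.exp_neg, ← div_eq_mul_inv, div_le_iff₀ (Real.exp_pos _)] at h1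
  refine h1.trans ?_
  rw [h.hM, ← Real.exp_add, ← Real.exp_nat_mul]
  refine Real.exp_le_exp.2 ?_
  push_cast
  have h5 : j * (2 * L) ≤ σ ^ 8 * n / 100 * (2 * L) :=
    mul_le_mul_of_nonneg_right (hjJ.trans h.hJ1) (by positivity)
  have h6 : σ ^ 8 * n / 100 * (2 * L) = t / 50 := by rw [h.ht]; ring
  linarith [h.t1, h.t0]

/-- the weight, with these parameters -/
lemma weight (h : Par n σ L Q x t P R kk D J w μ M τ) :
    ∃ u u₁ : (Fin n → ZMod 2) → ℝ,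
      (∀ v, hammingNorm v < J ∨ D + J < hammingNorm v → co u₁ v = 0) ∧
      (∀ v, co u₁ v ^ 2 * (n.choose (hammingNorm v) : ℝ) ≤ 36) ∧
      (∀ x, |u x| ≤ 5 * M) ∧ (∀ x, |u₁ x| ≤ 5 * M) ∧
      av (fun x => |u x - u₁ x|) ≤ ((2 : ℝ) ^ n)⁻¹ + 3 * τ +
        4 * M * (2 * Real.exp (-(σ ^ 4 * n / 32))) ∧
      u 0 = 0 ∧ (∀ x, 0 ≤ 1 + u x) ∧ ∀ x, x ≠ 0 → 2 * σ ^ 4 * n < |ss x| → u x = -1 := by
  have hσ0 := h.hσ0
  have hn0 := h.n0
  have h8 := h.n8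
  have h4 := h.n4
  have h2 := h.n2
  have hP1 := h.hP1
  have hP2 := h.hP2
  have hR1 := h.hR1
  have hR2 := h.hR2
  have hw := h.hw
  have e2 := h.e2
  have hμ0 : 0 < μ := h.hμ ▸ Real.exp_pos _
  have hμ1 : μ ≤ 1 := by
    rw [h.hμ]
    refine Real.exp_le_one_iff.2 ?_
    have := h.hx0
    have : 0 < 3 / x := by positivity
    linarith
  have hR : 2 * R + 1 ≤ P := by
    have : (2 * R + 1 : ℝ) ≤ P := by linarith
    exact_mod_cast this
  have hσp4 : 0 < σ ^ 4 := by positivity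
  have hσ12 : σ ^ 4 < 1 / 2 := by linarith [h.σ4, h.σ2]
  have hη : av (fun x : Fin n → ZMod 2 => if σ ^ 2 * n / 4 < |ss x| then (1 : ℝ) else 0) ≤
      2 * Real.exp (-(σ ^ 4 * n / 32)) := by
    have h1 := tail_one (n := n) (l := σ ^ 2 / 4) (by positivity) (σ ^ 2 * n / 4)
    refine h1.trans (le_of_eq ?_)
    congr 2
    ring
  exact build h.n1 hσp4 hσ12 h.Jn hR (w := w) (T3 := σ ^ 2 * n / 4) (by rw [hw]; positivity)
    (by rw [hw]; linarith) (by rw [hw]; linarith) (by rw [hw]; linarith) hμ0.le hμ1 h.e_hμ h.e_hτ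
    h.τ4 (h.hJ1.trans (le_of_eq (by ring))) h.e_hκ h.e_hS0 h.e_hS hη h.M1 h.e_hM

end Par

end Pool.Agent.N381.LB
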