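import Mathlib
import Pool.Agent.N381.LB.Ap

/-!
N381/LB (helper381, MP_0430e4_lc): the asymptotic statement.
-/

set_option autoImplicit false
set_option linter.unusedSectionVars false

namespace Pool.Agent.N381.LB

open Finset Matrix Filter Pool.Agent.N381.LH

variable {n : ℕ} {σ L Q x t : ℝ} {P R kk D J : ℕ} {w μ M τ : ℝ}

/-- the pseudo-code, with these parameters -/
theorem Par.code (h : Par n σ L Q x t P R kk D J w μ M τ) {l k : ℕ} (hl : 1 ≤ l)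
    (hQ : Q = 2 ^ l + l + 1) (hx : 2 * x = Real.exp (-(12 * 2 ^ (2 ^ l)))) (hσx : σ ≤ x)
    (hD1 : (D : ℝ) ≤ x * n) (hJ2 : σ ^ 8 * n / 100 - 1 < J)
    (hk1 : k * Real.log 2 ≤ t / 1200) (hk2 : t / 1200 ≤ (k + 1) * Real.log 2)
    (e12 : l * 2 ^ l * 2 ^ (2 ^ l) * (6 * Real.exp L) * (n + 1) *
      Real.exp (-(t / 1200)) ≤ 1 / 4)
    (e13 : l * 2 ^ l * 2 ^ (2 ^ l) * (2 ^ l) ^ l * (5 ^ (2 ^ l) * 12) * (n + 1) *
      Real.exp (-t) ≤ 1 / 4)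
    (e14 : l * 2 ^ l * (n + 1) * Real.exp (-(1 / 4 * n)) ≤ 1)
    (e15 : 3 ≤ t / 2400 / Real.log 2) :
    ∃ a : Matrix (Fin l) (Fin n) (ZMod 2) → ℝ, a 0 = 1 ∧ (∀ X, 0 ≤ a X) ∧
      (∀ X, ∀ c : Fin l → ZMod 2, c ᵥ* X ≠ 0 → 2 * σ ^ 4 * n < |ss (c ᵥ* X)| → a X = 0) ∧
      (∀ Y, 0 ≤ ∑ X, a X * ch X Y) ∧
      (2 : ℝ) ^ (1 / 2400 * (t / Real.log 2) * l) ≤ ∑ X, a X := by
  obtain ⟨u, u₁, hspec, hco, hu, hu₁, hdist, hu0, hupos, hfar⟩ := h.weight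
  have hlog2 : 0 < Real.log 2 := Real.log_pos (by norm_num)
  have hl0 : (1 : ℝ) ≤ l := by exact_mod_cast hl
  have hn0 := h.n0
  have hn1 := h.n1
  have ht0 := h.t0
  have hσ0 := h.hσ0
  have hL1 := h.hL1
  have hM1 := h.M1
  have hτ0 := h.τ0
  have hJ1' : 1 ≤ J := by
    have : (1 : ℝ) ≤ J := by linarith [h.e2]
    exact_mod_cast this
  have hJ0 : (1 : ℝ) ≤ J := by exact_mod_cast hJ1'
  have h2x1 : 2 * x ≤ 1 := by
    rw [hx]
    refine Real.exp_le_one_iff.2 ?_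
    have : (0 : ℝ) < 2 ^ (2 ^ l) := by positivity
    linarith
  have hDJ : ((D + J : ℕ) : ℝ) ≤ 2 * x * n := by
    push_cast
    have h1 : σ ^ 8 * n / 100 ≤ x * n := by
      have h2 : σ ^ 8 ≤ σ := by
        have := pow_le_pow_of_le_one hσ0.le (by linarith [h.hσ]) (by norm_num : 1 ≤ 8)
        simpa using this
      have h3 : σ ^ 8 * n ≤ x * n := mul_le_mul_of_nonneg_right (h2.trans hσx) hn0.le
      have : 0 < σ ^ 8 * n := by positivity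
      linarith
    linarith [h.hJ1]
  have hDn : D + J ≤ n := by
    have : ((D + J : ℕ) : ℝ) ≤ n := by
      refine hDJ.trans ?_
      have := mul_le_mul_of_nonneg_right h2x1 hn0.le
      linarith
    exact_mod_cast this
  -- the code size
  have h2k : (2 : ℝ) ^ k ≤ Real.exp (t / 1200) := by
    have : (2 : ℝ) ^ k = Real.exp (k * Real.log 2) := by
      rw [Real.exp_nat_mul, Real.exp_log (by norm_num)]
    rw [this]
    exact Real.exp_le_exp.2 hk1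
  -- the main error
  obtain ⟨X, hX⟩ : ∃ X, X = 6 * (n + 1) * (Real.exp L * Real.exp (-(t / 600))) := ⟨_, rfl⟩
  have hX0 : 0 ≤ X := by rw [hX]; positivity
  have hXb : 6 * (((D + J : ℕ) : ℝ) + 1) * Real.exp (-(J * Real.log (n / J) / 12)) ≤ X := by
    rw [hX]
    have hDn' : ((D + J : ℕ) : ℝ) ≤ n := by exact_mod_cast hDn
    refine mul_le_mul (by linarith) ?_ (Real.exp_nonneg _) (by positivity)
    rw [← Real.exp_add]
    refine Real.exp_le_exp.2 ?_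
    have h1 : 2 * L ≤ Real.log (n / J) := by
      rw [Real.le_log_iff_exp_le (by positivity)]
      have h2 : Real.exp (2 * L) = (Real.exp L) ^ 2 := by
        rw [← Real.exp_nat_mul]
        norm_num
      rw [h2, h.hL, le_div_iff₀ (by positivity), div_pow, one_pow, div_mul_eq_mul_div, one_mul,
        div_le_iff₀ (by positivity)]
      have h3 := h.hJ1
      have h4 : (n : ℝ) * (σ ^ 4) ^ 2 = σ ^ 8 * n := by ring
      rw [h4]
      linarith [h.e2]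
    have h2 : (σ ^ 8 * n / 100 - 1) * (2 * L) ≤ J * Real.log (n / J) :=
      mul_le_mul hJ2.le h1 (by linarith) (by linarith)
    have h3 : (σ ^ 8 * n / 100 - 1) * (2 * L) = t / 50 - 2 * L := by rw [h.ht]; ring
    linarith
  have hkX : 2 ^ k * X ≤ 6 * Real.exp L * (n + 1) * Real.exp (-(t / 1200)) := by
    calc 2 ^ k * X ≤ Real.exp (t / 1200) * X := mul_le_mul_of_nonneg_right h2k hX0
      _ = 6 * Real.exp L * (n + 1) * (Real.exp (t / 1200) * Real.exp (-(t / 600))) := by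
          rw [hX]
          ring
      _ = _ := by
          rw [← Real.exp_add]
          congr 2
          ring
  have hC0 : (1 : ℝ) ≤ l * 2 ^ l * 2 ^ (2 ^ l) := by
    have h1 : (1 : ℝ) ≤ 2 ^ l := one_le_pow₀ (by norm_num)
    have h2 : (1 : ℝ) ≤ 2 ^ (2 ^ l) := one_le_pow₀ (by norm_num)
    exact one_le_mul_of_one_le_of_one_le (one_le_mul_of_one_le_of_one_le hl0 h1) h2
  have hc1 : l * 2 ^ l * 2 ^ (2 ^ l) * (2 ^ k * X) ≤ 1 / 4 := by
    calc (l : ℝ) * 2 ^ l * 2 ^ (2 ^ l) * (2 ^ k * X) ≤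
        l * 2 ^ l * 2 ^ (2 ^ l) * (6 * Real.exp L * (n + 1) * Real.exp (-(t / 1200))) :=
          mul_le_mul_of_nonneg_left hkX (by positivity)
      _ = _ := by ring
      _ ≤ 1 / 4 := e12
  have hX1 : X ≤ 1 := by
    have h1 : (1 : ℝ) ≤ 2 ^ k := one_le_pow₀ (by norm_num)
    have h2 : X ≤ 2 ^ k * X := le_mul_of_one_le_left hX0 h1
    have h3 : 2 ^ k * X ≤ l * 2 ^ l * 2 ^ (2 ^ l) * (2 ^ k * X) :=
      le_mul_of_one_le_left (by positivity) hC0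
    linarith
  -- the small error
  obtain ⟨δ, hδ⟩ : ∃ δ, δ = 12 * Real.exp (-(Q * t)) := ⟨_, rfl⟩
  have hδb : ((2 : ℝ) ^ n)⁻¹ + 3 * τ + 4 * M * (2 * Real.exp (-(σ ^ 4 * n / 32))) ≤ δ := by
    have h1 : ((2 : ℝ) ^ n)⁻¹ ≤ Real.exp (-(Q * t)) := by
      have h2 : (2 : ℝ) ^ n = Real.exp (n * Real.log 2) := by
        rw [Real.exp_nat_mul, Real.exp_log (by norm_num)]
      rw [h2, ← Real.exp_neg]
      refine Real.exp_le_exp.2 ?_
      have h3 := h.tn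
      have h4 := Real.log_two_gt_d9
      nlinarith
    have h2 : M * Real.exp (-(σ ^ 4 * n / 32)) ≤ Real.exp (-(Q * t)) := by
      rw [h.hM, ← Real.exp_add]
      refine Real.exp_le_exp.2 ?_
      linarith [h.A5]
    have h3 := h.hτ
    rw [hδ, h3]
    linarith
  have hc2 : l * 2 ^ l * 2 ^ (2 ^ l) * (2 ^ l) ^ l *
      (((2 : ℝ) ^ k) ^ l * (5 * M) ^ (2 ^ l) * δ) ≤ 1 / 4 := by
    have h1 : ((2 : ℝ) ^ k) ^ l * (5 * M) ^ (2 ^ l) * δ ≤ 5 ^ (2 ^ l) * 12 * Real.exp (-t) := by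
      have h2 : ((2 : ℝ) ^ k) ^ l ≤ Real.exp (l * t) := by
        calc ((2 : ℝ) ^ k) ^ l ≤ Real.exp (t / 1200) ^ l :=
              pow_le_pow_left₀ (by positivity) h2k l
          _ = Real.exp (l * (t / 1200)) := (Real.exp_nat_mul _ _).symm
          _ ≤ _ := Real.exp_le_exp.2 (by nlinarith)
      have h3 : M ^ (2 ^ l) = Real.exp (2 ^ l * t) := by
        rw [h.hM, ← Real.exp_nat_mul]
        push_cast
        rfl
      rw [mul_pow, h3, hδ]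
      calc ((2 : ℝ) ^ k) ^ l * (5 ^ (2 ^ l) * Real.exp (2 ^ l * t)) * (12 * Real.exp (-(Q * t))) ≤
          Real.exp (l * t) * (5 ^ (2 ^ l) * Real.exp (2 ^ l * t)) * (12 * Real.exp (-(Q * t))) :=
            mul_le_mul_of_nonneg_right (mul_le_mul_of_nonneg_right h2 (by positivity))
              (by positivity)
        _ = 5 ^ (2 ^ l) * 12 * (Real.exp (l * t) * Real.exp (2 ^ l * t) * Real.exp (-(Q * t))) := by
            ring
        _ = _ := by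
            rw [← Real.exp_add, ← Real.exp_add, hQ]
            congr 2
            ring
    have h4 : Real.exp (-t) ≤ (n + 1) * Real.exp (-t) :=
      le_mul_of_one_le_left (Real.exp_nonneg _) (by linarith)
    calc (l : ℝ) * 2 ^ l * 2 ^ (2 ^ l) * (2 ^ l) ^ l *
          (((2 : ℝ) ^ k) ^ l * (5 * M) ^ (2 ^ l) * δ) ≤
          l * 2 ^ l * 2 ^ (2 ^ l) * (2 ^ l) ^ l * (5 ^ (2 ^ l) * 12 * ((n + 1) * Real.exp (-t))) :=
          mul_le_mul_of_nonneg_left (h1.trans (mul_le_mul_of_nonneg_left h4 (by positivity)))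
            (by positivity)
      _ = _ := by ring
      _ ≤ 1 / 4 := e13
  have hc3 : l * 2 ^ l * (2 : ℝ) ^ k ≤ 2 ^ n := by
    have h2 : (2 : ℝ) ^ n = Real.exp (n * Real.log 2) := by
      rw [Real.exp_nat_mul, Real.exp_log (by norm_num)]
    have h3 : Real.exp (t / 1200) ≤ Real.exp (-(1 / 4 * n)) * 2 ^ n := by
      rw [h2, ← Real.exp_add]
      refine Real.exp_le_exp.2 ?_
      have h3 := h.tn
      have h4 := Real.log_two_gt_d9
      have h5 := h.hQ4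
      have h6 : 5 * t ≤ (Q + 1) * t := mul_le_mul_of_nonneg_right (by linarith) ht0.le
      nlinarith
    have h4 : (1 : ℝ) ≤ n + 1 := by linarith
    calc (l : ℝ) * 2 ^ l * (2 : ℝ) ^ k ≤ l * 2 ^ l * (Real.exp (-(1 / 4 * n)) * 2 ^ n) :=
          mul_le_mul_of_nonneg_left (h2k.trans h3) (by positivity)
      _ = (l * 2 ^ l * 1 * Real.exp (-(1 / 4 * n))) * 2 ^ n := by ring
      _ ≤ (l * 2 ^ l * (n + 1) * Real.exp (-(1 / 4 * n))) * 2 ^ n := by gcongr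
      _ ≤ 1 * 2 ^ n := mul_le_mul_of_nonneg_right e14 (by positivity)
      _ = _ := one_mul _
  have hDlog : ∀ j ∈ Icc J (D + J), 12 * (2 : ℝ) ^ (2 ^ l) ≤ Real.log (n / j) := by
    intro j hj
    obtain ⟨hj1, hj2⟩ := Finset.mem_Icc.1 hj
    have hj0 : (0 : ℝ) < j := by exact_mod_cast lt_of_lt_of_le hJ1' hj1
    have hj3 : (j : ℝ) ≤ 2 * x * n := le_trans (by exact_mod_cast hj2) hDJ
    rw [Real.le_log_iff_exp_le (by positivity), le_div_iff₀ hj0]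
    rw [hx, Real.exp_neg, ← div_eq_inv_mul, le_div_iff₀ (Real.exp_pos _)] at hj3
    linarith
  obtain ⟨a, a1, a2, a3, a4, a5⟩ := finite n J (D + J) k l u u₁ (5 * M) δ X hn1 hJ1'
    (by linarith) hu hu₁ hDn (hdist.trans hδb) hspec hco hDlog hu0 hupos hXb hX1 hc1 hc2 hc3
  refine ⟨a, a1, a2, fun X c hc hc2 => a3 X c (hfar _ hc hc2), a4, le_trans ?_ a5⟩
  rw [← pow_mul, ← Real.rpow_natCast]
  have h4 : (4 : ℝ) = 2 ^ (2 : ℝ) := by norm_num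
  rw [h4, ← Real.rpow_sub (by norm_num)]
  refine Real.rpow_le_rpow_of_exponent_le (by norm_num) ?_
  push_cast
  have h5 : t / 1200 / Real.log 2 ≤ k + 1 := by rwa [div_le_iff₀ hlog2]
  obtain ⟨y, hy⟩ : ∃ y, y = t / 2400 / Real.log 2 := ⟨_, rfl⟩
  have h6 : t / 1200 / Real.log 2 = 2 * y := by rw [hy]; ring
  have h7 : 1 / 2400 * (t / Real.log 2) * l = y * l := by rw [hy]; ring
  rw [h7]
  rw [h6] at h5
  rw [← hy] at e15
  nlinarith

/-- the limit -/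
theorem asym_aux {l : ℕ} (hl : 1 ≤ l) (hσ0 : 0 < σ) (hσ : σ ≤ 1 / 8)
    (hL : Real.exp L = 1 / σ ^ 4) (hL1 : 1 ≤ L) (hQ : Q = 2 ^ l + l + 1)
    (hx : 2 * x = Real.exp (-(12 * 2 ^ (2 ^ l)))) (hσx : σ ≤ x)
    (hA4 : 16 * Real.pi * (Q + 1) * (L * σ ^ 2) ≤ Real.exp (-(3 / x)) ^ 2 / 2)
    (hA5 : (Q + 1) * (σ ^ 4 * L) ≤ 1 / 32) :
    ∀ᶠ n : ℕ in atTop, ∃ a : Matrix (Fin l) (Fin n) (ZMod 2) → ℝ, a 0 = 1 ∧ (∀ X, 0 ≤ a X) ∧
      (∀ X, ∀ c : Fin l → ZMod 2, c ᵥ* X ≠ 0 → 2 * σ ^ 4 * n < |ss (c ᵥ* X)| → a X = 0) ∧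
      (∀ Y, 0 ≤ ∑ X, a X * ch X Y) ∧
      (2 : ℝ) ^ (1 / 2400 * (σ ^ 8 * L * n / Real.log 2) * l) ≤ ∑ X, a X := by
  have hσ8 : 0 < σ ^ 8 := by positivity
  have hσ2 : 0 < σ ^ 2 := by positivity
  have hL0 : 0 < L := by linarith
  have hlog2 : 0 < Real.log 2 := Real.log_pos (by norm_num)
  have hx0 : 0 < x := by
    have := Real.exp_pos (-(12 * 2 ^ (2 ^ l) : ℝ))
    linarith
  have hπ := Real.pi_pos
  have hQ4 : 4 ≤ Q := by
    have h1 : (2 : ℝ) ≤ 2 ^ l := by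
      calc (2 : ℝ) = 2 ^ 1 := by norm_num
        _ ≤ 2 ^ l := pow_le_pow_right₀ (by norm_num) hl
    have hl0 : (1 : ℝ) ≤ l := by exact_mod_cast hl
    rw [hQ]
    linarith
  have hμ0 := Real.exp_pos (-(3 / x))
  have f2 : ∀ᶠ n : ℕ in atTop, 200 / σ ^ 8 ≤ (n : ℝ) :=
    tendsto_natCast_atTop_atTop.eventually_ge_atTop _
  have f16 : ∀ᶠ n : ℕ in atTop, 4 * Real.pi / (Real.exp (-(3 / x)) ^ 2 / 2 * σ ^ 2) ≤ (n : ℝ) :=
    tendsto_natCast_atTop_atTop.eventually_ge_atTop _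
  have f15 : ∀ᶠ n : ℕ in atTop, 3 * Real.log 2 * 2400 / (σ ^ 8 * L) ≤ (n : ℝ) :=
    tendsto_natCast_atTop_atTop.eventually_ge_atTop _
  filter_upwards [f2, f16, f15, ev (a := σ ^ 8 * L) (by positivity) 1 (η := 1 / 2) (by norm_num),
    ev (a := 1) (by norm_num) (4 * Real.exp (3 / x)) (η := 1) (by norm_num),
    ev (a := σ ^ 8 / 4) (by positivity) 2 (η := 1 / 4) (by norm_num),
    ev (a := σ ^ 8 * (9 / 100)) (by positivity) 12 (η := 1 / 4) (by norm_num),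
    ev (a := σ ^ 8 * L / 1200) (by positivity) (l * 2 ^ l * 2 ^ (2 ^ l) * (6 * Real.exp L))
      (η := 1 / 4) (by norm_num),
    ev (a := σ ^ 8 * L) (by positivity) (l * 2 ^ l * 2 ^ (2 ^ l) * (2 ^ l) ^ l *
      (5 ^ (2 ^ l) * 12)) (η := 1 / 4) (by norm_num),
    ev (a := 1 / 4) (by norm_num) (l * 2 ^ l) (η := 1) (by norm_num)]
    with n g2 g16 g15 e4 e5 e7 e9 e12 e13 e14
  have e2 : 200 ≤ σ ^ 8 * n := by rwa [div_le_iff₀' hσ8] at g2
  have e16 : 4 * Real.pi ≤ Real.exp (-(3 / x)) ^ 2 / 2 * (σ ^ 2 * n) := by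
    rw [div_le_iff₀' (by positivity)] at g16
    linarith
  have e15 : 3 ≤ σ ^ 8 * L * n / 2400 / Real.log 2 := by
    rw [div_le_iff₀' (by positivity)] at g15
    rw [le_div_iff₀ hlog2, le_div_iff₀ (by norm_num)]
    exact g15
  have hpar : Par n σ L Q x (σ ^ 8 * L * n) ⌊σ ^ 2 * n⌋₊ ⌊3 / 2 * (σ ^ 4 * n)⌋₊
      ⌈4 * (Q + 1) * L * (σ ^ 4 * n)⌉₊ ⌊x * n⌋₊ ⌊σ ^ 8 * n / 100⌋₊ (σ ^ 4 * n / 4)
      (Real.exp (-(3 / x))) (Real.exp (σ ^ 8 * L * n)) (Real.exp (-(Q * (σ ^ 8 * L * n)))) :=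
    { hσ0 := hσ0
      hσ := hσ
      hL := hL
      hL1 := hL1
      hQ4 := hQ4
      hx0 := hx0
      e2 := e2
      ht := rfl
      hP1 := Nat.floor_le (by positivity)
      hP2 := Nat.sub_one_lt_floor _
      hR1 := Nat.floor_le (by positivity)
      hR2 := Nat.sub_one_lt_floor _
      hkk1 := Nat.le_ceil _
      hkk2 := Nat.ceil_lt_add_one (by positivity)
      hD2 := Nat.sub_one_lt_floor _
      hJ1 := Nat.floor_le (by positivity)
      hw := rfl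
      hμ := rfl
      hM := rfl
      hτ := rfl
      hA4 := hA4
      hA5 := hA5
      e16 := e16
      e4 := e4
      e5 := e5
      e7 := e7
      e9 := e9 }
  refine hpar.code (k := ⌊σ ^ 8 * L * n / 1200 / Real.log 2⌋₊) hl hQ hx hσx
    (Nat.floor_le (by positivity)) (Nat.sub_one_lt_floor _) ?_ ?_ ?_ e13 e14 e15
  · rw [← le_div_iff₀ hlog2]
    exact Nat.floor_le (by positivity)
  · rw [← div_le_iff₀ hlog2]
    exact (Nat.lt_floor_add_one _).le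
  · have : σ ^ 8 * L * n / 1200 = σ ^ 8 * L / 1200 * n := by ring
    rw [this]
    exact e12

theorem asym {l : ℕ} (hl : 1 ≤ l) : ∃ ε₀ : ℝ, 0 < ε₀ ∧ ∀ ε : ℝ, 0 < ε → ε < ε₀ →
    ∀ᶠ n : ℕ in atTop, ∃ a : Matrix (Fin l) (Fin n) (ZMod 2) → ℝ, a 0 = 1 ∧ (∀ X, 0 ≤ a X) ∧
      (∀ X, ∀ c : Fin l → ZMod 2, c ᵥ* X ≠ 0 → 2 * ε * n < |ss (c ᵥ* X)| → a X = 0) ∧
      (∀ Y, 0 ≤ ∑ X, a X * ch X Y) ∧
      (2 : ℝ) ^ (1 / 2400 * (ε ^ 2 * Real.logb 2 (1 / ε)) * (l * n)) ≤ ∑ X, a X := by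
  obtain ⟨Q, hQ⟩ : ∃ Q : ℝ, Q = 2 ^ l + l + 1 := ⟨_, rfl⟩
  obtain ⟨x, hx⟩ : ∃ x : ℝ, x = Real.exp (-(12 * 2 ^ (2 ^ l))) / 2 := ⟨_, rfl⟩
  have hπ := Real.pi_pos
  have hQ0 : 0 < Q := by rw [hQ]; positivity
  have hx0 : 0 < x := by rw [hx]; positivity
  obtain ⟨σ₀, hσ₀⟩ : ∃ σ₀ : ℝ, σ₀ = min (1 / 8) (min x (min (Real.exp (-(3 / x)) ^ 2 /
    (128 * Real.pi * (Q + 1))) (1 / (128 * (Q + 1))))) := ⟨_, rfl⟩
  have hσ₀0 : 0 < σ₀ := by
    rw [hσ₀]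
    refine lt_min (by norm_num) (lt_min hx0 (lt_min (by positivity) (by positivity)))
  refine ⟨σ₀ ^ 4, by positivity, fun ε hε0 hε => ?_⟩
  obtain ⟨σ, hσ⟩ : ∃ σ : ℝ, σ = ε ^ ((1 : ℝ) / 4) := ⟨_, rfl⟩
  have hσ4 : σ ^ 4 = ε := by
    rw [hσ, ← Real.rpow_natCast, ← Real.rpow_mul hε0.le]
    norm_num
  have hσ0 : 0 < σ := by rw [hσ]; positivity
  have hσlt : σ < σ₀ := by
    refine lt_of_pow_lt_pow_left₀ 4 hσ₀0.le ?_
    rw [hσ4]
    exact hε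
  have hb1 : σ ≤ 1 / 8 := hσlt.le.trans (hσ₀ ▸ min_le_left _ _)
  have hb2 : σ ≤ x := hσlt.le.trans (hσ₀ ▸ (min_le_right _ _).trans (min_le_left _ _))
  have hb3 : σ ≤ Real.exp (-(3 / x)) ^ 2 / (128 * Real.pi * (Q + 1)) :=
    hσlt.le.trans (hσ₀ ▸ (min_le_right _ _).trans ((min_le_right _ _).trans (min_le_left _ _)))
  have hb4 : σ ≤ 1 / (128 * (Q + 1)) :=
    hσlt.le.trans (hσ₀ ▸ (min_le_right _ _).trans ((min_le_right _ _).trans (min_le_right _ _)))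
  obtain ⟨L, hL⟩ : ∃ L, L = Real.log (1 / σ ^ 4) := ⟨_, rfl⟩
  have hexpL : Real.exp L = 1 / σ ^ 4 := by
    rw [hL, Real.exp_log (by positivity)]
  have hL1 : 1 ≤ L := by
    rw [hL, Real.le_log_iff_exp_le (by positivity), le_div_iff₀ (by positivity)]
    have h1 := Real.exp_one_lt_d9
    have h2 : σ ^ 4 ≤ (1 / 8) ^ 4 := pow_le_pow_left₀ hσ0.le hb1 4
    have h3 := Real.exp_pos (1 : ℝ)
    calc Real.exp 1 * σ ^ 4 ≤ 3 * (1 / 8) ^ 4 :=
          mul_le_mul (by linarith) h2 (by positivity) (by norm_num)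
      _ ≤ 1 := by norm_num
  have hLσ : L * σ ≤ 4 := by
    have h1 : L = 4 * Real.log (1 / σ) := by
      rw [hL, ← _root_.one_div_pow, Real.log_pow]
      norm_num
    have h2 := Real.log_le_sub_one_of_pos (by positivity : 0 < 1 / σ)
    have h3 : L ≤ 4 * (1 / σ) := by rw [h1]; linarith
    calc L * σ ≤ 4 * (1 / σ) * σ := mul_le_mul_of_nonneg_right h3 hσ0.le
      _ = 4 := by field_simp
  have hA4 : 16 * Real.pi * (Q + 1) * (L * σ ^ 2) ≤ Real.exp (-(3 / x)) ^ 2 / 2 := by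
    rw [le_div_iff₀ (by positivity)] at hb3
    calc 16 * Real.pi * (Q + 1) * (L * σ ^ 2) = 16 * Real.pi * (Q + 1) * σ * (L * σ) := by ring
      _ ≤ 16 * Real.pi * (Q + 1) * σ * 4 := mul_le_mul_of_nonneg_left hLσ (by positivity)
      _ = (σ * (128 * Real.pi * (Q + 1))) / 2 := by ring
      _ ≤ _ := by linarith
  have hA5 : (Q + 1) * (σ ^ 4 * L) ≤ 1 / 32 := by
    rw [le_div_iff₀ (by positivity)] at hb4
    have h1 : σ ^ 3 ≤ σ := by
      have := pow_le_pow_of_le_one hσ0.le (by linarith) (by norm_num : 1 ≤ 3)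
      simpa using this
    calc (Q + 1) * (σ ^ 4 * L) = (Q + 1) * σ ^ 3 * (L * σ) := by ring
      _ ≤ (Q + 1) * σ * 4 :=
          mul_le_mul (mul_le_mul_of_nonneg_left h1 (by positivity)) hLσ (by positivity)
            (by positivity)
      _ = (σ * (128 * (Q + 1))) / 32 := by ring
      _ ≤ _ := by linarith
  have hmain := asym_aux hl hσ0 hb1 hexpL hL1 hQ (by rw [hx]; ring) hb2 hA4 hA5
  filter_upwards [hmain] with n hn
  obtain ⟨a, a1, a2, a3, a4, a5⟩ := hn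
  refine ⟨a, a1, a2, fun X c h1 h2 => a3 X c h1 (by rw [hσ4]; exact h2), a4, ?_⟩
  refine le_trans (le_of_eq ?_) a5
  congr 1
  have h8 : σ ^ 8 = ε ^ 2 := by
    rw [← hσ4]
    ring
  have h9 : Real.logb 2 (1 / ε) = L / Real.log 2 := by
    rw [hL, hσ4]
    rfl
  rw [h8, h9]
  ring

end Pool.Agent.N381.LB
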